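import Mathlib

/-!
Values of a rational function of degree one at infinity.
-/

set_option autoImplicit false

namespace Pool.Agent.K3h44.HP

open Polynomial

theorem eval_le (A : ℂ[X]) : ∃ S : ℝ, 0 < S ∧ ∀ (t : ℂ) (R : ℝ), 1 ≤ R → ‖t‖ ≤ R →
    ‖A.eval t‖ ≤ S * R ^ A.natDegree := by
  refine ⟨∑ i ∈ Finset.range (A.natDegree + 1), ‖A.coeff i‖ + 1, by positivity,
    fun t R hR ht => ?_⟩
  rw [eval_eq_sum_range]
  refine (norm_sum_le _ _).trans ?_
  have h1 : ∀ i ∈ Finset.range (A.natDegree + 1), ‖A.coeff i * t ^ i‖ ≤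
      ‖A.coeff i‖ * R ^ A.natDegree := by
    intro i hi
    rw [norm_mul, norm_pow]
    refine mul_le_mul_of_nonneg_left ?_ (norm_nonneg _)
    refine (pow_le_pow_left₀ (norm_nonneg _) ht i).trans ?_
    exact pow_le_pow_right₀ hR (by
      have := Finset.mem_range.1 hi
      omega)
  refine (Finset.sum_le_sum h1).trans ?_
  rw [← Finset.sum_mul]
  have : (0 : ℝ) ≤ R ^ A.natDegree := by positivity
  nlinarith

theorem eval_prod {B : ℂ[X]} (t : ℂ) :
    B.eval t = B.leadingCoeff * (B.roots.map fun a => t - a).prod := by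
  conv_lhs => rw [(IsAlgClosed.splits B).eq_prod_roots]
  rw [eval_mul, eval_C, eval_multiset_prod, Multiset.map_map]
  congr 2
  refine Multiset.map_congr rfl fun a _ => ?_
  simp

theorem norm_multiset_prod (s : Multiset ℂ) : ‖s.prod‖ = (s.map fun a => ‖a‖).prod := by
  induction s using Multiset.induction_on with
  | empty => simp
  | cons a s ih => rw [Multiset.prod_cons, norm_mul, ih, Multiset.map_cons, Multiset.prod_cons]

theorem prod_mono (s : Multiset ℂ) (f g : ℂ → ℝ) (h0 : ∀ a ∈ s, 0 ≤ f a)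
    (h : ∀ a ∈ s, f a ≤ g a) : (s.map f).prod ≤ (s.map g).prod := by
  induction s using Multiset.induction_on with
  | empty => simp
  | cons a s ih =>
    rw [Multiset.map_cons, Multiset.prod_cons, Multiset.map_cons, Multiset.prod_cons]
    have h1 := ih (fun b hb => h0 b (Multiset.mem_cons_of_mem hb))
      (fun b hb => h b (Multiset.mem_cons_of_mem hb))
    have h2 : 0 ≤ (s.map f).prod := Multiset.prod_nonneg (by
      intro x hx
      obtain ⟨b, hb, rfl⟩ := Multiset.mem_map.1 hx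
      exact h0 b (Multiset.mem_cons_of_mem hb))
    exact mul_le_mul (h a (Multiset.mem_cons_self _ _)) h1 h2
      ((h0 a (Multiset.mem_cons_self _ _)).trans (h a (Multiset.mem_cons_self _ _)))

theorem root_bound (B : ℂ[X]) : ∃ ρ : ℝ, 0 ≤ ρ ∧ ∀ a ∈ B.roots, ‖a‖ ≤ ρ := by
  refine ⟨∑ a ∈ B.roots.toFinset, ‖a‖, by positivity, fun a ha => ?_⟩
  exact Finset.single_le_sum (f := fun a : ℂ => ‖a‖) (fun _ _ => norm_nonneg _)
    (Multiset.mem_toFinset.2 ha)

/-- growth at infinity -/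
theorem growth {A B : ℂ[X]} (hB : B ≠ 0) (hdeg : A.natDegree ≤ B.natDegree + 1) :
    ∃ R C : ℝ, 1 ≤ R ∧ 0 < C ∧ ∀ t : ℂ, R ≤ ‖t‖ →
      B.eval t ≠ 0 ∧ ‖A.eval t‖ ≤ C * ‖t‖ * ‖B.eval t‖ := by
  obtain ⟨S, hS0, hS⟩ := eval_le A
  obtain ⟨ρ, hρ0, hρ⟩ := root_bound B
  have hlc : 0 < ‖B.leadingCoeff‖ := norm_pos_iff.2 (leadingCoeff_ne_zero.2 hB)
  refine ⟨2 * ρ + 1, S * 2 ^ B.natDegree / ‖B.leadingCoeff‖, by linarith, by positivity,
    fun t ht => ?_⟩
  have ht1 : 1 ≤ ‖t‖ := by linarith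
  have hlow : ‖B.leadingCoeff‖ * (‖t‖ / 2) ^ B.natDegree ≤ ‖B.eval t‖ := by
    rw [eval_prod, norm_mul, norm_multiset_prod, Multiset.map_map]
    refine mul_le_mul_of_nonneg_left ?_ (norm_nonneg _)
    have h1 : ((B.roots.map fun _ => ‖t‖ / 2).prod) = (‖t‖ / 2) ^ B.natDegree := by
      rw [Multiset.map_const', Multiset.prod_replicate,
        (IsAlgClosed.splits B).natDegree_eq_card_roots]
    rw [← h1]
    refine prod_mono _ _ _ (fun a _ => by positivity) fun a ha => ?_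
    have h2 := norm_sub_norm_le t a
    have h3 := hρ a ha
    simp only [Function.comp]
    linarith
  have hpos : 0 < ‖B.leadingCoeff‖ * (‖t‖ / 2) ^ B.natDegree := by positivity
  refine ⟨fun h => by rw [h, norm_zero] at hlow; linarith, ?_⟩
  refine (hS t ‖t‖ ht1 le_rfl).trans ?_
  have h4 : ‖t‖ ^ A.natDegree ≤ ‖t‖ ^ (B.natDegree + 1) := pow_le_pow_right₀ ht1 hdeg
  calc S * ‖t‖ ^ A.natDegree ≤ S * ‖t‖ ^ (B.natDegree + 1) :=
        mul_le_mul_of_nonneg_left h4 hS0.le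
    _ = S * 2 ^ B.natDegree / ‖B.leadingCoeff‖ * ‖t‖ *
        (‖B.leadingCoeff‖ * (‖t‖ / 2) ^ B.natDegree) := by
        rw [div_pow]
        field_simp
        ring
    _ ≤ _ := mul_le_mul_of_nonneg_left hlow (by positivity)

/-- large values are taken near infinity or near a pole -/
theorem near {A B : ℂ[X]} {k : ℕ} (hdeg : A.natDegree ≤ B.natDegree + 1)
    (hdB : 1 ≤ B.natDegree) (hk : ∀ τ, B.rootMultiplicity τ ≤ k) :
    ∃ C : ℝ, 1 ≤ C ∧ ∀ (t : ℂ) (M : ℝ), 1 ≤ M → B.eval t ≠ 0 → M * ‖B.eval t‖ ≤ ‖A.eval t‖ →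
      M ≤ C * ‖t‖ ∨ ∃ τ, B.eval τ = 0 ∧ M * ‖t - τ‖ ^ k ≤ C := by
  classical
  have hB : B ≠ 0 := by
    rintro rfl
    simp at hdB
  obtain ⟨R, C₁, hR, hC₁, hinf⟩ := growth hB hdeg
  obtain ⟨S, hS0, hS⟩ := eval_le A
  obtain ⟨ρ, hρ0, hρ⟩ := root_bound B
  have hne : B.roots.toFinset.Nonempty := by
    obtain ⟨z, hz⟩ := IsAlgClosed.exists_root B (natDegree_pos_iff_degree_pos.1 hdB).ne'
    exact ⟨z, Multiset.mem_toFinset.2 ((mem_roots hB).2 hz)⟩
  -- the constant at a root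
  have hroot : ∀ τ : ℂ, ∃ c : ℝ, 0 < c ∧ ∀ t : ℂ, (∀ a ∈ B.roots, ‖t - τ‖ ≤ ‖t - a‖) →
      c * ‖t - τ‖ ^ B.rootMultiplicity τ ≤ ‖B.eval t‖ := by
    intro τ
    obtain ⟨G, hG, hG2⟩ := exists_eq_pow_rootMultiplicity_mul_and_not_dvd B hB τ
    have hG0 : G ≠ 0 := by
      rintro rfl
      exact hG2 (dvd_zero _)
    refine ⟨‖G.leadingCoeff‖ * (G.roots.map fun a => ‖τ - a‖ / 2).prod, ?_, fun t ht => ?_⟩
    · refine mul_pos (norm_pos_iff.2 (leadingCoeff_ne_zero.2 hG0)) (Multiset.prod_pos ?_)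
      intro x hx
      obtain ⟨a, ha, rfl⟩ := Multiset.mem_map.1 hx
      have : τ ≠ a := by
        rintro rfl
        exact hG2 (dvd_iff_isRoot.2 ((mem_roots hG0).1 ha))
      have := norm_pos_iff.2 (sub_ne_zero.2 this)
      positivity
    · have h1 : ‖G.leadingCoeff‖ * (G.roots.map fun a => ‖τ - a‖ / 2).prod ≤ ‖G.eval t‖ := by
        rw [eval_prod, norm_mul, norm_multiset_prod, Multiset.map_map]
        refine mul_le_mul_of_nonneg_left ?_ (norm_nonneg _)
        refine prod_mono _ _ _ (fun a _ => by positivity) fun a ha => ?_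
        have h2 : a ∈ B.roots := by
          rw [mem_roots hB, IsRoot.def, hG, eval_mul, (mem_roots hG0).1 ha, mul_zero]
        have h3 := ht a h2
        have h4 : ‖τ - a‖ ≤ ‖t - τ‖ + ‖t - a‖ := by
          rw [← norm_neg (t - τ)]
          refine le_trans (le_of_eq ?_) (norm_add_le _ _)
          congr 1
          ring
        simp only [Function.comp]
        linarith
      conv_rhs => rw [hG]
      rw [eval_mul, eval_pow, eval_sub, eval_X, eval_C, norm_mul, norm_pow, mul_comm]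
      exact mul_le_mul_of_nonneg_left h1 (by positivity)
  choose c hc0 hc using hroot
  set Q : ℝ := (R + ρ + 1) ^ k with hQ
  have hQ0 : 0 < Q := by positivity
  set SR : ℝ := S * R ^ A.natDegree with hSR
  have hSR0 : 0 < SR := by positivity
  refine ⟨C₁ + 1 + ∑ τ ∈ B.roots.toFinset, SR * Q / c τ, ?_, fun t M hM hBt hMt => ?_⟩
  · have : 0 ≤ ∑ τ ∈ B.roots.toFinset, SR * Q / c τ :=
      Finset.sum_nonneg fun τ _ => by
        have := hc0 τ
        positivity
    linarith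
  have hsum0 : 0 ≤ ∑ τ ∈ B.roots.toFinset, SR * Q / c τ :=
      Finset.sum_nonneg fun τ _ => by
        have := hc0 τ
        positivity
  rcases le_total R ‖t‖ with hRt | hRt
  · left
    obtain ⟨h1, h2⟩ := hinf t hRt
    have h3 : 0 < ‖B.eval t‖ := norm_pos_iff.2 h1
    have h4 : M * ‖B.eval t‖ ≤ C₁ * ‖t‖ * ‖B.eval t‖ := hMt.trans h2
    have h5 : M ≤ C₁ * ‖t‖ := le_of_mul_le_mul_right h4 h3
    have h6 : 0 ≤ ‖t‖ := norm_nonneg t
    nlinarith
  · right
    obtain ⟨τ, hτ, hmin⟩ := Finset.exists_min_image B.roots.toFinset (fun a => ‖t - a‖) hne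
    have hτr : τ ∈ B.roots := Multiset.mem_toFinset.1 hτ
    refine ⟨τ, (mem_roots hB).1 hτr, ?_⟩
    have h1 := hc τ t fun a ha => hmin a (Multiset.mem_toFinset.2 ha)
    have h2 := hS t R hR hRt
    have h3 : M * (c τ * ‖t - τ‖ ^ B.rootMultiplicity τ) ≤ SR :=
      (mul_le_mul_of_nonneg_left h1 (by linarith)).trans (hMt.trans h2)
    have h4 : ‖t - τ‖ ≤ R + ρ + 1 := by
      have := norm_sub_le t τ
      have := hρ τ hτr
      linarith
    have h5 : ‖t - τ‖ ^ k ≤ ‖t - τ‖ ^ B.rootMultiplicity τ * Q := by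
      have h6 : k = B.rootMultiplicity τ + (k - B.rootMultiplicity τ) := by
        have := hk τ
        omega
      calc ‖t - τ‖ ^ k = ‖t - τ‖ ^ B.rootMultiplicity τ *
            ‖t - τ‖ ^ (k - B.rootMultiplicity τ) := by
            rw [← pow_add, ← h6]
        _ ≤ ‖t - τ‖ ^ B.rootMultiplicity τ * Q := by
            refine mul_le_mul_of_nonneg_left ?_ (by positivity)
            refine (pow_le_pow_left₀ (norm_nonneg _) h4 _).trans ?_
            exact pow_le_pow_right₀ (by linarith) (Nat.sub_le _ _)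
    have h7 : M * ‖t - τ‖ ^ k ≤ SR * Q / c τ := by
      rw [le_div_iff₀ (hc0 τ)]
      calc M * ‖t - τ‖ ^ k * c τ ≤ M * (‖t - τ‖ ^ B.rootMultiplicity τ * Q) * c τ := by
            have := hc0 τ
            gcongr
        _ = M * (c τ * ‖t - τ‖ ^ B.rootMultiplicity τ) * Q := by ring
        _ ≤ SR * Q := mul_le_mul_of_nonneg_right h3 hQ0.le
    have h8 : SR * Q / c τ ≤ ∑ τ ∈ B.roots.toFinset, SR * Q / c τ :=
      Finset.single_le_sum (f := fun τ => SR * Q / c τ) (fun τ _ => by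
        have := hc0 τ
        positivity) hτ
    linarith

end Pool.Agent.K3h44.HP
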