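import Mathlib
import Pool.Agent.K3h44.HP.Near
import Pool.Agent.Y903.TR.Sep

/-!
The roots of the denominator of `x (m Q)` have multiplicity at most two.
-/

set_option autoImplicit false

namespace Pool.Agent.K3h44.HP

open Polynomial WeierstrassCurve Filter Topology
open Pool.Agent.Y674.TR (ND MULP DEG COP Rep E)
open Pool.Agent.Y903.TR (nons ev_map)

theorem rep_unique {K : Type} [Field K] {A B : ℤ} {P : (E K A B).Point} {a b a' b' : K}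
    (h : Rep P a b) (h' : Rep P a' b') (hb : b ≠ 0) : b' ≠ 0 ∧ a * b' = a' * b := by
  rcases h with ⟨_, _, h1⟩ | ⟨_, x, y, hn, hP, ha⟩
  · exact absurd h1 hb
  rcases h' with ⟨h1, _, _⟩ | ⟨hb', x', y', hn', hP', ha'⟩
  · rw [hP] at h1
    exact absurd h1 (by intro h; cases h)
  · rw [hP] at hP'
    injection hP' with hx hy
    subst hx
    exact ⟨hb', by rw [ha, ha']; ring⟩

theorem rep_zero {K : Type} [Field K] {A B : ℤ} {P : (E K A B).Point} {a : K}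
    (h : Rep P a 0) : P = 0 := by
  rcases h with ⟨h1, _, _⟩ | ⟨h1, _⟩
  · exact h1
  · exact absurd rfl h1

/-- translation by a torsion point -/
theorem transl (h1 : MULP) {m : ℕ} (hm : 1 ≤ m) {υ b τ s : ℂ} (hb : b ^ 2 = υ ^ 3 + 1)
    (hs : s ^ 2 = τ ^ 3 + 1) (hne : τ ≠ υ) (hυ : aeval υ (ND 0 1 m).2 = 0)
    (hτ : aeval τ (ND 0 1 m).2 ≠ 0) :
    ∃ u : ℂ, (u - υ) * (τ - υ) ^ 2 = 1 + b ^ 2 - 2 * b * s + 3 * υ ^ 2 * τ - 2 * υ ^ 3 ∧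
      aeval u (ND 0 1 m).2 ≠ 0 ∧
      aeval u (ND 0 1 m).1 * aeval τ (ND 0 1 m).2 =
        aeval τ (ND 0 1 m).1 * aeval u (ND 0 1 m).2 := by
  classical
  have hΔ : (4 * (0 : ℤ) ^ 3 + 27 * 1 ^ 2 : ℤ) ≠ 0 := by norm_num
  have hnT : (E ℂ 0 1).Nonsingular υ b := nons hΔ (by push_cast; linear_combination hb)
  have hnQ : (E ℂ 0 1).Nonsingular τ s := nons hΔ (by push_cast; linear_combination hs)
  have hT := h1 ℂ 0 1 hΔ υ b hnT m hm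
  have hQ := h1 ℂ 0 1 hΔ τ s hnQ m hm
  rw [hυ] at hT
  have hT0 := rep_zero hT
  have hadd := Affine.Point.add_of_X_ne (h₁ := hnQ) (h₂ := hnT) hne
  set u : ℂ := (E ℂ 0 1).addX τ υ ((E ℂ 0 1).slope τ υ s b) with hu
  have hR := h1 ℂ 0 1 hΔ _ _ (Affine.nonsingular_add hnQ hnT fun h => hne h.1) m hm
  rw [← hadd, nsmul_add, hT0, add_zero] at hR
  have h2 := rep_unique hQ hR hτ
  refine ⟨u, ?_, h2.1, ?_⟩
  · have hd : τ - υ ≠ 0 := sub_ne_zero.2 hne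
    rw [hu, Affine.slope_of_X_ne hne, Affine.addX]
    simp only [E]
    field_simp
    linear_combination hs
  · have := h2.2
    linear_combination -this

/-- the size of `u - υ` -/
theorem near_u {υ b τ s u : ℂ} {z K : ℝ} (hz1 : 1 ≤ z) (hzυ : 2 * ‖υ‖ < z)
    (hK : K = 1 + ‖b‖ ^ 2 + 4 * ‖b‖ + 3 * ‖υ‖ ^ 2 + 2 * ‖υ‖ ^ 3) (hτn : ‖τ‖ = z ^ 2)
    (hsn : ‖s‖ ≤ 2 * z ^ 3)
    (hu1 : (u - υ) * (τ - υ) ^ 2 = 1 + b ^ 2 - 2 * b * s + 3 * υ ^ 2 * τ - 2 * υ ^ 3) :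
    ‖u - υ‖ ≤ 4 * K / z := by
  have hz0 : 0 < z := by linarith
  have hzsq : z ≤ z ^ 2 := by nlinarith
  have hlow : z ^ 2 / 2 ≤ ‖τ - υ‖ := by
    have := norm_sub_norm_le τ υ
    rw [hτn] at this
    linarith
  have hup : ‖1 + b ^ 2 - 2 * b * s + 3 * υ ^ 2 * τ - 2 * υ ^ 3‖ ≤ K * z ^ 3 := by
    have hz2 : (1 : ℝ) ≤ z ^ 3 := one_le_pow₀ hz1
    have hz23 : z ^ 2 ≤ z ^ 3 := pow_le_pow_right₀ hz1 (by norm_num)
    have e1 : ‖b ^ 2‖ = ‖b‖ ^ 2 := norm_pow _ _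
    have e2 : ‖2 * b * s‖ ≤ 4 * ‖b‖ * z ^ 3 := by
      rw [norm_mul, norm_mul, Complex.norm_two]
      have := mul_le_mul_of_nonneg_left hsn (norm_nonneg b)
      linarith
    have e3 : ‖3 * υ ^ 2 * τ‖ = 3 * ‖υ‖ ^ 2 * z ^ 2 := by
      rw [norm_mul, norm_mul, norm_pow, hτn]
      simp
    have e4 : ‖2 * υ ^ 3‖ = 2 * ‖υ‖ ^ 3 := by
      rw [norm_mul, norm_pow, Complex.norm_two]
    have e0 : ‖(1 : ℂ)‖ = 1 := norm_one
    have t1 := norm_sub_le (1 + b ^ 2 - 2 * b * s + 3 * υ ^ 2 * τ) (2 * υ ^ 3)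
    have t2 := norm_add_le (1 + b ^ 2 - 2 * b * s) (3 * υ ^ 2 * τ)
    have t3 := norm_sub_le (1 + b ^ 2) (2 * b * s)
    have t4 := norm_add_le 1 (b ^ 2)
    have f1 : 1 + ‖b‖ ^ 2 ≤ (1 + ‖b‖ ^ 2) * z ^ 3 := le_mul_of_one_le_right (by positivity) hz2
    have f2 : 3 * ‖υ‖ ^ 2 * z ^ 2 ≤ 3 * ‖υ‖ ^ 2 * z ^ 3 :=
      mul_le_mul_of_nonneg_left hz23 (by positivity)
    have f3 : 2 * ‖υ‖ ^ 3 ≤ 2 * ‖υ‖ ^ 3 * z ^ 3 := le_mul_of_one_le_right (by positivity) hz2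
    rw [hK]
    linarith
  rw [le_div_iff₀ hz0]
  have h4 : ‖u - υ‖ * ‖τ - υ‖ ^ 2 ≤ K * z ^ 3 := by
    rw [← norm_pow, ← norm_mul, hu1]
    exact hup
  have h5 : (z ^ 2 / 2) ^ 2 ≤ ‖τ - υ‖ ^ 2 := pow_le_pow_left₀ (by positivity) hlow 2
  have h6 : ‖u - υ‖ * (z ^ 2 / 2) ^ 2 ≤ K * z ^ 3 :=
    (mul_le_mul_of_nonneg_left h5 (norm_nonneg _)).trans h4
  have h7 : ‖u - υ‖ * z * z ^ 3 ≤ 4 * K * z ^ 3 := by nlinarith
  exact le_of_mul_le_mul_right h7 (by positivity)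

theorem key {N D G : ℂ[X]} {υ b : ℂ} {e : ℕ} (he : 3 ≤ e) (hG : D = (X - C υ) ^ e * G)
    (hNυ : N.eval υ ≠ 0) {R C₀ : ℝ} (hR : 1 ≤ R) (hC₀ : 0 < C₀)
    (hinf : ∀ t : ℂ, R ≤ ‖t‖ → D.eval t ≠ 0 ∧ ‖N.eval t‖ ≤ C₀ * ‖t‖ * ‖D.eval t‖)
    (H : ∀ τ s : ℂ, s ^ 2 = τ ^ 3 + 1 → τ ≠ υ → D.eval τ ≠ 0 → ∃ u : ℂ,
      (u - υ) * (τ - υ) ^ 2 = 1 + b ^ 2 - 2 * b * s + 3 * υ ^ 2 * τ - 2 * υ ^ 3 ∧
      D.eval u ≠ 0 ∧ N.eval u * D.eval τ = N.eval τ * D.eval u) : False := by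
  -- near υ
  have hc1 : 0 < ‖N.eval υ‖ := norm_pos_iff.2 hNυ
  have hev1 : ∀ᶠ u in 𝓝 υ, ‖N.eval υ‖ / 2 < ‖N.eval u‖ :=
    (N.continuous.norm.tendsto υ).eventually (lt_mem_nhds (by linarith))
  have hev2 : ∀ᶠ u in 𝓝 υ, ‖G.eval u‖ < ‖G.eval υ‖ + 1 :=
    (G.continuous.norm.tendsto υ).eventually (gt_mem_nhds (by linarith))
  obtain ⟨δ, hδ, hδ2⟩ := Metric.eventually_nhds_iff.1 (hev1.and hev2)
  set K : ℝ := 1 + ‖b‖ ^ 2 + 4 * ‖b‖ + 3 * ‖υ‖ ^ 2 + 2 * ‖υ‖ ^ 3 with hK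
  have hK0 : 0 < K := by positivity
  set C₁ : ℝ := ‖G.eval υ‖ + 1 with hC₁
  have hC₁0 : 0 < C₁ := by positivity
  -- the real number z
  set z : ℝ := 1 + R + 2 * ‖υ‖ + 4 * K / δ + 4 * K + 2 * C₀ * C₁ * (4 * K) ^ 3 / ‖N.eval υ‖ with hz
  have hp1 : 0 < 4 * K / δ := by positivity
  have hp2 : 0 < 2 * C₀ * C₁ * (4 * K) ^ 3 / ‖N.eval υ‖ := by positivity
  have hυ0 := norm_nonneg υ
  have hz1 : 1 ≤ z := by rw [hz]; linarith
  have hz0 : 0 < z := by linarith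
  have hzR : R ≤ z := by rw [hz]; linarith
  have hzυ : 2 * ‖υ‖ < z := by rw [hz]; linarith
  have hzδ : 4 * K / δ < z := by rw [hz]; linarith
  have hzK : 4 * K < z := by rw [hz]; linarith
  have hzC : 2 * C₀ * C₁ * (4 * K) ^ 3 / ‖N.eval υ‖ < z := by rw [hz]; linarith
  clear_value z
  have hzsq : z ≤ z ^ 2 := by nlinarith
  set τ : ℂ := ((z ^ 2 : ℝ) : ℂ) with hτ
  have hτn : ‖τ‖ = z ^ 2 := by
    rw [hτ, Complex.norm_real, Real.norm_of_nonneg (by positivity)]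
  set s : ℂ := ((Real.sqrt (z ^ 6 + 1) : ℝ) : ℂ) with hs
  have hs2 : s ^ 2 = τ ^ 3 + 1 := by
    rw [hs, hτ]
    norm_cast
    rw [Real.sq_sqrt (by positivity)]
    ring
  have hsn : ‖s‖ ≤ 2 * z ^ 3 := by
    rw [hs, Complex.norm_real, Real.norm_of_nonneg (Real.sqrt_nonneg _)]
    rw [Real.sqrt_le_left (by positivity)]
    have h6 : 1 ≤ z ^ 6 := one_le_pow₀ hz1
    have h66 : (2 * z ^ 3) ^ 2 = 4 * z ^ 6 := by ring
    rw [h66]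
    linarith
  have hne : τ ≠ υ := by
    intro h
    rw [h] at hτn
    linarith
  have hτR : R ≤ ‖τ‖ := by rw [hτn]; linarith
  obtain ⟨hDτ, hNDτ⟩ := hinf τ hτR
  obtain ⟨u, hu1, hu2, hu3⟩ := H τ s hs2 hne hDτ
  have hnear : ‖u - υ‖ ≤ 4 * K / z := near_u hz1 hzυ hK hτn hsn hu1
  have hlt : ‖u - υ‖ < δ := by
    refine lt_of_le_of_lt hnear ?_
    rw [div_lt_iff₀ hz0]
    rw [div_lt_iff₀ hδ] at hzδ
    linarith
  have hle1 : ‖u - υ‖ ≤ 1 := by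
    refine hnear.trans ?_
    rw [div_le_one hz0]
    exact hzK.le
  obtain ⟨g1, g2⟩ := hδ2 (y := u) (by rw [dist_eq_norm]; exact hlt)
  have hDu : ‖D.eval u‖ ≤ (4 * K / z) ^ 3 * C₁ := by
    rw [hG, eval_mul, eval_pow, eval_sub, eval_X, eval_C, norm_mul, norm_pow]
    have h8 : ‖u - υ‖ ^ e ≤ (4 * K / z) ^ 3 :=
      (pow_le_pow_of_le_one (norm_nonneg _) hle1 he).trans
        (pow_le_pow_left₀ (norm_nonneg _) hnear 3)
    exact mul_le_mul h8 g2.le (norm_nonneg _) (by positivity)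
  have hDτpos : 0 < ‖D.eval τ‖ := norm_pos_iff.2 hDτ
  have hfin : ‖N.eval u‖ ≤ C₀ * z ^ 2 * ‖D.eval u‖ := by
    have h9 : ‖N.eval u‖ * ‖D.eval τ‖ ≤ C₀ * z ^ 2 * ‖D.eval u‖ * ‖D.eval τ‖ := by
      rw [← norm_mul, hu3, norm_mul]
      rw [hτn] at hNDτ
      calc ‖N.eval τ‖ * ‖D.eval u‖ ≤ C₀ * z ^ 2 * ‖D.eval τ‖ * ‖D.eval u‖ :=
            mul_le_mul_of_nonneg_right hNDτ (norm_nonneg _)
        _ = _ := by ring
    exact le_of_mul_le_mul_right h9 hDτpos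
  have h10 : ‖N.eval υ‖ / 2 < C₀ * C₁ * (4 * K) ^ 3 / z := by
    refine lt_of_lt_of_le g1 (hfin.trans ?_)
    calc C₀ * z ^ 2 * ‖D.eval u‖ ≤ C₀ * z ^ 2 * ((4 * K / z) ^ 3 * C₁) :=
          mul_le_mul_of_nonneg_left hDu (by positivity)
      _ = C₀ * C₁ * (4 * K) ^ 3 / z := by
          rw [div_pow]
          field_simp
  rw [div_lt_iff₀ hc1] at hzC
  rw [lt_div_iff₀ hz0] at h10
  linarith


theorem mult_le_two (h1 : MULP) (h2 : DEG) (h3 : COP) {m : ℕ} (hm : 1 ≤ m) (υ : ℂ) :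
    ((ND 0 1 m).2.map (Int.castRingHom ℂ)).rootMultiplicity υ ≤ 2 := by
  obtain ⟨⟨hmon, hdN, hdD, hlD⟩, -⟩ := h2 0 1 m hm
  have hΔ : (4 * (0 : ℤ) ^ 3 + 27 * 1 ^ 2 : ℤ) ≠ 0 := by norm_num
  have hm2 : 1 ≤ m ^ 2 := Nat.one_le_pow _ _ (by omega)
  have hcop : IsCoprime ((ND 0 1 m).1.map (Int.castRingHom ℂ))
      ((ND 0 1 m).2.map (Int.castRingHom ℂ)) := by
    have := (h3 0 1 hΔ m hm).map (mapRingHom (algebraMap ℚ ℂ))
    simp only [coe_mapRingHom, Polynomial.map_map] at this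
    rwa [show (algebraMap ℚ ℂ).comp (Int.castRingHom ℚ) = Int.castRingHom ℂ from
      RingHom.ext_int _ _] at this
  set N : ℂ[X] := (ND 0 1 m).1.map (Int.castRingHom ℂ) with hN
  set D : ℂ[X] := (ND 0 1 m).2.map (Int.castRingHom ℂ) with hD
  have hinj : Function.Injective (Int.castRingHom ℂ) := Int.cast_injective
  have hNd : N.natDegree = m ^ 2 := by rw [hN, natDegree_map_eq_of_injective hinj, hdN]
  have hDd : D.natDegree = m ^ 2 - 1 := by rw [hD, natDegree_map_eq_of_injective hinj, hdD]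
  have hD0 : D ≠ 0 := by
    intro h
    rw [hD, Polynomial.map_eq_zero_iff hinj] at h
    rw [h, leadingCoeff_zero] at hlD
    have : (0 : ℤ) < (m : ℤ) ^ 2 := by positivity
    omega
  by_contra hcon
  push Not at hcon
  obtain ⟨G, hG, -⟩ := exists_eq_pow_rootMultiplicity_mul_and_not_dvd D hD0 υ
  set e := D.rootMultiplicity υ with he
  have hDυ : D.eval υ = 0 := by
    have : D.IsRoot υ := (rootMultiplicity_pos hD0).1 (by omega)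
    exact this
  have hNυ : N.eval υ ≠ 0 := by
    intro h
    obtain ⟨a, c, hac⟩ := hcop
    have := congrArg (eval υ) hac
    rw [eval_add, eval_mul, eval_mul, h, hDυ] at this
    simp at this
  obtain ⟨R, C₀, hR, hC₀, hinf⟩ := growth (A := N) (B := D) hD0 (by omega)
  obtain ⟨b, hb'⟩ := IsAlgClosed.exists_eq_mul_self (υ ^ 3 + 1)
  have hb : b ^ 2 = υ ^ 3 + 1 := by rw [sq, ← hb']
  refine key (b := b) (N := N) (by omega : 3 ≤ e) hG hNυ hR hC₀ hinf ?_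
  intro τ s hs2 hne hDτ
  rw [hD, ev_map] at hDτ
  rw [hD, ev_map] at hDυ
  obtain ⟨u, hu1, hu2, hu3⟩ := transl h1 hm hb hs2 hne hDυ hDτ
  refine ⟨u, hu1, ?_, ?_⟩
  · rw [hD, ev_map]
    exact hu2
  · rw [hD, hN, ev_map, ev_map, ev_map, ev_map]
    exact hu3

end Pool.Agent.K3h44.HP
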