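import Mathlib
import Pool.Agent.Y674.TR.Stm2

/-!
Weighted homogeneity of the multiplication polynomials of `y ^ 2 = x ^ 3 + d`.
-/

set_option autoImplicit false

namespace Pool.Agent.K3h44.HP

open Polynomial
open Pool.Agent.Y674.TR (ND dblP addP ND_one ND_even ND_odd)

/-- weighted homogeneity of weight `e` (with `x` of weight `1` and `d` of weight `3`) -/
def Hom (e : ℕ) (p : ℤ → ℤ[X]) : Prop :=
  ∃ q : ℤ[X], ∀ (F : Type) [Field F] [CharZero F] (d : ℤ) (x : F), d ≠ 0 →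
    aeval x (p d) = x ^ (e % 3) * (d : F) ^ (e / 3) * aeval (x ^ 3 / (d : F)) q

theorem Hom.cast {e e' : ℕ} {p : ℤ → ℤ[X]} (h : Hom e p) (he : e = e') : Hom e' p := he ▸ h

theorem Hom.congr {e : ℕ} {p p' : ℤ → ℤ[X]} (h : Hom e p) (he : ∀ d, p d = p' d) : Hom e p' :=
  (funext he : p = p') ▸ h

theorem Hom.add {e : ℕ} {p p' : ℤ → ℤ[X]} (h : Hom e p) (h' : Hom e p') :
    Hom e (fun d => p d + p' d) := by
  obtain ⟨q, hq⟩ := h
  obtain ⟨q', hq'⟩ := h'
  refine ⟨q + q', fun F _ _ d x hd => ?_⟩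
  rw [map_add, map_add, hq F d x hd, hq' F d x hd]
  ring

theorem Hom.sub {e : ℕ} {p p' : ℤ → ℤ[X]} (h : Hom e p) (h' : Hom e p') :
    Hom e (fun d => p d - p' d) := by
  obtain ⟨q, hq⟩ := h
  obtain ⟨q', hq'⟩ := h'
  refine ⟨q - q', fun F _ _ d x hd => ?_⟩
  rw [map_sub, map_sub, hq F d x hd, hq' F d x hd]
  ring

theorem Hom.mul {e e' : ℕ} {p p' : ℤ → ℤ[X]} (h : Hom e p) (h' : Hom e' p') :
    Hom (e + e') (fun d => p d * p' d) := by
  obtain ⟨q, hq⟩ := h
  obtain ⟨q', hq'⟩ := h'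
  refine ⟨X ^ ((e % 3 + e' % 3) / 3) * (q * q'), fun F _ _ d x hd => ?_⟩
  have hdF : (d : F) ≠ 0 := Int.cast_ne_zero.2 hd
  rw [map_mul, hq F d x hd, hq' F d x hd]
  simp only [map_mul, map_pow, aeval_X]
  have h1 : x ^ (e % 3) * x ^ (e' % 3) =
      x ^ ((e + e') % 3) * (x ^ 3) ^ ((e % 3 + e' % 3) / 3) := by
    rw [← pow_add, ← pow_mul, ← pow_add]
    congr 1
    omega
  have h2 : (d : F) ^ ((e + e') / 3) =
      (d : F) ^ (e / 3) * (d : F) ^ (e' / 3) * (d : F) ^ ((e % 3 + e' % 3) / 3) := by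
    rw [← pow_add, ← pow_add]
    congr 1
    omega
  have h3 : x ^ 3 = (x ^ 3 / (d : F)) * (d : F) := by field_simp
  have h4 : (x ^ 3) ^ ((e % 3 + e' % 3) / 3) = (x ^ 3 / (d : F)) ^ ((e % 3 + e' % 3) / 3) *
      (d : F) ^ ((e % 3 + e' % 3) / 3) := by
    rw [← mul_pow, ← h3]
  rw [h4] at h1
  rw [h2]
  generalize (x ^ 3 / (d : F)) ^ ((e % 3 + e' % 3) / 3) = u at *
  generalize (d : F) ^ ((e % 3 + e' % 3) / 3) = v at *
  generalize (aeval (x ^ 3 / (d : F))) q = q1 at *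
  generalize (aeval (x ^ 3 / (d : F))) q' = q2 at *
  linear_combination ((d : F) ^ (e / 3) * (d : F) ^ (e' / 3) * q1 * q2) * h1

theorem Hom.pow {e : ℕ} {p : ℤ → ℤ[X]} (h : Hom e p) (k : ℕ) : Hom (k * e) (fun d => p d ^ k) := by
  induction k with
  | zero => exact ⟨1, fun F _ _ d x hd => by simp⟩
  | succ k ih => exact ((ih.mul h).cast (by ring)).congr fun d => (pow_succ _ _).symm

theorem Hom.const (c : ℤ) : Hom 0 (fun _ => C c) := ⟨C c, fun F _ _ d x hd => by simp⟩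

theorem Hom.cd (c : ℤ) : Hom 3 (fun d => C (c * d)) :=
  ⟨C c, fun F _ _ d x hd => by simp; ring⟩

theorem Hom.zero (e : ℕ) : Hom e (fun _ => 0) := ⟨0, fun F _ _ d x hd => by simp⟩

theorem Hom.X : Hom 1 (fun _ => X) := ⟨1, fun F _ _ d x hd => by simp⟩

theorem hom_ND : ∀ n : ℕ, 1 ≤ n → Hom (n ^ 2) (fun d => (ND 0 d n).1) ∧
    Hom (n ^ 2 - 1) (fun d => (ND 0 d n).2) := by
  intro n
  induction n using Nat.strong_induction_on with
  | _ n ih =>
  intro hn
  rcases Nat.even_or_odd' n with ⟨k, rfl | rfl⟩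
  · have hk : 1 ≤ k := by omega
    obtain ⟨h1, h2⟩ := ih k (by omega) hk
    have hk2 : 1 ≤ k ^ 2 := Nat.one_le_pow _ _ (by omega)
    have e1 : (2 * k) ^ 2 = 4 * k ^ 2 := by ring
    constructor
    · refine Hom.congr (p := fun d => (ND 0 d k).1 ^ 4 -
        C (8 * d) * ((ND 0 d k).1 * (ND 0 d k).2 ^ 3)) ?_ ?_
      · refine ((h1.pow 4).cast (by omega)).sub (((Hom.cd 8).mul (h1.mul (h2.pow 3))).cast ?_)
        omega
      · intro d
        rw [ND_even 0 d k hk, dblP]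
        simp
        ring
    · refine Hom.congr (p := fun d => C 4 * ((ND 0 d k).2 * ((ND 0 d k).1 ^ 3 +
        C (1 * d) * (ND 0 d k).2 ^ 3))) ?_ ?_
      · refine ((Hom.const 4).mul (h2.mul ((h1.pow 3).add
          (((Hom.cd 1).mul (h2.pow 3)).cast ?_)))).cast ?_ <;> omega
      · intro d
        rw [ND_even 0 d k hk, dblP]
        simp
        ring
  · rcases Nat.eq_zero_or_pos k with rfl | hk
    · constructor
      · refine (Hom.X.cast (by norm_num)).congr fun d => ?_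
        rw [show 2 * 0 + 1 = 1 by norm_num, ND_one]
      · refine ((Hom.const 1).cast (by norm_num)).congr fun d => ?_
        rw [show 2 * 0 + 1 = 1 by norm_num, ND_one]
        simp
    · obtain ⟨h1, h2⟩ := ih k (by omega) hk
      obtain ⟨g1, g2⟩ := ih (k + 1) (by omega) (by omega)
      have hk2 : 1 ≤ k ^ 2 := Nat.one_le_pow _ _ (by omega)
      have e1 : (2 * k + 1) ^ 2 = 4 * k ^ 2 + 4 * k + 1 := by ring
      have e2 : (k + 1) ^ 2 = k ^ 2 + 2 * k + 1 := by ring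
      have a1 := h1.mul g2
      have a2 := g1.mul h2
      have a3 := a1.cast (show _ = 2 * k ^ 2 + 2 * k by omega)
      have a4 := a2.cast (show _ = 2 * k ^ 2 + 2 * k by omega)
      have a5 := (a3.sub a4).pow 2
      have b1 := (a3.add a4).mul (h1.mul g1)
      have b2 := (Hom.cd 2).mul ((h2.pow 2).mul (g2.pow 2))
      constructor
      · refine Hom.congr (p := fun d =>
          C 2 * (((ND 0 d k).1 * (ND 0 d (k + 1)).2 + (ND 0 d (k + 1)).1 * (ND 0 d k).2) *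
            ((ND 0 d k).1 * (ND 0 d (k + 1)).1) +
            C (2 * d) * ((ND 0 d k).2 ^ 2 * (ND 0 d (k + 1)).2 ^ 2)) -
          X * ((ND 0 d k).1 * (ND 0 d (k + 1)).2 - (ND 0 d (k + 1)).1 * (ND 0 d k).2) ^ 2) ?_ ?_
        · exact (((Hom.const 2).mul ((b1.cast (show _ = 4 * k ^ 2 + 4 * k + 1 by omega)).add
            (b2.cast (show _ = 4 * k ^ 2 + 4 * k + 1 by omega)))).cast (by omega)).sub
            ((Hom.X.mul a5).cast (by omega))
        · intro d
          rw [ND_odd 0 d k hk, addP]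
          simp
      · refine (a5.cast (by omega)).congr fun d => ?_
        rw [ND_odd 0 d k hk, addP]

end Pool.Agent.K3h44.HP
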