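import Mathlib
import Pool.Agent.K3h44.HP.Poly
import Pool.Agent.K3h44.HP.Mult
import Pool.Agent.Y170.TR.Mulp
import Pool.Agent.Y891.TR.Dbl
import Pool.Agent.Y401.TR.Add
import Pool.Agent.Y431.TR.Deg
import Pool.Agent.Y409.TR.Cop

/-!
The multiplication map of `y ^ 2 = x ^ 3 + d` in the coordinate `x ^ 3 / d`.
-/

set_option autoImplicit false

namespace Pool.Agent.K3h44.HP

open Polynomial
open Pool.Agent.Y674.TR (ND MULP DEG COP Rep E)
open Pool.Agent.Y903.TR (nons ev_map)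

theorem hMULP : MULP := Pool.Agent.Y170.TR.mulp Pool.Agent.Y891.TR.dbl Pool.Agent.Y401.TR.add

theorem hDEG : DEG := Pool.Agent.Y431.TR.deg

theorem hCOP : COP := Pool.Agent.Y409.TR.cop hMULP

theorem hom_cube {e : ℕ} {p : ℤ → ℤ[X]} (h : Hom e p) : ∃ A : ℤ[X],
    (∀ (F : Type) [Field F] [CharZero F] (d : ℤ) (x : F), d ≠ 0 →
      (aeval x (p d)) ^ 3 = (d : F) ^ e * aeval (x ^ 3 / (d : F)) A) ∧
    A.comp (X ^ 3) = (p 1) ^ 3 := by
  obtain ⟨q, hq⟩ := h
  have h1 : ∀ (F : Type) [Field F] [CharZero F] (d : ℤ) (x : F), d ≠ 0 →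
      (aeval x (p d)) ^ 3 = (d : F) ^ e * aeval (x ^ 3 / (d : F)) (X ^ (e % 3) * q ^ 3) := by
    intro F _ _ d x hd
    have hdF : (d : F) ≠ 0 := Int.cast_ne_zero.2 hd
    rw [hq F d x hd]
    simp only [map_mul, map_pow, aeval_X]
    have h3 : x ^ 3 = (x ^ 3 / (d : F)) * (d : F) := by field_simp
    have h4 : (x ^ (e % 3)) ^ 3 = (x ^ 3 / (d : F)) ^ (e % 3) * (d : F) ^ (e % 3) := by
      rw [← mul_pow, ← h3]
      ring
    have h5 : (d : F) ^ e = (d : F) ^ (e % 3) * ((d : F) ^ (e / 3)) ^ 3 := by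
      rw [← pow_mul, ← pow_add]
      congr 1
      omega
    rw [mul_pow, mul_pow, h4, h5]
    ring
  refine ⟨X ^ (e % 3) * q ^ 3, h1, ?_⟩
  refine Polynomial.funext fun r => ?_
  have h2 := h1 ℚ 1 (r : ℚ) one_ne_zero
  rw [Int.cast_one, one_pow, one_mul, div_one] at h2
  have h3 : ∀ P : ℤ[X], ∀ s : ℤ, aeval (s : ℚ) P = ((P.eval s : ℤ) : ℚ) := by
    intro P s
    have := aeval_algebraMap_apply ℚ s P
    simpa using this
  have h4 : ((r : ℚ)) ^ 3 = ((r ^ 3 : ℤ) : ℚ) := by push_cast; rfl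
  rw [h4, h3, h3] at h2
  rw [eval_comp, eval_pow, eval_pow, eval_X]
  exact_mod_cast h2.symm

theorem exists_AB (m : ℕ) (hm : 1 ≤ m) : ∃ A B : ℤ[X], A.Monic ∧ A.natDegree = m ^ 2 ∧
    B.natDegree = m ^ 2 - 1 ∧ B ≠ 0 ∧
    IsCoprime (A.map (Int.castRingHom ℚ)) (B.map (Int.castRingHom ℚ)) ∧
    (∀ τ : ℂ, (B.map (Int.castRingHom ℂ)).rootMultiplicity τ ≤ 6) ∧
    ∀ (F : Type) [Field F] [CharZero F] (d : ℤ) (x : F), d ≠ 0 →
      (aeval x (ND 0 d m).1) ^ 3 = (d : F) ^ (m ^ 2) * aeval (x ^ 3 / (d : F)) A ∧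
      (aeval x (ND 0 d m).2) ^ 3 * (d : F) = (d : F) ^ (m ^ 2) * aeval (x ^ 3 / (d : F)) B := by
  obtain ⟨hN, hD⟩ := hom_ND m hm
  obtain ⟨A, hA, hA3⟩ := hom_cube hN
  obtain ⟨B, hB, hB3⟩ := hom_cube hD
  have hm2 : 1 ≤ m ^ 2 := Nat.one_le_pow _ _ (by omega)
  obtain ⟨⟨hmon, hdN, hdD, hlD⟩, -⟩ := hDEG 0 1 m hm
  have hΔ : (4 * (0 : ℤ) ^ 3 + 27 * 1 ^ 2 : ℤ) ≠ 0 := by norm_num
  have hD0 : (ND 0 1 m).2 ≠ 0 := by
    intro h
    rw [h, leadingCoeff_zero] at hlD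
    have : (0 : ℤ) < (m : ℤ) ^ 2 := by positivity
    omega
  have hB0 : B ≠ 0 := by
    rintro rfl
    rw [zero_comp] at hB3
    exact hD0 (pow_eq_zero_iff (three_ne_zero) |>.1 hB3.symm)
  have hinj : Function.Injective (Int.castRingHom ℂ) := Int.cast_injective
  have hB0' : B.map (Int.castRingHom ℂ) ≠ 0 := (Polynomial.map_ne_zero_iff hinj).2 hB0
  have hD0' : (ND 0 1 m).2.map (Int.castRingHom ℂ) ≠ 0 := (Polynomial.map_ne_zero_iff hinj).2 hD0
  refine ⟨A, B, ?_, ?_, ?_, hB0, ?_, ?_, ?_⟩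
  · have h1 := congrArg leadingCoeff hA3
    rw [leadingCoeff_comp (by simp), (hmon.pow 3).leadingCoeff, leadingCoeff_X_pow, one_pow,
      mul_one] at h1
    exact h1
  · have h1 := congrArg natDegree hA3
    rw [natDegree_comp, natDegree_X_pow, natDegree_pow, hdN] at h1
    omega
  · have h1 := congrArg natDegree hB3
    rw [natDegree_comp, natDegree_X_pow, natDegree_pow, hdD] at h1
    omega
  · rw [isCoprime_iff_aeval_ne_zero_of_isAlgClosed ℚ ℂ]
    intro a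
    by_contra hcon
    push Not at hcon
    obtain ⟨h1, h2⟩ := hcon
    have hev : ∀ P : ℤ[X], aeval a (P.map (Int.castRingHom ℚ)) = aeval a P := fun P => by
      have := aeval_map_algebraMap ℚ a P
      exact this
    rw [hev] at h1 h2
    obtain ⟨x, hx⟩ := IsAlgClosed.exists_pow_nat_eq a (n := 3) (by norm_num)
    have h3 := hA ℂ 1 x one_ne_zero
    have h4 := hB ℂ 1 x one_ne_zero
    rw [Int.cast_one, div_one, hx, h1, mul_zero] at h3
    rw [Int.cast_one, div_one, hx, h2, mul_zero] at h4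
    have h5 := pow_eq_zero_iff (three_ne_zero) |>.1 h3
    have h6 := pow_eq_zero_iff (three_ne_zero) |>.1 h4
    have h7 := (isCoprime_iff_aeval_ne_zero_of_isAlgClosed ℚ ℂ _ _).1 (hCOP 0 1 hΔ m hm) x
    have hevx : ∀ P : ℤ[X], aeval x (P.map (Int.castRingHom ℚ)) = aeval x P := fun P => by
      have := aeval_map_algebraMap ℚ x P
      exact this
    rw [hevx, hevx] at h7
    rcases h7 with h7 | h7
    · exact h7 h5
    · exact h7 h6
  · intro τ
    obtain ⟨υ, hυ⟩ := IsAlgClosed.exists_pow_nat_eq τ (n := 3) (by norm_num)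
    set k := (B.map (Int.castRingHom ℂ)).rootMultiplicity τ with hk
    have h1 : (X - C τ) ^ k ∣ B.map (Int.castRingHom ℂ) := pow_rootMultiplicity_dvd _ _
    have h2 : ((X - C τ) ^ k).comp (X ^ 3) ∣ (B.map (Int.castRingHom ℂ)).comp (X ^ 3) := by
      obtain ⟨G, hG⟩ := h1
      exact ⟨G.comp (X ^ 3), by rw [hG, mul_comp]⟩
    have h3 : (B.map (Int.castRingHom ℂ)).comp (X ^ 3) =
        ((ND 0 1 m).2.map (Int.castRingHom ℂ)) ^ 3 := by
      have := congrArg (Polynomial.map (Int.castRingHom ℂ)) hB3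
      rw [Polynomial.map_comp, Polynomial.map_pow, Polynomial.map_pow, map_X] at this
      exact this
    have h4 : (X - C υ) ^ k ∣ ((ND 0 1 m).2.map (Int.castRingHom ℂ)) ^ 3 := by
      rw [← h3]
      refine dvd_trans ?_ h2
      rw [pow_comp, sub_comp, X_comp, C_comp]
      refine pow_dvd_pow_of_dvd ?_ k
      rw [dvd_iff_isRoot, IsRoot.def, eval_sub, eval_pow, eval_X, eval_C, hυ, sub_self]
    have h5 := (le_rootMultiplicity_iff (pow_ne_zero 3 hD0')).2 h4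
    have h6 : (((ND 0 1 m).2.map (Int.castRingHom ℂ)) ^ 3).rootMultiplicity υ =
        3 * ((ND 0 1 m).2.map (Int.castRingHom ℂ)).rootMultiplicity υ := by
      rw [← count_roots, roots_pow, Multiset.count_nsmul, count_roots]
    have h7 := mult_le_two hMULP hDEG hCOP hm υ
    omega
  · intro F _ _ d x hd
    refine ⟨hA F d x hd, ?_⟩
    rw [hB F d x hd]
    have : (d : F) ^ (m ^ 2) = (d : F) ^ (m ^ 2 - 1) * d := by
      rw [← pow_succ]
      congr 1
      omega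
    rw [this]
    ring

end Pool.Agent.K3h44.HP
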