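import Mathlib

/-!
A Galois number field over a number field splitting a polynomial.
-/

set_option autoImplicit false

namespace Pool.Agent.K3h44.HP

open Polynomial NumberField

theorem exists_galL (F : Type) [Field F] [NumberField F] (B : ℚ[X]) (hB : B ≠ 0) :
    ∃ (L : Type) (_ : Field L) (_ : NumberField L) (_ : IsGalois ℚ L) (_ : Algebra F L),
      (∃ z : L, z ^ 2 = -1) ∧ (B.map (algebraMap ℚ L)).Splits := by
  obtain ⟨θ, hθ⟩ := Field.exists_primitive_element ℚ F
  have hθi : IsIntegral ℚ θ := IsIntegral.of_finite ℚ θ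
  set p : ℚ[X] := minpoly ℚ θ * (X ^ 2 + 1) * B with hp
  have hp1 : minpoly ℚ θ ≠ 0 := minpoly.ne_zero hθi
  have hp2 : (X ^ 2 + 1 : ℚ[X]) ≠ 0 := by
    intro h
    have := congrArg (fun q => Polynomial.eval 0 q) h
    simp at this
  have hp0 : p ≠ 0 := mul_ne_zero (mul_ne_zero hp1 hp2) hB
  set K : IntermediateField ℚ ℂ := IntermediateField.adjoin ℚ (p.rootSet ℂ) with hK
  have hsf : p.IsSplittingField ℚ K :=
    IntermediateField.adjoin_rootSet_isSplittingField (IsAlgClosed.splits _)
  have hfin : FiniteDimensional ℚ K := Polynomial.IsSplittingField.finiteDimensional K p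
  have hnorm : Normal ℚ K := Normal.of_isSplittingField p
  have hgal : IsGalois ℚ K := ⟨⟩
  have hmem : ∀ z : ℂ, aeval z p = 0 → z ∈ K := by
    intro z hz
    apply IntermediateField.subset_adjoin
    rw [Polynomial.mem_rootSet]
    exact ⟨hp0, hz⟩
  have hI : Complex.I ∈ K := by
    apply hmem
    rw [hp, map_mul, map_mul]
    simp
  have hρ : ∀ (ρ : F →+* ℂ) (a : F), ρ a ∈ K := by
    intro ρ a
    let ρ' : F →ₐ[ℚ] ℂ := ρ.toRatAlgHom
    have h1 : ρ θ ∈ K := by
      apply hmem
      rw [hp, map_mul, map_mul]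
      have h2 : aeval (ρ' θ) (minpoly ℚ θ) = 0 := by
        rw [Polynomial.aeval_algHom_apply, minpoly.aeval, map_zero]
      have h3 : aeval (ρ θ) (minpoly ℚ θ) = 0 := h2
      rw [h3, zero_mul, zero_mul]
    have h4 : a ∈ IntermediateField.comap ρ' K := by
      have h5 : IntermediateField.adjoin ℚ {θ} ≤ IntermediateField.comap ρ' K := by
        rw [IntermediateField.adjoin_simple_le_iff]
        exact h1
      rw [hθ] at h5
      exact h5 trivial
    exact h4
  have hnf : NumberField K := ⟨⟩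
  obtain ⟨ρ⟩ : Nonempty (F →+* ℂ) := inferInstance
  let j : F →+* K := ρ.codRestrict K.toSubring (hρ ρ)
  refine ⟨K, inferInstance, hnf, hgal, j.toAlgebra, ⟨⟨Complex.I, hI⟩, ?_⟩, ?_⟩
  · apply Subtype.ext
    show Complex.I ^ 2 = -1
    exact Complex.I_sq
  · have h1 : (p.map (algebraMap ℚ K)).Splits := IsSplittingField.splits K p
    refine h1.of_dvd (Polynomial.map_ne_zero hp0) ?_
    exact Polynomial.map_dvd _ (Dvd.intro_left _ rfl)

end Pool.Agent.K3h44.HP
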