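import Mathlib
import Pool.Agent.R405.SchP
import Pool.Agent.K3h44.HP.Gal

/-!
Roth's theorem at all archimedean places.
-/

set_option autoImplicit false

namespace Pool.Agent.K3h44.HP

open Polynomial NumberField Height Module
open Pool.Agent.W180.OP (Pl av wt nrm le_nrm nrm_pos nrm_nonneg)
open Pool.Agent.R405 (Good exists_good sch)

/-- two linear forms at a place: close to a finite target, or to infinity -/
def frm {L : Type} [Field L] : Option L → Fin 2 → Fin 2 → L
  | none => !![0, 1; 1, 0]
  | some a => !![1, -a; 0, 1]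

theorem frm_det {L : Type} [Field L] (o : Option L) : (Matrix.of (frm o)).det ≠ 0 := by
  cases o with
  | none =>
    rw [Matrix.det_fin_two]
    change (0 : L) * 0 - 1 * 1 ≠ 0
    simp
  | some a =>
    rw [Matrix.det_fin_two]
    change (1 : L) * 1 - -a * 0 ≠ 0
    simp

theorem roth_arch (K : Type) [Field K] [NumberField K] (B : ℤ[X]) (hB : B ≠ 0) (k : ℕ)
    (hk : 1 ≤ k) (C₀ : ℝ) (hC₀ : 1 ≤ C₀) (ε : ℝ) (hε : 0 < ε) :
    ∃ (T : Set K) (C : ℝ), T.Finite ∧ ∀ t : K, t ∉ T → aeval t B ≠ 0 → ∀ M : ℝ, 1 ≤ M →
      (∀ φ : K →+* ℂ, M ≤ C₀ * ‖φ t‖ ∨ ∃ τ : ℂ, aeval τ B = 0 ∧ M * ‖φ t - τ‖ ^ k ≤ C₀) →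
      finrank ℚ K * ((1 / k) * Real.log M) ≤ (2 + ε) * logHeight ![t, 1] + C := by
  classical
  have hBQ : B.map (Int.castRingHom ℚ) ≠ 0 :=
    (Polynomial.map_ne_zero_iff (Int.cast_injective (α := ℚ))).2 hB
  obtain ⟨L, _, _, _, _, hi, hspl⟩ := exists_galL K _ hBQ
  have hBL : B.map (Int.castRingHom L) ≠ 0 :=
    (Polynomial.map_ne_zero_iff (Int.cast_injective (α := L))).2 hB
  have hspl' : (B.map (Int.castRingHom L)).Splits := by
    rw [Polynomial.map_map] at hspl
    rwa [show (algebraMap ℚ L).comp (Int.castRingHom ℚ) = Int.castRingHom L from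
      RingHom.ext_int _ _] at hspl
  -- the absolute values of L
  choose f hf using fun v : Pl K => exists_good (K := L) v
  have hf' : ∀ v : InfinitePlace K, ∃ ψ : L →+* ℂ, (∀ y, f (Sum.inl v) y = ‖ψ y‖) ∧
      ∀ x : K, ‖ψ (algebraMap K L x)‖ = v x := by
    intro v
    obtain ⟨w, hw, hfw⟩ := hf (Sum.inl v)
    refine ⟨w.embedding, fun y => ?_, fun x => ?_⟩
    · rw [hfw, InfinitePlace.norm_embedding_eq]
    · rw [InfinitePlace.norm_embedding_eq, ← hw]
      rfl
  choose ψ hψ1 hψ2 using hf'
  -- complex roots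
  have hroot : ∀ (ψ : L →+* ℂ) (τ : ℂ), aeval τ B = 0 →
      ∃ a ∈ (B.map (Int.castRingHom L)).roots.toFinset, ψ a = τ := by
    intro ψ τ hτ
    have h1 : ((B.map (Int.castRingHom L)).map ψ).eval τ = 0 := by
      rw [Polynomial.map_map, show ψ.comp (Int.castRingHom L) = Int.castRingHom ℂ from
        RingHom.ext_int _ _, eval_map]
      exact hτ
    rw [hspl'.eq_prod_roots, Polynomial.map_mul, map_C, eval_mul, eval_C, mul_eq_zero] at h1
    rcases h1 with h1 | h1
    · rw [map_eq_zero] at h1
      exact absurd (leadingCoeff_eq_zero.1 h1) hBL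
    · rw [Polynomial.map_multiset_prod, eval_multiset_prod, Multiset.map_map, Multiset.map_map,
        Multiset.prod_eq_zero_iff, Multiset.mem_map] at h1
      obtain ⟨a, ha, h2⟩ := h1
      refine ⟨a, Multiset.mem_toFinset.2 ha, ?_⟩
      simp only [Function.comp, Polynomial.map_sub, map_X, map_C, eval_sub, eval_X, eval_C] at h2
      exact (sub_eq_zero.1 h2).symm
  set R : Finset L := (B.map (Int.castRingHom L)).roots.toFinset with hR
  set S : Finset (Pl K) := Finset.univ.map ⟨Sum.inl, Sum.inl_injective⟩ with hS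
  -- the choices
  have hchoice : ∀ g : InfinitePlace K → Option R, ∃ (Z : Finset (Fin 2 → L)) (C : ℝ),
      (∀ d ∈ Z, d ≠ 0) ∧ ∀ x : Fin 2 → K, (∀ d ∈ Z, ∑ j, d j * algebraMap K L (x j) ≠ 0) →
      ∑ v : InfinitePlace K, (v.mult : ℝ) * ∑ a, (Real.log (nrm (av (Sum.inl v)) x) -
      Real.log (f (Sum.inl v) (∑ j, frm ((g v).map Subtype.val) a j * algebraMap K L (x j)))) ≤
        (2 + ε) * logHeight x + C := by
    intro g
    obtain ⟨Z, C, hZ, h⟩ := sch (k := K) (K := L) hi (n := 2) (by norm_num) S f
      (fun v _ => hf v)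
      (fun v => match v with
        | Sum.inl v => frm ((g v).map Subtype.val)
        | Sum.inr _ => frm none)
      (by
        rintro (v | v) _
        · exact frm_det _
        · exact frm_det _) ε hε
    refine ⟨Z, C, hZ, fun x hx => ?_⟩
    have := h x hx
    rw [hS, Finset.sum_map] at this
    exact this
  choose Z C hZ hroth using hchoice
  refine ⟨⋃ g : InfinitePlace K → Option R, ⋃ d ∈ Z g,
    {t : K | d 0 * algebraMap K L t + d 1 = 0},
    (∑ g, |C g|) + finrank ℚ K * Real.log C₀, ?_, ?_⟩
  · refine Set.finite_iUnion fun g => Set.Finite.biUnion (Finset.finite_toSet (Z g)) fun d hd => ?_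
    refine Set.Subsingleton.finite fun t ht t' ht' => ?_
    simp only [Set.mem_ofPred_eq] at ht ht'
    by_cases h0 : d 0 = 0
    · exfalso
      apply hZ g d hd
      rw [h0, zero_mul, zero_add] at ht
      funext j
      fin_cases j
      · exact h0
      · exact ht
    · have h1 : d 0 * algebraMap K L t = d 0 * algebraMap K L t' := by
        linear_combination ht - ht'
      exact (algebraMap K L).injective (mul_left_cancel₀ h0 h1)
  · intro t ht hBt M hM hφ
    have hlC : 0 ≤ Real.log C₀ := Real.log_nonneg hC₀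
    have hlM : 0 ≤ Real.log M := Real.log_nonneg hM
    have hk0 : (0 : ℝ) < k := by exact_mod_cast hk
    have hk1 : (1 / k : ℝ) ≤ 1 := by
      rw [div_le_one hk0]
      exact_mod_cast hk
    have hk00 : (0 : ℝ) < 1 / k := by positivity
    have hC₀' : 0 < C₀ := by linarith
    have hM' : 0 < M := by linarith
    -- choose the targets
    have hsel : ∀ v : InfinitePlace K, ∃ o : Option R,
        (1 / k) * Real.log M - Real.log C₀ ≤ ∑ a, (Real.log (nrm (av (Sum.inl v)) ![t, 1]) -
        Real.log (f (Sum.inl v) (∑ j, frm (o.map Subtype.val) a j *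
          algebraMap K L (![t, 1] j)))) := by
      intro v
      have hn1 : 1 ≤ nrm (av (Sum.inl v)) ![t, 1] := by
        have := le_nrm (av (Sum.inl v)) ![t, 1] 1
        simpa using this
      have hnt : v t ≤ nrm (av (Sum.inl v)) ![t, 1] := le_nrm (av (Sum.inl v)) ![t, 1] 0
      have hln : 0 ≤ Real.log (nrm (av (Sum.inl v)) ![t, 1]) := Real.log_nonneg hn1
      rcases hφ ((ψ v).comp (algebraMap K L)) with h1 | ⟨τ, hτ, h1⟩
      · refine ⟨none, ?_⟩
        rw [RingHom.comp_apply, hψ2] at h1
        have hvt : 0 < v t := by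
          by_contra hcon
          push Not at hcon
          have : C₀ * v t ≤ 0 := mul_nonpos_of_nonneg_of_nonpos hC₀'.le hcon
          linarith
        have h2 : Real.log M ≤ Real.log C₀ + Real.log (v t) := by
          rw [← Real.log_mul hC₀'.ne' hvt.ne']
          exact Real.log_le_log hM' h1
        have h3 : Real.log (v t) ≤ Real.log (nrm (av (Sum.inl v)) ![t, 1]) :=
          Real.log_le_log hvt hnt
        have h4 : f (Sum.inl v) (algebraMap K L t) = v t := by rw [hψ1, hψ2]
        rw [Fin.sum_univ_two]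
        simp only [frm, Option.map_none, Fin.sum_univ_two, Matrix.of_apply, Matrix.cons_val_zero,
          Matrix.cons_val_one, Matrix.cons_val_fin_one, map_one, mul_one, zero_mul, zero_add,
          add_zero, one_mul, Real.log_one, h4]
        have h5 : (1 / k) * Real.log M ≤ Real.log M := mul_le_of_le_one_left hlM hk1
        linarith
      · obtain ⟨a, ha, hτa⟩ := hroot (ψ v) τ hτ
        refine ⟨some ⟨a, ha⟩, ?_⟩
        rw [RingHom.comp_apply, ← hτa, ← map_sub, ← hψ1] at h1
        have hne : algebraMap K L t - a ≠ 0 := by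
          intro h
          apply hBt
          rw [sub_eq_zero] at h
          have ha' := Multiset.mem_toFinset.1 ha
          rw [mem_roots hBL, IsRoot.def, eval_map] at ha'
          apply (algebraMap K L).injective
          rw [map_zero, ← aeval_algebraMap_apply, h]
          exact ha'
        have hpos : 0 < f (Sum.inl v) (algebraMap K L t - a) := AbsoluteValue.pos _ hne
        have h2 : Real.log M + k * Real.log (f (Sum.inl v) (algebraMap K L t - a)) ≤
            Real.log C₀ := by
          rw [← Real.log_pow, ← Real.log_mul hM'.ne' (by positivity)]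
          exact Real.log_le_log (by positivity) h1
        have h3 : (1 / k) * Real.log M + Real.log (f (Sum.inl v) (algebraMap K L t - a)) ≤
            Real.log C₀ := by
          have h4 : (1 / k) * (Real.log M + k * Real.log (f (Sum.inl v) (algebraMap K L t - a))) ≤
              (1 / k) * Real.log C₀ := mul_le_mul_of_nonneg_left h2 hk00.le
          have h5 : (1 / k) * Real.log C₀ ≤ Real.log C₀ := mul_le_of_le_one_left hlC hk1
          have h6 : (1 / k) * (Real.log M + k * Real.log (f (Sum.inl v) (algebraMap K L t - a))) =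
              (1 / k) * Real.log M + Real.log (f (Sum.inl v) (algebraMap K L t - a)) := by
            field_simp
          linarith
        have h7 : f (Sum.inl v) (algebraMap K L t + -a) = f (Sum.inl v) (algebraMap K L t - a) := by
          rw [sub_eq_add_neg]
        rw [Fin.sum_univ_two]
        simp only [frm, Option.map_some, Fin.sum_univ_two, Matrix.of_apply, Matrix.cons_val_zero,
          Matrix.cons_val_one, Matrix.cons_val_fin_one, map_one, mul_one, zero_mul, zero_add,
          add_zero, one_mul, Real.log_one, h7]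
        linarith
    choose g hg using hsel
    have htg : ∀ d ∈ Z g, ∑ j, d j * algebraMap K L (![t, 1] j) ≠ 0 := by
      intro d hd h
      apply ht
      refine Set.mem_iUnion.2 ⟨g, Set.mem_iUnion₂.2 ⟨d, hd, ?_⟩⟩
      rw [Fin.sum_univ_two] at h
      simpa using h
    have hfin := hroth g _ htg
    have hlow : ∑ v : InfinitePlace K, (v.mult : ℝ) * ((1 / k) * Real.log M - Real.log C₀) ≤
        ∑ v : InfinitePlace K, (v.mult : ℝ) * ∑ a, (Real.log (nrm (av (Sum.inl v)) ![t, 1]) -
        Real.log (f (Sum.inl v) (∑ j, frm ((g v).map Subtype.val) a j *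
          algebraMap K L (![t, 1] j)))) :=
      Finset.sum_le_sum fun v _ => mul_le_mul_of_nonneg_left (hg v) (Nat.cast_nonneg _)
    rw [← Finset.sum_mul, ← Nat.cast_sum, InfinitePlace.sum_mult_eq] at hlow
    have hCg : C g ≤ ∑ g, |C g| :=
      (le_abs_self _).trans (Finset.single_le_sum (f := fun g => |C g|)
        (fun _ _ => abs_nonneg _) (Finset.mem_univ g))
    have h8 : (finrank ℚ K : ℝ) * ((1 / k) * Real.log M - Real.log C₀) =
        finrank ℚ K * ((1 / k) * Real.log M) - finrank ℚ K * Real.log C₀ := by ring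
    linarith

end Pool.Agent.K3h44.HP
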