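import Mathlib
import Pool.Agent.R405.Rep

/-!
Heights of values of rational functions.
-/

set_option autoImplicit false

namespace Pool.Agent.K3h44.HP

open Polynomial NumberField Height Module

/-- bounded Bezout coefficients -/
theorem bezout {K : Type} [Field K] {A B : K[X]} {n : ℕ} (hA : A.Monic) (hdA : A.natDegree = n)
    (hdB : B.natDegree ≤ n) (hcop : IsCoprime A B) (F : K[X]) (hF : F.natDegree ≤ 2 * n) :
    ∃ U V : K[X], U.natDegree ≤ n ∧ V.natDegree ≤ n ∧ U * A + V * B = F := by
  obtain ⟨a, b, hab⟩ := hcop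
  set V : K[X] := (F * b) %ₘ A with hV
  set U : K[X] := F * a + ((F * b) /ₘ A) * B with hU
  have hdV : V.natDegree ≤ n := by
    rw [hV, ← hdA]
    exact natDegree_modByMonic_le _ hA
  have hrel : U * A + V * B = F := by
    have h1 := modByMonic_add_div (F * b) A
    rw [hU, hV]
    linear_combination F * hab + B * h1
  refine ⟨U, V, ?_, hdV, hrel⟩
  have h2 : U * A = F - V * B := by linear_combination hrel
  have h3 : (U * A).natDegree ≤ 2 * n := by
    rw [h2]
    refine (natDegree_sub_le _ _).trans (max_le hF ?_)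
    refine natDegree_mul_le.trans ?_
    omega
  rcases eq_or_ne U 0 with h0 | h0
  · rw [h0, natDegree_zero]
    exact Nat.zero_le _
  · rw [mul_comm, hA.natDegree_mul' h0, hdA] at h3
    omega

/-- the lower bound for the height of a value -/
theorem height_lower {K : Type} [Field K] [NumberField K] {A B : K[X]} {n : ℕ} (hA : A.Monic)
    (hdA : A.natDegree = n) (hdB : B.natDegree ≤ n) (hcop : IsCoprime A B) :
    ∃ C : ℝ, ∀ t : K, C + n * logHeight ![t, 1] ≤ logHeight ![A.eval t, B.eval t] := by
  obtain ⟨U0, V0, hU0, hV0, h0⟩ := bezout hA hdA hdB hcop (X ^ (2 * n)) (by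
    rw [natDegree_X_pow])
  obtain ⟨U1, V1, hU1, hV1, h1⟩ := bezout hA hdA hdB hcop 1 (by simp)
  let q : Fin 2 × Fin 2 → MvPolynomial (Fin 2) K := fun ij =>
    (!![U0, V0; U1, V1] ij.1 ij.2).homogenize n
  have hq : ∀ a, (q a).IsHomogeneous n := fun a => isHomogeneous_homogenize _
  obtain ⟨C, hC⟩ := logHeight_eval_ge' (M := n) (N := n) hq
  refine ⟨C, fun t => ?_⟩
  have h := hC (fun j => MvPolynomial.C (![A.eval t, B.eval t] j)) (x := ![t, 1]) (by
    intro k
    have hx : (![t, 1] : Fin 2 → K) 1 ≠ 0 := by simp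
    fin_cases k
    · simp only [q, Fin.sum_univ_two, Fin.zero_eta]
      rw [eval_homogenize (by simpa using hU0) _ hx, eval_homogenize (by simpa using hV0) _ hx]
      have := congrArg (eval t) h0
      rw [eval_add, eval_mul, eval_mul, eval_pow, eval_X] at this
      simp
      rw [this]
      congr 1
      ring
    · simp only [q, Fin.sum_univ_two]
      rw [eval_homogenize (by simpa using hU1) _ hx, eval_homogenize (by simpa using hV1) _ hx]
      have := congrArg (eval t) h1
      rw [eval_add, eval_mul, eval_mul, eval_one] at this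
      simp
      rw [this])
  refine h.trans (le_of_eq ?_)
  congr 1
  funext j
  simp

theorem place_int {K : Type} [Field K] [NumberField K] (v : InfinitePlace K) (a : ℤ) :
    v (a : K) = |(a : ℝ)| := by
  rw [← InfinitePlace.norm_embedding_eq, map_intCast, Complex.norm_intCast]

/-- the height of a rational point with integral coordinates -/
theorem height_int {K : Type} [Field K] [NumberField K] (a b : ℤ) (h : b ≠ 0) :
    logHeight ![(a : K), (b : K)] ≤ finrank ℚ K * Real.log (max |(a : ℝ)| |(b : ℝ)|) := by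
  classical
  set u : Fin 2 → 𝓞 K := ![(a : 𝓞 K), (b : 𝓞 K)] with hu
  have hu0 : u ≠ 0 := by
    intro h0
    have := congrFun h0 1
    rw [hu] at this
    simp at this
    exact h this
  have huK : (fun j => (u j : K)) = ![(a : K), (b : K)] := by
    funext j
    fin_cases j <;> simp [hu]
  have h1 := Pool.Agent.R405.mulHeight_int u hu0
  rw [huK] at h1
  have hN : (1 : ℝ) ≤ Ideal.absNorm (Ideal.span (Set.range u)) := by
    have hne : Ideal.span (Set.range u) ≠ ⊥ := by
      intro h0
      rw [Ideal.span_eq_bot] at h0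
      apply hu0
      funext j
      exact h0 _ (Set.mem_range_self j)
    have : Ideal.absNorm (Ideal.span (Set.range u)) ≠ 0 := by
      rwa [Ne, Ideal.absNorm_eq_zero_iff]
    exact_mod_cast Nat.one_le_iff_ne_zero.2 this
  have hsup : ∀ v : InfinitePlace K, (⨆ i, v (u i : K)) ≤ max |(a : ℝ)| |(b : ℝ)| := by
    intro v
    refine ciSup_le fun i => ?_
    fin_cases i
    · have := place_int v a
      simp only [hu, Fin.zero_eta, Matrix.cons_val_zero, map_intCast]
      rw [this]
      exact le_max_left _ _
    · have := place_int v b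
      simp only [hu, Fin.mk_one, Matrix.cons_val_one, Matrix.cons_val_fin_one, map_intCast]
      rw [this]
      exact le_max_right _ _
  have hM : (0 : ℝ) < max |(a : ℝ)| |(b : ℝ)| :=
    lt_max_of_lt_right (abs_pos.2 (Int.cast_ne_zero.2 h))
  have hprod : ∏ v : InfinitePlace K, (⨆ i, v (u i : K)) ^ v.mult ≤
      (max |(a : ℝ)| |(b : ℝ)|) ^ finrank ℚ K := by
    rw [← InfinitePlace.sum_mult_eq, ← Finset.prod_pow_eq_pow_sum]
    refine Finset.prod_le_prod (fun v _ => ?_) fun v _ => ?_
    · exact pow_nonneg (Real.iSup_nonneg fun i => apply_nonneg v _) _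
    · exact pow_le_pow_left₀ (Real.iSup_nonneg fun i => apply_nonneg v _) (hsup v) _
  have hmul : mulHeight ![(a : K), (b : K)] ≤ (max |(a : ℝ)| |(b : ℝ)|) ^ finrank ℚ K := by
    have h0 : 0 < mulHeight ![(a : K), (b : K)] := by positivity
    nlinarith
  rw [logHeight_eq_log_mulHeight, ← Real.log_pow]
  exact Real.log_le_log (by positivity) hmul

end Pool.Agent.K3h44.HP
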