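import Mathlib
import Pool.Agent.K3h44.HP.AB
import Pool.Agent.K3h44.HP.Ht

/-!
The torsion points of all the curves `y ^ 2 = x ^ 3 + d` over a number field.
-/

set_option autoImplicit false

namespace Pool.Agent.K3h44.HP

open Polynomial NumberField Height Module
open Pool.Agent.Y674.TR (ND MULP DEG COP Rep E)

/-- multiplication in the coordinate `t = x ^ 3 / d` -/
def MR (n : ℕ) (A B : ℤ[X]) : Prop :=
  ∀ (K : Type) [Field K] [CharZero K] [DecidableEq K] (d : ℤ) (u s : K)
    (h : (E K 0 d).Nonsingular u s), d ≠ 0 →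
    (n • (WeierstrassCurve.Affine.Point.some u s h : (E K 0 d).Point) = 0 ∧
      aeval (u ^ 3 / (d : K)) B = 0) ∨
    ∃ (x y : K) (h' : (E K 0 d).Nonsingular x y),
      n • (WeierstrassCurve.Affine.Point.some u s h : (E K 0 d).Point) =
        WeierstrassCurve.Affine.Point.some x y h' ∧
      aeval (u ^ 3 / (d : K)) B ≠ 0 ∧
      aeval (u ^ 3 / (d : K)) A = x ^ 3 / (d : K) * aeval (u ^ 3 / (d : K)) B

theorem exists_AB' (m : ℕ) (hm : 1 ≤ m) : ∃ A B : ℤ[X], A.Monic ∧ A.natDegree = m ^ 2 ∧
    B.natDegree = m ^ 2 - 1 ∧ B ≠ 0 ∧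
    IsCoprime (A.map (Int.castRingHom ℚ)) (B.map (Int.castRingHom ℚ)) ∧
    (∀ τ : ℂ, (B.map (Int.castRingHom ℂ)).rootMultiplicity τ ≤ 6) ∧ MR m A B := by
  obtain ⟨A, B, h1, h2, h3, h4, h5, h6, hAB⟩ := exists_AB m hm
  refine ⟨A, B, h1, h2, h3, h4, h5, h6, ?_⟩
  intro K _ _ _ d u s hn hd
  have hΔ : (4 * (0 : ℤ) ^ 3 + 27 * d ^ 2 : ℤ) ≠ 0 := by positivity
  have hdK : (d : K) ≠ 0 := Int.cast_ne_zero.2 hd
  have hdn : (d : K) ^ (m ^ 2) ≠ 0 := pow_ne_zero _ hdK
  obtain ⟨h3, h4⟩ := hAB K d u hd
  rcases hMULP K 0 d hΔ u s hn m hm with ⟨g1, _, g2⟩ | ⟨hb, x', y', h', g1, g2⟩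
  · left
    refine ⟨g1, ?_⟩
    rw [g2] at h4
    have : (d : K) ^ (m ^ 2) * aeval (u ^ 3 / (d : K)) B = 0 := by
      rw [← h4]
      ring
    exact (mul_eq_zero.1 this).resolve_left hdn
  · right
    refine ⟨x', y', h', g1, ?_, ?_⟩
    · intro h0
      rw [h0, mul_zero] at h4
      exact mul_ne_zero (pow_ne_zero 3 hb) hdK h4
    · refine mul_left_cancel₀ hdn ?_
      rw [← h3, g2]
      field_simp
      linear_combination x' ^ 3 * h4

theorem hevK {K : Type} [Field K] (t : K) (P : ℤ[X]) :
    (P.map (Int.castRingHom K)).eval t = aeval t P := by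
  rw [eval_map]
  rfl

/-- the height of a point and of its multiple -/
theorem ht_mul (K : Type) [Field K] [NumberField K] {m : ℕ} {A B : ℤ[X]}
    (hAm : A.Monic) (hAd : A.natDegree = m ^ 2) (hBd : B.natDegree = m ^ 2 - 1)
    (hcop : IsCoprime (A.map (Int.castRingHom ℚ)) (B.map (Int.castRingHom ℚ))) :
    ∃ C : ℝ, ∀ t : K, C + (m : ℝ) ^ 2 * logHeight ![t, 1] ≤
      logHeight ![aeval t A, aeval t B] := by
  have hinjK : Function.Injective (Int.castRingHom K) := Int.cast_injective
  have hcopK : IsCoprime (A.map (Int.castRingHom K)) (B.map (Int.castRingHom K)) := by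
    have := hcop.map (mapRingHom (algebraMap ℚ K))
    simp only [coe_mapRingHom, Polynomial.map_map] at this
    rwa [show (algebraMap ℚ K).comp (Int.castRingHom ℚ) = Int.castRingHom K from
      RingHom.ext_int _ _] at this
  obtain ⟨C₁, hC₁⟩ := height_lower (A := A.map (Int.castRingHom K))
    (B := B.map (Int.castRingHom K)) (n := m ^ 2) (hAm.map _)
    (by rw [natDegree_map_eq_of_injective hinjK, hAd])
    (by
      rw [natDegree_map_eq_of_injective hinjK, hBd]
      omega) hcopK
  refine ⟨C₁, fun t => ?_⟩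
  have := hC₁ t
  rw [hevK, hevK] at this
  push_cast at this
  exact this

theorem logHeight_scale {K : Type} [Field K] [NumberField K] {a b c : K} (hc : c ≠ 0) :
    logHeight ![a * c, b * c] = logHeight ![a, b] := by
  rw [← logHeight_smul_eq_logHeight (x := ![a, b]) hc]
  congr 1
  funext j
  fin_cases j
  · simp [mul_comm]
  · simp [mul_comm]

/-- the coordinate of a point -/
noncomputable def tc {K : Type} [Field K] {d : ℤ} : (E K 0 d).Point → K
  | .zero => 0
  | .some x _ _ => x ^ 3 / (d : K)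

/-- torsion points have bounded height -/
theorem tors_ht (K : Type) [Field K] [NumberField K] [DecidableEq K] :
    ∃ C : ℝ, ∀ (d : ℤ), d ≠ 0 → ∀ T : (E K 0 d).Point, (∃ k : ℕ, 1 ≤ k ∧ k • T = 0) →
      logHeight ![tc T, 1] ≤ C := by
  obtain ⟨A, B, hAm, hAd, hBd, hB0, hcop, hmult, hMR⟩ := exists_AB' 2 (by norm_num)
  obtain ⟨C, hC⟩ := ht_mul K hAm hAd hBd hcop
  refine ⟨|C| / 3, fun d hd T hT => ?_⟩
  obtain ⟨k, hk, hkT⟩ := hT
  have hdK : (d : K) ≠ 0 := Int.cast_ne_zero.2 hd
  -- one step
  have h0 : logHeight ![(0 : K), 1] = 0 := by simp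
  have hstep : ∀ P : (E K 0 d).Point, 4 * logHeight ![tc P, 1] ≤
      logHeight ![tc (2 • P), 1] + |C| := by
    intro P
    rcases P with _ | ⟨u, s, hn⟩
    · have e1 : tc (WeierstrassCurve.Affine.Point.zero : (E K 0 d).Point) = 0 := rfl
      rw [e1, h0]
      have := logHeight_nonneg ![tc (2 • (WeierstrassCurve.Affine.Point.zero :
        (E K 0 d).Point)), 1]
      have := abs_nonneg C
      linarith
    · have h1 := hC (u ^ 3 / (d : K))
      have hneg := neg_abs_le C
      have e1 : tc (WeierstrassCurve.Affine.Point.some u s hn : (E K 0 d).Point) =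
        u ^ 3 / (d : K) := rfl
      rw [e1]
      rcases hMR K d u s hn hd with ⟨g1, g2⟩ | ⟨x, y, h', g1, g2, g3⟩
      · rw [g1]
        rw [g2] at h1
        have g4 : aeval (u ^ 3 / (d : K)) A ≠ 0 := by
          intro g5
          have hco : IsCoprime (A.map (Int.castRingHom K)) (B.map (Int.castRingHom K)) := by
            have := hcop.map (mapRingHom (algebraMap ℚ K))
            simp only [coe_mapRingHom, Polynomial.map_map] at this
            rwa [show (algebraMap ℚ K).comp (Int.castRingHom ℚ) = Int.castRingHom K from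
              RingHom.ext_int _ _] at this
          obtain ⟨a, b, hab⟩ := hco
          have := congrArg (eval (u ^ 3 / (d : K))) hab
          rw [eval_add, eval_mul, eval_mul, hevK, hevK, g5, g2] at this
          simp at this
        have e2 : logHeight ![aeval (u ^ 3 / (d : K)) A, 0] = 0 := by
          have h5 : logHeight ![aeval (u ^ 3 / (d : K)) A, 0] = logHeight ![(1 : K), 0] := by
            have := logHeight_scale (a := (1 : K)) (b := 0) g4
            simpa using this
          have h6 : logHeight ![(1 : K), 0] ≤ 0 := by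
            have h7 := Pool.Agent.R405.mulHeight_int (K := K) ![(1 : 𝓞 K), 0] (by
              intro h
              have := congrFun h 0
              simp at this)
            have h8 : (fun j => ((![(1 : 𝓞 K), 0] j : 𝓞 K) : K)) = ![(1 : K), 0] := by
              funext j
              fin_cases j <;> simp
            rw [h8] at h7
            have hsp : Ideal.span (Set.range ![(1 : 𝓞 K), 0]) = ⊤ := by
              rw [Ideal.eq_top_iff_one]
              exact Ideal.subset_span ⟨0, rfl⟩
            rw [hsp, Ideal.absNorm_top, Nat.cast_one, mul_one] at h7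
            rw [logHeight_eq_log_mulHeight, h7]
            refine Real.log_nonpos (Finset.prod_nonneg fun v _ => pow_nonneg
              (Real.iSup_nonneg fun i => apply_nonneg v _) _) ?_
            refine Finset.prod_le_one (fun v _ => pow_nonneg
              (Real.iSup_nonneg fun i => apply_nonneg v _) _) fun v _ => ?_
            refine pow_le_one₀ (Real.iSup_nonneg fun i => apply_nonneg v _) ?_
            refine ciSup_le fun i => ?_
            fin_cases i <;> simp
          have h9 := logHeight_nonneg ![(1 : K), 0]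
          rw [h5]
          linarith
        rw [e2] at h1
        have h10 := logHeight_nonneg ![tc (0 : (E K 0 d).Point), 1]
        push_cast at h1
        linarith
      · rw [g1]
        have e2 : tc (WeierstrassCurve.Affine.Point.some x y h' : (E K 0 d).Point) =
          x ^ 3 / (d : K) := rfl
        rw [e2]
        rw [g3] at h1
        have e3 : logHeight ![x ^ 3 / (d : K) * aeval (u ^ 3 / (d : K)) B,
            aeval (u ^ 3 / (d : K)) B] = logHeight ![x ^ 3 / (d : K), 1] := by
          have := logHeight_scale (a := x ^ 3 / (d : K)) (b := 1) g2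
          simpa using this
        rw [e3] at h1
        push_cast at h1
        linarith
  -- the orbit is finite
  have hfin : (Set.range fun j : ℕ => logHeight ![tc (2 ^ j • T), 1]).Finite := by
    refine Set.Finite.subset ((Finset.range k).finite_toSet.image
      (fun j : ℕ => logHeight ![tc (j • T), 1])) ?_
    rintro _ ⟨j, rfl⟩
    refine ⟨2 ^ j % k, ?_, ?_⟩
    · simp only [Finset.coe_range, Set.mem_Iio]
      exact Nat.mod_lt _ (by omega)
    · have : 2 ^ j • T = (2 ^ j % k) • T := by
        conv_lhs => rw [← Nat.mod_add_div (2 ^ j) k]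
        rw [add_nsmul, mul_nsmul, hkT, nsmul_zero, add_zero]
      simp only
      rw [this]
  obtain ⟨j, hj⟩ : ∃ j : ℕ, ∀ i : ℕ, logHeight ![tc (2 ^ i • T), 1] ≤
      logHeight ![tc (2 ^ j • T), 1] := by
    obtain ⟨_, ⟨j, rfl⟩, hmax⟩ := Set.exists_max_image _ id hfin ⟨_, ⟨0, rfl⟩⟩
    exact ⟨j, fun i => hmax _ ⟨i, rfl⟩⟩
  have h1 := hstep (2 ^ j • T)
  rw [← mul_nsmul', ← pow_succ'] at h1
  have h2 := hj (j + 1)
  have h3 := hj 0
  rw [pow_zero, one_nsmul] at h3
  linarith

/-- **uniform torsion**: one exponent for all the curves `y ^ 2 = x ^ 3 + d` over `K` -/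
theorem tors_exp (K : Type) [Field K] [NumberField K] [DecidableEq K] :
    ∃ n : ℕ, 1 ≤ n ∧ ∀ (d : ℤ), d ≠ 0 → ∀ T : (E K 0 d).Point,
      (∃ k : ℕ, 1 ≤ k ∧ k • T = 0) → n • T = 0 := by
  classical
  obtain ⟨C, hC⟩ := tors_ht K
  choose! A B hAB using exists_AB'
  have hfin : {t : K | logHeight ![t, 1] ≤ C}.Finite := by
    have := finite_setOfPred_logHeight₁_le (K := K) C
    refine this.subset fun t ht => ?_
    rw [Set.mem_ofPred_eq] at ht ⊢
    rw [logHeight₁_eq_logHeight]
    exact ht
  -- the order attached to a value of the coordinate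
  have hord : ∀ t : K, ∃ n : ℕ, 1 ≤ n ∧ ∀ (d : ℤ), d ≠ 0 → ∀ T : (E K 0 d).Point,
      (∃ k : ℕ, 1 ≤ k ∧ k • T = 0) → tc T = t → n • T = 0 := by
    intro t
    by_cases h : ∃ (d : ℤ) (T : (E K 0 d).Point) (k : ℕ), d ≠ 0 ∧ T ≠ 0 ∧ 1 ≤ k ∧ k • T = 0 ∧
        tc T = t
    · obtain ⟨d, T, k, hd, hT0, hk, hkT, hT⟩ := h
      refine ⟨k, hk, fun d' hd' T' hT' hT't => ?_⟩
      obtain ⟨-, -, -, -, -, -, hMR⟩ := hAB k hk
      rcases T with _ | ⟨u, s, hn⟩
      · exact absurd rfl hT0
      have hB : aeval t (B k) = 0 := by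
        have e : t = u ^ 3 / (d : K) := hT.symm
        rcases hMR K d u s hn hd with ⟨_, g2⟩ | ⟨x, y, h', g1, _, _⟩
        · rw [e]
          exact g2
        · rw [hkT] at g1
          exact absurd g1.symm (WeierstrassCurve.Affine.Point.some_ne_zero h')
      rcases T' with _ | ⟨u', s', hn'⟩
      · exact nsmul_zero k
      have e' : t = u' ^ 3 / (d' : K) := hT't.symm
      rcases hMR K d' u' s' hn' hd' with ⟨g1, _⟩ | ⟨x, y, h', _, g2, _⟩
      · exact g1
      · rw [← e'] at g2
        exact absurd hB g2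
    · refine ⟨1, le_rfl, fun d hd T ⟨k, hk, hkT⟩ hTt => ?_⟩
      by_contra hT
      rw [one_nsmul] at hT
      exact h ⟨d, T, k, hd, hT, hk, hkT, hTt⟩
  choose n hn1 hn using hord
  refine ⟨∏ t ∈ hfin.toFinset, n t, Nat.one_le_iff_ne_zero.2
    (Finset.prod_ne_zero_iff.2 fun t _ => by have := hn1 t; omega), ?_⟩
  intro d hd T hT
  have hmem : tc T ∈ hfin.toFinset := hfin.mem_toFinset.2 (hC d hd T hT)
  obtain ⟨q, hq⟩ := Finset.dvd_prod_of_mem n hmem
  rw [hq, mul_nsmul, hn (tc T) d hd T hT rfl, nsmul_zero]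

end Pool.Agent.K3h44.HP
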