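import Mathlib
import Pool.Agent.K3h44.HP.Tors
import Pool.Agent.K3h44.HP.Roth

/-!
The main inequality: a rational point of `y ^ 2 = x ^ 3 + d` which is divisible by `m` modulo
torsion over a number field is not too close to the point at infinity.
-/

set_option autoImplicit false

namespace Pool.Agent.K3h44.HP

open Polynomial NumberField Height Module
open Pool.Agent.Y674.TR (ND MULP DEG COP Rep E)
open Pool.Agent.Y903.TR (ev_map)

/-- the homogenization at integers -/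
def hv (P : ℤ[X]) (N : ℕ) (a b : ℤ) : ℤ :=
  ∑ i ∈ Finset.range (N + 1), P.coeff i * (a ^ i * b ^ (N - i))

theorem hv_cast {F : Type} [Field F] [CharZero F] {P : ℤ[X]} {N : ℕ} (hN : P.natDegree ≤ N)
    (a : ℤ) {b : ℤ} (hb : b ≠ 0) :
    ((hv P N a b : ℤ) : F) = aeval ((a : F) / (b : F)) P * (b : F) ^ N := by
  have hbF : (b : F) ≠ 0 := Int.cast_ne_zero.2 hb
  rw [← hevK, eval_eq_sum_range' (n := N + 1) (by
    refine lt_of_le_of_lt natDegree_map_le ?_
    omega), hv, Finset.sum_mul]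
  push_cast
  refine Finset.sum_congr rfl fun i hi => ?_
  have hi' : i ≤ N := by
    have := Finset.mem_range.1 hi
    omega
  rw [coeff_map, eq_intCast]
  have : (b : F) ^ N = b ^ i * b ^ (N - i) := by
    rw [← pow_add]
    congr 1
    omega
  rw [this, div_pow]
  field_simp

theorem hv_le (P : ℤ[X]) (N : ℕ) : ∃ S : ℝ, 1 ≤ S ∧ ∀ (a b : ℤ),
    |((hv P N a b : ℤ) : ℝ)| ≤ S * (max |(a : ℝ)| |(b : ℝ)|) ^ N := by
  refine ⟨∑ i ∈ Finset.range (N + 1), |(P.coeff i : ℝ)| + 1, ?_, fun a b => ?_⟩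
  · have : 0 ≤ ∑ i ∈ Finset.range (N + 1), |(P.coeff i : ℝ)| := by positivity
    linarith
  · rw [hv]
    push_cast
    refine (Finset.abs_sum_le_sum_abs _ _).trans ?_
    have h1 : ∀ i ∈ Finset.range (N + 1), |(P.coeff i : ℝ) * ((a : ℝ) ^ i * (b : ℝ) ^ (N - i))| ≤
        |(P.coeff i : ℝ)| * (max |(a : ℝ)| |(b : ℝ)|) ^ N := by
      intro i hi
      rw [abs_mul]
      refine mul_le_mul_of_nonneg_left ?_ (abs_nonneg _)
      rw [abs_mul, abs_pow, abs_pow]
      have hi' : i ≤ N := by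
        have := Finset.mem_range.1 hi
        omega
      have : (max |(a : ℝ)| |(b : ℝ)|) ^ N = (max |(a : ℝ)| |(b : ℝ)|) ^ i *
          (max |(a : ℝ)| |(b : ℝ)|) ^ (N - i) := by
        rw [← pow_add]
        congr 1
        omega
      rw [this]
      exact mul_le_mul (pow_le_pow_left₀ (abs_nonneg _) (le_max_left _ _) _)
        (pow_le_pow_left₀ (abs_nonneg _) (le_max_right _ _) _) (by positivity) (by positivity)
    refine (Finset.sum_le_sum h1).trans ?_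
    rw [← Finset.sum_mul]
    refine mul_le_mul_of_nonneg_right (by linarith) (by positivity)

/-- the values of a multiplication map at large rational numbers -/
theorem large {A B : ℤ[X]} {n : ℕ} (hn : 1 ≤ n) (hAm : A.Monic) (hAd : A.natDegree = n ^ 2)
    (hBd : B.natDegree = n ^ 2 - 1) (hB0 : B ≠ 0) :
    ∃ C : ℝ, 1 ≤ C ∧ ∀ t : ℂ, C ≤ ‖t‖ → aeval t B ≠ 0 ∧
      ‖t‖ * ‖aeval t B‖ ≤ C * ‖aeval t A‖ := by
  have hinjC : Function.Injective (Int.castRingHom ℂ) := Int.cast_injective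
  have hn2 : 1 ≤ n ^ 2 := Nat.one_le_pow _ _ (by omega)
  have hA0 : A.map (Int.castRingHom ℂ) ≠ 0 := (hAm.map _).ne_zero
  have hB0' : B.map (Int.castRingHom ℂ) ≠ 0 := (Polynomial.map_ne_zero_iff hinjC).2 hB0
  obtain ⟨R, C, hR, hC, h⟩ := growth (A := X ^ 2 * B.map (Int.castRingHom ℂ)) hA0 (by
    rw [natDegree_mul (pow_ne_zero 2 X_ne_zero) hB0', natDegree_X_pow,
      natDegree_map_eq_of_injective hinjC, natDegree_map_eq_of_injective hinjC, hAd, hBd]
    omega)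
  obtain ⟨R', C', hR', hC', h'⟩ := growth (A := A.map (Int.castRingHom ℂ)) hB0' (by
    rw [natDegree_map_eq_of_injective hinjC, natDegree_map_eq_of_injective hinjC, hAd, hBd]
    omega)
  refine ⟨max (max R R') C, (hR.trans (le_max_left _ _)).trans (le_max_left _ _), fun t ht => ?_⟩
  have h1 : R ≤ ‖t‖ := ((le_max_left _ _).trans (le_max_left _ _)).trans ht
  have h1' : R' ≤ ‖t‖ := ((le_max_right _ _).trans (le_max_left _ _)).trans ht
  have h3 := (h t h1).2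
  have h4 := (h' t h1').1
  rw [ev_map] at h3 h4
  rw [eval_mul, eval_pow, eval_X, ev_map, norm_mul, norm_pow] at h3
  refine ⟨h4, ?_⟩
  have ht0 : 0 < ‖t‖ := by linarith
  have h5 : ‖t‖ * (‖t‖ * ‖aeval t B‖) ≤ ‖t‖ * (C * ‖aeval t A‖) := by
    calc _ = ‖t‖ ^ 2 * ‖aeval t B‖ := by ring
      _ ≤ _ := h3
      _ = _ := by ring
  have h6 := le_of_mul_le_mul_left h5 ht0
  exact h6.trans (mul_le_mul_of_nonneg_right (le_max_right _ _) (norm_nonneg _))

theorem hφe {K : Type} [Field K] (φ : K →+* ℂ) (t : K) (P : ℤ[X]) :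
    aeval (φ t) P = φ (aeval t P) := by
  rw [aeval_def, aeval_def, hom_eval₂]
  congr 1
  exact RingHom.ext_int _ _

/-- **the core inequality** -/
theorem core (K : Type) [Field K] [NumberField K] [DecidableEq K] (m n : ℕ) (hm : 2 ≤ m)
    (hn : 1 ≤ n) (ε : ℝ) (hε : 0 < ε) :
    ∃ C : ℝ, ∀ (d : ℤ) (x y : K) (h : (E K 0 d).Nonsingular x y) (Q : (E K 0 d).Point)
      (a b : ℤ), d ≠ 0 → a ≠ 0 → b ≠ 0 → x ^ 3 / (d : K) = (a : K) / (b : K) →
      n • (WeierstrassCurve.Affine.Point.some x y h : (E K 0 d).Point) = n • (m • Q) →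
      Real.log (|(a : ℝ)| / |(b : ℝ)|) ≤
        6 * (2 + ε) / (m : ℝ) ^ 2 * Real.log (max |(a : ℝ)| |(b : ℝ)|) + C := by
  classical
  have hnm : 1 ≤ n * m := Nat.mul_pos hn (by omega)
  obtain ⟨A, B, hAm, hAd, hBd, hB0, hcop, hmult, hMR⟩ := exists_AB' (n * m) hnm
  obtain ⟨A', B', hAm', hAd', hBd', hB0', hcop', -, hMR'⟩ := exists_AB' n hn
  have hm4 : (4 : ℝ) ≤ (m : ℝ) ^ 2 := by
    have : (2 : ℝ) ≤ m := by exact_mod_cast hm
    nlinarith
  have hinjC : Function.Injective (Int.castRingHom ℂ) := Int.cast_injective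
  obtain ⟨C₀, hC₀, hnear⟩ := near (A := A.map (Int.castRingHom ℂ)) (B := B.map (Int.castRingHom ℂ))
    (k := 6) (by
      rw [natDegree_map_eq_of_injective hinjC, natDegree_map_eq_of_injective hinjC, hAd, hBd]
      omega) (by
      rw [natDegree_map_eq_of_injective hinjC, hBd]
      have : 2 ≤ n * m := by nlinarith
      have : 2 ^ 2 ≤ (n * m) ^ 2 := Nat.pow_le_pow_left this 2
      omega) hmult
  obtain ⟨C₁, hC₁⟩ := ht_mul K hAm hAd hBd hcop
  obtain ⟨T, C₂, hTfin, hroth⟩ := roth_arch K B hB0 6 (by norm_num) C₀ hC₀ ε hε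
  obtain ⟨C₃, hC₃, hlarge⟩ := large hn hAm' hAd' hBd' hB0'
  obtain ⟨SA, hSA1, hSA⟩ := hv_le A' (n ^ 2)
  obtain ⟨SB, hSB1, hSB⟩ := hv_le B' (n ^ 2)
  obtain ⟨φ₀⟩ : Nonempty (K →+* ℂ) := inferInstance
  set CT : ℝ := 1 + ∑ t ∈ hTfin.toFinset, ‖φ₀ (aeval t A / aeval t B)‖ with hCT
  have hCT1 : 1 ≤ CT := by
    rw [hCT]
    have : 0 ≤ ∑ t ∈ hTfin.toFinset, ‖φ₀ (aeval t A / aeval t B)‖ := by positivity
    linarith
  set D : ℝ := ((finrank ℚ K : ℕ) : ℝ) with hD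
  have hD0 : 0 < D := by
    rw [hD]
    exact_mod_cast finrank_pos
  have hn2 : (1 : ℝ) ≤ (n : ℝ) ^ 2 := by
    have : (1 : ℝ) ≤ n := by exact_mod_cast hn
    nlinarith
  set S : ℝ := SA + SB with hS
  have hS1 : 1 ≤ S := by linarith
  set CF : ℝ := Real.log (C₃ * CT) + Real.log C₃ +
    6 / D * ((2 + ε) / ((n : ℝ) ^ 2 * (m : ℝ) ^ 2) * (D * Real.log S + |C₁|) + |C₂|) with hCF
  have hlC₃ : 0 ≤ Real.log C₃ := Real.log_nonneg hC₃
  have hlCT : 0 ≤ Real.log (C₃ * CT) := Real.log_nonneg (by nlinarith)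
  have hlS : 0 ≤ Real.log S := Real.log_nonneg hS1
  have hrest : 0 ≤ 6 / D * ((2 + ε) / ((n : ℝ) ^ 2 * (m : ℝ) ^ 2) *
      (D * Real.log S + |C₁|) + |C₂|) := by positivity
  refine ⟨CF, ?_⟩
  intro d x y hns Q a b hd ha hb hab hQ
  have hdK : (d : K) ≠ 0 := Int.cast_ne_zero.2 hd
  have hb1 : (1 : ℝ) ≤ |(b : ℝ)| := by
    have : (1 : ℤ) ≤ |b| := Int.one_le_abs hb
    exact_mod_cast this
  have ha1 : (1 : ℝ) ≤ |(a : ℝ)| := by
    have : (1 : ℤ) ≤ |a| := Int.one_le_abs ha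
    exact_mod_cast this
  set H₀ : ℝ := max |(a : ℝ)| |(b : ℝ)| with hH₀
  have hH₀1 : 1 ≤ H₀ := ha1.trans (le_max_left _ _)
  have hlH : 0 ≤ Real.log H₀ := Real.log_nonneg hH₀1
  set M : ℝ := |(a : ℝ)| / |(b : ℝ)| with hM
  have hM0 : 0 < M := by rw [hM]; positivity
  have hMC : ∀ φ : K →+* ℂ, ‖φ (x ^ 3 / (d : K))‖ = M := by
    intro φ
    rw [hab, map_div₀, map_intCast, map_intCast, norm_div, Complex.norm_intCast,
      Complex.norm_intCast]
  -- small values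
  have hsmall : M ≤ C₃ * CT → Real.log M ≤
      6 * (2 + ε) / (m : ℝ) ^ 2 * Real.log H₀ + CF := by
    intro hMs
    have h1 : Real.log M ≤ Real.log (C₃ * CT) := Real.log_le_log hM0 hMs
    have h2 : 0 ≤ 6 * (2 + ε) / (m : ℝ) ^ 2 * Real.log H₀ := by positivity
    rw [hCF]
    linarith
  rcases le_or_gt M C₃ with hMs | hMl
  · exact hsmall (hMs.trans (le_mul_of_one_le_right (by linarith) hCT1))
  have htr := hlarge (φ₀ (x ^ 3 / (d : K))) (by rw [hMC]; exact hMl.le)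
  -- n P is not zero
  rcases hMR' K d x y hns hd with ⟨g1, g2⟩ | ⟨x', y', h', g1, g2, g3⟩
  · exfalso
    apply htr.1
    rw [hφe, g2, map_zero]
  set ρ : K := x' ^ 3 / (d : K) with hρ
  rw [← mul_nsmul'] at hQ
  rcases Q with _ | ⟨u, s, hu⟩
  · exfalso
    rw [g1] at hQ
    have h0 : (n * m) • (0 : (E K 0 d).Point) = 0 := nsmul_zero _
    exact WeierstrassCurve.Affine.Point.some_ne_zero h' (hQ.trans h0)
  rcases hMR K d u s hu hd with ⟨f1, f2⟩ | ⟨x'', y'', h'', f1, f2, f3⟩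
  · exfalso
    rw [g1, f1] at hQ
    exact WeierstrassCurve.Affine.Point.some_ne_zero h' hQ
  have hxx : x'' = x' := by
    rw [g1, f1] at hQ
    injection hQ with hx hy
    exact hx.symm
  subst hxx
  set t : K := u ^ 3 / (d : K) with ht
  -- the size of ρ
  have hρM : ∀ φ : K →+* ℂ, M ≤ C₃ * ‖φ ρ‖ := by
    intro φ
    have h1 := hlarge (φ (x ^ 3 / (d : K))) (by rw [hMC]; exact hMl.le)
    have h2 : 0 < ‖aeval (φ (x ^ 3 / (d : K))) B'‖ := norm_pos_iff.2 h1.1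
    have h3 := h1.2
    rw [hMC, hφe φ _ A', g3, map_mul, norm_mul, ← hφe] at h3
    have h4 : M * ‖aeval (φ (x ^ 3 / (d : K))) B'‖ ≤
        C₃ * ‖φ ρ‖ * ‖aeval (φ (x ^ 3 / (d : K))) B'‖ := by
      calc _ ≤ _ := h3
        _ = _ := by ring
    exact le_of_mul_le_mul_right h4 h2
  set M₁ : ℝ := M / C₃ with hM₁
  have hC₃0 : 0 < C₃ := by linarith
  have hM₁1 : 1 ≤ M₁ := by
    rw [hM₁, le_div_iff₀ hC₃0]
    linarith
  have hM₁ρ : ∀ φ : K →+* ℂ, M₁ ≤ ‖φ ρ‖ := by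
    intro φ
    rw [hM₁, div_le_iff₀ hC₃0]
    have := hρM φ
    linarith
  by_cases htT : t ∈ T
  · apply hsmall
    have h1 : ρ = aeval t A / aeval t B := by
      rw [eq_div_iff f2]
      exact f3.symm
    have h4 : ‖φ₀ (aeval t A / aeval t B)‖ ≤
        ∑ t ∈ hTfin.toFinset, ‖φ₀ (aeval t A / aeval t B)‖ :=
      Finset.single_le_sum (f := fun t => ‖φ₀ (aeval t A / aeval t B)‖)
        (fun _ _ => norm_nonneg _) (hTfin.mem_toFinset.2 htT)
    have h5 : ‖φ₀ ρ‖ ≤ CT := by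
      rw [h1, hCT]
      linarith
    exact (hρM φ₀).trans (mul_le_mul_of_nonneg_left h5 hC₃0.le)
  · -- Roth
    have h1 := hroth t htT f2 M₁ hM₁1 (by
      intro φ
      have h2 := hnear (φ t) M₁ hM₁1 (by
        rw [ev_map, hφe]
        exact (map_ne_zero φ).2 f2) (by
        rw [ev_map, ev_map, hφe φ t A, f3, map_mul, norm_mul, ← hφe φ t B]
        exact mul_le_mul_of_nonneg_right (hM₁ρ φ) (norm_nonneg _))
      rcases h2 with h2 | ⟨τ, hτ, h2⟩
      · exact Or.inl h2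
      · right
        rw [ev_map] at hτ
        exact ⟨τ, hτ, h2⟩)
    -- heights
    have h3 := hC₁ t
    have h4 : logHeight ![aeval t A, aeval t B] = logHeight ![ρ, 1] := by
      rw [f3]
      have := logHeight_scale (a := ρ) (b := 1) f2
      rw [one_mul] at this
      exact this
    have h5 : logHeight ![ρ, 1] =
        logHeight ![((hv A' (n ^ 2) a b : ℤ) : K), ((hv B' (n ^ 2) a b : ℤ) : K)] := by
      rw [hv_cast (by rw [hAd']) a hb, hv_cast (by rw [hBd']; omega) a hb, ← hab, g3]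
      have hbK : (b : K) ≠ 0 := Int.cast_ne_zero.2 hb
      have := logHeight_scale (a := ρ) (b := 1) (mul_ne_zero g2 (pow_ne_zero (n ^ 2) hbK))
      rw [one_mul, ← mul_assoc] at this
      exact this.symm
    have hb2 : hv B' (n ^ 2) a b ≠ 0 := by
      intro h0
      have h6 := hv_cast (F := K) (P := B') (N := n ^ 2) (by rw [hBd']; omega) a hb
      rw [h0, Int.cast_zero, ← hab] at h6
      have hbK : (b : K) ≠ 0 := Int.cast_ne_zero.2 hb
      exact mul_ne_zero g2 (pow_ne_zero (n ^ 2) hbK) h6.symm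
    have h6 := height_int (K := K) (hv A' (n ^ 2) a b) (hv B' (n ^ 2) a b) hb2
    have h7 : max |((hv A' (n ^ 2) a b : ℤ) : ℝ)| |((hv B' (n ^ 2) a b : ℤ) : ℝ)| ≤
        S * H₀ ^ (n ^ 2) := by
      have hp : 0 ≤ H₀ ^ (n ^ 2) := by positivity
      have e1 := hSA a b
      have e2 := hSB a b
      rw [← hH₀] at e1 e2
      apply max_le
      · nlinarith
      · nlinarith
    have h8 : 0 < max |((hv A' (n ^ 2) a b : ℤ) : ℝ)| |((hv B' (n ^ 2) a b : ℤ) : ℝ)| :=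
      lt_max_of_lt_right (abs_pos.2 (Int.cast_ne_zero.2 hb2))
    have h9 := Real.log_le_log h8 h7
    rw [Real.log_mul (by positivity) (by positivity), Real.log_pow] at h9
    push_cast at h9 h3 h1
    set H : ℝ := logHeight ![t, 1] with hH
    have h10 : ((n : ℝ) * m) ^ 2 * H ≤ D * (Real.log S + (n : ℝ) ^ 2 * Real.log H₀) + |C₁| := by
      have e1 := neg_abs_le C₁
      have e2 := mul_le_mul_of_nonneg_left h9 hD0.le
      rw [h4, h5] at h3
      linarith
    have h11 : D * (1 / 6 * Real.log M₁) ≤ (2 + ε) * H + |C₂| := by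
      have := le_abs_self C₂
      linarith
    have hlM₁ : Real.log M₁ = Real.log M - Real.log C₃ := by
      rw [hM₁, Real.log_div hM0.ne' hC₃0.ne']
    have hn0 : (0 : ℝ) < (n : ℝ) ^ 2 := by linarith
    have hm0 : (0 : ℝ) < (m : ℝ) ^ 2 := by linarith
    have h12 : H ≤ (D * (Real.log S + (n : ℝ) ^ 2 * Real.log H₀) + |C₁|) /
        ((n : ℝ) ^ 2 * (m : ℝ) ^ 2) := by
      rw [le_div_iff₀ (by positivity)]
      calc H * ((n : ℝ) ^ 2 * (m : ℝ) ^ 2) = ((n : ℝ) * m) ^ 2 * H := by ring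
        _ ≤ _ := h10
    have h13 : D * (1 / 6 * Real.log M₁) ≤
        (2 + ε) * ((D * (Real.log S + (n : ℝ) ^ 2 * Real.log H₀) + |C₁|) /
        ((n : ℝ) ^ 2 * (m : ℝ) ^ 2)) + |C₂| :=
      h11.trans (by
        have := mul_le_mul_of_nonneg_left h12 (show 0 ≤ 2 + ε by linarith)
        linarith)
    have h14 := mul_le_mul_of_nonneg_left h13 (show 0 ≤ 6 / D by positivity)
    have h15 : 6 / D * (D * (1 / 6 * Real.log M₁)) = Real.log M₁ := by
      field_simp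
    have h16 : 6 / D * ((2 + ε) * ((D * (Real.log S + (n : ℝ) ^ 2 * Real.log H₀) + |C₁|) /
        ((n : ℝ) ^ 2 * (m : ℝ) ^ 2)) + |C₂|) =
        6 * (2 + ε) / (m : ℝ) ^ 2 * Real.log H₀ +
        6 / D * ((2 + ε) / ((n : ℝ) ^ 2 * (m : ℝ) ^ 2) * (D * Real.log S + |C₁|) + |C₂|) := by
      field_simp
      ring
    rw [h15, h16, hlM₁] at h14
    rw [hCF]
    linarith

end Pool.Agent.K3h44.HP
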