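import Mathlib
import Pool.Agent.K3h44.HP.Core

/-!
Integral points which are congruent modulo `m`, modulo torsion.
-/

set_option autoImplicit false

namespace Pool.Agent.K3h44.HP

open Polynomial NumberField Height Module
open Pool.Agent.Y674.TR (E)

/-- the size of the difference of two integral points far out -/
theorem diff_size {x₁ x₂ y₁ y₂ d : ℝ} (h1 : y₁ ^ 2 = x₁ ^ 3 + d) (h2 : y₂ ^ 2 = x₂ ^ 3 + d)
    (hx2 : 0 < x₂) (hx : x₂ ≤ x₁) (hd : 16 * |d| ≤ x₂ ^ 3) :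
    x₂ * (x₁ - x₂) ^ 2 ≤ 10 * ((y₁ + y₂) ^ 2 - (x₁ + x₂) * (x₁ - x₂) ^ 2) ∧
      (y₁ + y₂) ^ 2 - (x₁ + x₂) * (x₁ - x₂) ^ 2 ≤ 5 * (x₁ ^ 2 * x₂) := by
  have hx1 : 0 < x₁ := by linarith
  have hd1 : d ≤ |d| := le_abs_self d
  have hd2 : -|d| ≤ d := neg_abs_le d
  have hd0 : 0 ≤ |d| := abs_nonneg d
  have e1 : x₂ ^ 3 ≤ x₁ ^ 2 * x₂ := by
    have : x₂ ^ 2 ≤ x₁ ^ 2 := pow_le_pow_left₀ hx2.le hx 2
    nlinarith
  have e2 : x₁ * x₂ ^ 2 ≤ x₁ ^ 2 * x₂ := by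
    have : 0 ≤ x₁ * x₂ * (x₁ - x₂) := by
      have : 0 ≤ x₁ - x₂ := by linarith
      positivity
    nlinarith
  have hp2 : 0 < x₁ ^ 2 * x₂ := by positivity
  set v : ℝ := y₁ * y₂ with hv
  set W : ℝ := x₁ * x₂ * (x₁ + x₂) + 2 * d with hW
  have hp : (y₁ + y₂) ^ 2 - (x₁ + x₂) * (x₁ - x₂) ^ 2 = W + 2 * v := by
    rw [hv, hW]
    linear_combination h1 + h2
  have hWlow : x₁ ^ 2 * x₂ ≤ W := by
    rw [hW]
    nlinarith
  have hWup : W ≤ 17 / 8 * (x₁ ^ 2 * x₂) := by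
    rw [hW]
    nlinarith
  have hid : (W + 2 * v) * (W - 2 * v) = (x₁ - x₂) ^ 2 * (x₁ ^ 2 * x₂ ^ 2 - 4 * d * (x₁ + x₂)) := by
    rw [hv, hW]
    linear_combination (-4 * y₂ ^ 2) * h1 + (-4 * (x₁ ^ 3 + d)) * h2
  have hv2 : v ^ 2 ≤ (17 / 16 * (x₁ ^ 2 * x₂)) ^ 2 := by
    have f1 : y₁ ^ 2 ≤ 17 / 16 * x₁ ^ 3 := by
      have : x₂ ^ 3 ≤ x₁ ^ 3 := pow_le_pow_left₀ hx2.le hx 3
      linarith
    have f2 : y₂ ^ 2 ≤ 17 / 16 * x₂ ^ 3 := by linarith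
    have f3 : y₁ ^ 2 * y₂ ^ 2 ≤ 17 / 16 * x₁ ^ 3 * (17 / 16 * x₂ ^ 3) :=
      mul_le_mul f1 f2 (sq_nonneg _) (by positivity)
    have f4 : x₁ ^ 3 * x₂ ^ 3 ≤ (x₁ ^ 2 * x₂) ^ 2 := by
      have : 0 ≤ x₁ ^ 3 * x₂ ^ 2 * (x₁ - x₂) := by
        have : 0 ≤ x₁ - x₂ := by linarith
        positivity
      nlinarith
    rw [hv, mul_pow]
    nlinarith
  have hvabs : |v| ≤ 17 / 16 * (x₁ ^ 2 * x₂) := abs_le_of_sq_le_sq hv2 (by positivity)
  have hv1 := abs_le.1 hvabs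
  have hxx : (x₁ - x₂) ^ 2 ≤ x₁ ^ 2 := by
    apply pow_le_pow_left₀
    · linarith
    · linarith
  rw [hp]
  refine ⟨?_, by linarith [hv1.2]⟩
  have g1 : x₂ * (x₁ - x₂) ^ 2 ≤ x₁ ^ 2 * x₂ := by
    rw [mul_comm]
    exact mul_le_mul_of_nonneg_right hxx hx2.le
  rcases le_or_gt 0 v with hv0 | hv0
  · linarith
  · have hN : x₁ ^ 2 * x₂ ^ 2 / 2 ≤ x₁ ^ 2 * x₂ ^ 2 - 4 * d * (x₁ + x₂) := by
      have k1 : 4 * d * (x₁ + x₂) ≤ 4 * |d| * (x₁ + x₂) := by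
        have : 0 < x₁ + x₂ := by linarith
        nlinarith
      have k2 : 4 * |d| * (x₁ + x₂) ≤ 8 * |d| * x₁ := by nlinarith
      have k3 : 8 * |d| * x₁ ≤ x₂ ^ 3 / 2 * x₁ := by nlinarith
      have k4 : x₂ ^ 3 / 2 * x₁ ≤ x₁ ^ 2 * x₂ ^ 2 / 2 := by
        have : 0 ≤ x₁ * x₂ ^ 2 * (x₁ - x₂) := by
          have : 0 ≤ x₁ - x₂ := by linarith
          positivity
        nlinarith
      linarith
    have hden : W - 2 * v ≤ 5 * (x₁ ^ 2 * x₂) := by linarith [hv1.1]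
    have hden0 : 0 < W - 2 * v := by linarith
    have hnum : (x₁ - x₂) ^ 2 * (x₁ ^ 2 * x₂ ^ 2 / 2) ≤ (W + 2 * v) * (W - 2 * v) := by
      rw [hid]
      exact mul_le_mul_of_nonneg_left hN (sq_nonneg _)
    have hpos : 0 ≤ W + 2 * v := by
      by_contra hcon
      push Not at hcon
      have : (W + 2 * v) * (W - 2 * v) < 0 := mul_neg_of_neg_of_pos hcon hden0
      have : 0 ≤ (x₁ - x₂) ^ 2 * (x₁ ^ 2 * x₂ ^ 2 / 2) := by positivity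
      linarith
    have k5 : (x₁ - x₂) ^ 2 * (x₁ ^ 2 * x₂ ^ 2 / 2) ≤ (W + 2 * v) * (5 * (x₁ ^ 2 * x₂)) :=
      hnum.trans (mul_le_mul_of_nonneg_left hden hpos)
    have k6 : (x₂ * (x₁ - x₂) ^ 2) * (x₁ ^ 2 * x₂) ≤ (10 * (W + 2 * v)) * (x₁ ^ 2 * x₂) := by
      nlinarith
    exact le_of_mul_le_mul_right k6 hp2

/-- positivity of the abscissa -/
theorem pos_of_large {x y d : ℤ} (h : y ^ 2 = x ^ 3 + d) (hd : d ≠ 0) (hx : 16 * |d| ≤ |x| ^ 3) :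
    0 < x := by
  have hd1 : 1 ≤ |d| := Int.one_le_abs hd
  by_contra hcon
  push Not at hcon
  have h1 : |x| ^ 3 = -x ^ 3 := by
    rw [abs_of_nonpos hcon]
    ring
  have h2 : d ≤ |d| := le_abs_self d
  nlinarith [sq_nonneg y]

theorem divB (K : Type) [Field K] [NumberField K] [DecidableEq K] (m : ℕ) (hm : 2 ≤ m)
    (η : ℝ) (hη : 36 / (m : ℝ) ^ 2 < η)
    (W : ℤ → WeierstrassCurve.Affine K) (hW : ∀ d, W d = E K 0 d) :
    ∃ C : ℝ, 1 ≤ C ∧ ∀ d x₁ y₁ x₂ y₂ : ℤ, d ≠ 0 → y₁ ^ 2 = x₁ ^ 3 + d → y₂ ^ 2 = x₂ ^ 3 + d →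
      |x₂| ≤ |x₁| → x₁ ≠ x₂ →
      ∀ (h₁ : (W d).Nonsingular (x₁ : K) (y₁ : K)) (h₂ : (W d).Nonsingular (x₂ : K) (y₂ : K))
      (Q : (W d).Point) (k : ℕ), k ≠ 0 →
      k • ((WeierstrassCurve.Affine.Point.some (x₁ : K) (y₁ : K) h₁ : (W d).Point) -
        WeierstrassCurve.Affine.Point.some (x₂ : K) (y₂ : K) h₂) = k • (m • Q) →
      |(x₂ : ℝ)| ^ 3 ≤ C * |(d : ℝ)| * (|(x₁ : ℝ)| ^ 2 * |(x₂ : ℝ)|) ^ η := by
  obtain rfl : W = fun d => E K 0 d := funext hW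
  obtain ⟨n, hn, htors⟩ := tors_exp K
  have hm4 : (4 : ℝ) ≤ (m : ℝ) ^ 2 := by
    have : (2 : ℝ) ≤ m := by exact_mod_cast hm
    nlinarith
  set N : ℝ := (m : ℝ) ^ 2 with hN
  have hN0 : 0 < N := by linarith
  have hη0 : 0 < η := lt_trans (by positivity) hη
  rw [div_lt_iff₀ hN0] at hη
  set ε : ℝ := (η * N - 36) / 18 with hε
  have hε0 : 0 < ε := by
    rw [hε]
    linarith
  obtain ⟨C, hC⟩ := core K m n (by omega) hn ε hε0
  set C' : ℝ := Real.exp (|C| + Real.log 1000 + 6 * (2 + ε) / N * Real.log 125) with hC'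
  have hexp : 0 ≤ |C| + Real.log 1000 + 6 * (2 + ε) / N * Real.log 125 := by
    have h1 : 0 ≤ Real.log 1000 := Real.log_nonneg (by norm_num)
    have h2 : 0 ≤ Real.log 125 := Real.log_nonneg (by norm_num)
    positivity
  have hC'1 : 1 ≤ C' := by
    rw [hC']
    exact Real.one_le_exp hexp
  refine ⟨C' + 16, by linarith, ?_⟩
  intro d x₁ y₁ x₂ y₂ hd e₁ e₂ hle hne h₁ h₂ Q k hk hP
  have hd1 : (1 : ℝ) ≤ |(d : ℝ)| := by
    have : (1 : ℤ) ≤ |d| := Int.one_le_abs hd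
    exact_mod_cast this
  have hd0 : (0 : ℝ) < |(d : ℝ)| := by linarith
  rcases eq_or_ne x₂ 0 with rfl | hx20
  · simp only [Int.cast_zero, abs_zero, mul_zero]
    rw [Real.zero_rpow hη0.ne']
    norm_num
  have hx21 : (1 : ℝ) ≤ |(x₂ : ℝ)| := by
    have : (1 : ℤ) ≤ |x₂| := Int.one_le_abs hx20
    exact_mod_cast this
  have hleR : |(x₂ : ℝ)| ≤ |(x₁ : ℝ)| := by exact_mod_cast hle
  have hx11 : (1 : ℝ) ≤ |(x₁ : ℝ)| := hx21.trans hleR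
  have hbase : (1 : ℝ) ≤ |(x₁ : ℝ)| ^ 2 * |(x₂ : ℝ)| := by nlinarith
  have hpow : (1 : ℝ) ≤ (|(x₁ : ℝ)| ^ 2 * |(x₂ : ℝ)|) ^ η := Real.one_le_rpow hbase hη0.le
  rcases lt_or_ge (|x₂| ^ 3) (16 * |d|) with hsm | hlg
  · have h1 : |(x₂ : ℝ)| ^ 3 < 16 * |(d : ℝ)| := by exact_mod_cast hsm
    calc |(x₂ : ℝ)| ^ 3 ≤ 16 * |(d : ℝ)| := h1.le
      _ ≤ (C' + 16) * |(d : ℝ)| := by nlinarith
      _ ≤ (C' + 16) * |(d : ℝ)| * (|(x₁ : ℝ)| ^ 2 * |(x₂ : ℝ)|) ^ η :=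
          le_mul_of_one_le_right (by positivity) hpow
  · have hx2p : 0 < x₂ := pos_of_large e₂ hd hlg
    have hx1p : 0 < x₁ := pos_of_large e₁ hd (hlg.trans (pow_le_pow_left₀ (abs_nonneg _) hle 3))
    rw [abs_of_pos hx2p, abs_of_pos hx1p] at hle
    rw [abs_of_pos hx2p] at hlg
    have hx2R : (0 : ℝ) < x₂ := by exact_mod_cast hx2p
    have hx1R : (0 : ℝ) < x₁ := by exact_mod_cast hx1p
    have hleR' : (x₂ : ℝ) ≤ x₁ := by exact_mod_cast hle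
    have hlgR : 16 * |(d : ℝ)| ≤ (x₂ : ℝ) ^ 3 := by exact_mod_cast hlg
    have hsub : (0 : ℝ) < (x₁ : ℝ) - x₂ := by
      have : x₂ < x₁ := lt_of_le_of_ne hle (Ne.symm hne)
      have : (x₂ : ℝ) < x₁ := by exact_mod_cast this
      linarith
    obtain ⟨s1, s2⟩ := diff_size (x₁ := (x₁ : ℝ)) (x₂ := (x₂ : ℝ)) (y₁ := (y₁ : ℝ))
      (y₂ := (y₂ : ℝ)) (d := (d : ℝ)) (by exact_mod_cast e₁) (by exact_mod_cast e₂) hx2R hleR' hlgR
    -- the integers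
    set p : ℤ := (y₁ + y₂) ^ 2 - (x₁ + x₂) * (x₁ - x₂) ^ 2 with hp
    have hpR : (p : ℝ) = ((y₁ : ℝ) + y₂) ^ 2 - ((x₁ : ℝ) + x₂) * ((x₁ : ℝ) - x₂) ^ 2 := by
      rw [hp]
      push_cast
      ring
    rw [← hpR] at s1 s2
    have hppos : (0 : ℝ) < p := by
      have : 0 < (x₂ : ℝ) * ((x₁ : ℝ) - x₂) ^ 2 := by positivity
      linarith
    have hp0 : p ≠ 0 := by
      intro h
      rw [h] at hppos
      simp at hppos
    have hne' : x₁ - x₂ ≠ 0 := sub_ne_zero.2 hne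
    -- the difference
    have hneK : (x₁ : K) ≠ (x₂ : K) := by exact_mod_cast hne
    have hsubK : (x₁ : K) - x₂ ≠ 0 := sub_ne_zero.2 hneK
    have hadd : (WeierstrassCurve.Affine.Point.some (x₁ : K) (y₁ : K) h₁ : (E K 0 d).Point) -
        WeierstrassCurve.Affine.Point.some (x₂ : K) (y₂ : K) h₂ =
        WeierstrassCurve.Affine.Point.some (x₁ : K) (y₁ : K) h₁ +
        WeierstrassCurve.Affine.Point.some (x₂ : K) ((E K 0 d).negY (x₂ : K) (y₂ : K))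
          ((WeierstrassCurve.Affine.nonsingular_neg _ _).2 h₂) := by
      rw [sub_eq_add_neg, WeierstrassCurve.Affine.Point.neg_some]
    rw [hadd, WeierstrassCurve.Affine.Point.add_of_X_ne hneK] at hP
    set r : K := (E K 0 d).addX (x₁ : K) (x₂ : K) ((E K 0 d).slope (x₁ : K) (x₂ : K) (y₁ : K)
      ((E K 0 d).negY (x₂ : K) (y₂ : K))) with hr
    have hrp : r * ((x₁ : K) - x₂) ^ 2 = (p : K) := by
      rw [hr, WeierstrassCurve.Affine.slope_of_X_ne hneK, WeierstrassCurve.Affine.addX,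
        WeierstrassCurve.Affine.negY, hp]
      simp only [E]
      push_cast
      field_simp
      ring
    have hcancel : ∀ P : (E K 0 d).Point, k • P = k • (m • Q) → n • P = n • (m • Q) := by
      intro P hP'
      have h0 := htors d hd (P - m • Q) ⟨k, Nat.one_le_iff_ne_zero.2 hk, by
        rw [nsmul_sub, hP', sub_self]⟩
      rw [nsmul_sub, sub_eq_zero] at h0
      exact h0
    have hT := hcancel _ hP
    have hdK : (d : K) ≠ 0 := Int.cast_ne_zero.2 hd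
    have h1 := hC d r _ _ Q (p ^ 3) (d * (x₁ - x₂) ^ 6) hd (pow_ne_zero 3 hp0)
      (mul_ne_zero hd (pow_ne_zero 6 hne')) (by
        push_cast
        rw [← hrp]
        field_simp) hT
    -- sizes
    set x1 : ℝ := (x₁ : ℝ) with hx1
    set x2 : ℝ := (x₂ : ℝ) with hx2
    have ha : |((p ^ 3 : ℤ) : ℝ)| = (p : ℝ) ^ 3 := by
      push_cast
      rw [abs_of_pos (by positivity)]
    have hb : |((d * (x₁ - x₂) ^ 6 : ℤ) : ℝ)| = |(d : ℝ)| * (x1 - x2) ^ 6 := by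
      push_cast
      rw [abs_mul, abs_of_pos (show 0 < (x1 - x2) ^ 6 by positivity)]
    rw [ha, hb] at h1
    have hY : (1 : ℝ) ≤ x1 ^ 2 * x2 := by
      rw [abs_of_pos hx1R, abs_of_pos hx2R] at hbase
      exact hbase
    have hmax : max ((p : ℝ) ^ 3) (|(d : ℝ)| * (x1 - x2) ^ 6) ≤ 125 * (x1 ^ 2 * x2) ^ 3 := by
      apply max_le
      · calc (p : ℝ) ^ 3 ≤ (5 * (x1 ^ 2 * x2)) ^ 3 := pow_le_pow_left₀ hppos.le s2 3
          _ = _ := by ring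
      · have g1 : (x1 - x2) ^ 6 ≤ x1 ^ 6 := pow_le_pow_left₀ hsub.le (by linarith) 6
        have g2 : |(d : ℝ)| ≤ x2 ^ 3 := by linarith
        calc |(d : ℝ)| * (x1 - x2) ^ 6 ≤ x2 ^ 3 * x1 ^ 6 :=
              mul_le_mul g2 g1 (by positivity) (by positivity)
          _ = (x1 ^ 2 * x2) ^ 3 := by ring
          _ ≤ _ := by
              have : 0 ≤ (x1 ^ 2 * x2) ^ 3 := by positivity
              linarith
    have hratio : x2 ^ 3 / (1000 * |(d : ℝ)|) ≤ (p : ℝ) ^ 3 / (|(d : ℝ)| * (x1 - x2) ^ 6) := by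
      rw [div_le_div_iff₀ (by positivity) (by positivity)]
      have g3 : (x2 * (x1 - x2) ^ 2) ^ 3 ≤ (10 * (p : ℝ)) ^ 3 :=
        pow_le_pow_left₀ (by positivity) s1 3
      have g4 := mul_le_mul_of_nonneg_left g3 hd0.le
      calc x2 ^ 3 * (|(d : ℝ)| * (x1 - x2) ^ 6) = |(d : ℝ)| * (x2 * (x1 - x2) ^ 2) ^ 3 := by ring
        _ ≤ _ := g4
        _ = _ := by ring
    have l1 := Real.log_le_log (by positivity) hratio
    have hcoef : 0 ≤ 6 * (2 + ε) / N := by positivity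
    have l2 := Real.log_le_log (lt_max_of_lt_left (by positivity)) hmax
    rw [Real.log_mul (by norm_num) (by positivity), Real.log_pow] at l2
    rw [Real.log_div (by positivity) (by positivity), Real.log_mul (by norm_num) hd0.ne'] at l1
    have l3 := mul_le_mul_of_nonneg_left l2 hcoef
    have l4 := le_abs_self C
    have hηε : 6 * (2 + ε) / N * ((3 : ℕ) * Real.log (x1 ^ 2 * x2)) = η * Real.log (x1 ^ 2 * x2) := by
      rw [hε]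
      push_cast
      field_simp
      ring
    have l5 : Real.log (x2 ^ 3) ≤ (|C| + Real.log 1000 + 6 * (2 + ε) / N * Real.log 125) +
        Real.log |(d : ℝ)| + η * Real.log (x1 ^ 2 * x2) := by
      rw [← hηε]
      linarith
    have l6 := Real.exp_le_exp.2 l5
    rw [Real.exp_log (by positivity), Real.exp_add, Real.exp_add, Real.exp_log hd0, ← hC'] at l6
    rw [abs_of_pos hx1R, abs_of_pos hx2R, Real.rpow_def_of_pos (by positivity),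
      mul_comm (Real.log _) η]
    have g5 : 0 < |(d : ℝ)| * Real.exp (η * Real.log (x1 ^ 2 * x2)) := by positivity
    nlinarith

/-- Hall's inequality for the smaller one of two congruent points -/
theorem divB' (K : Type) [Field K] [NumberField K] [DecidableEq K] (m : ℕ) (hm : 2 ≤ m)
    (A κ : ℝ) (hA : 1 ≤ A) (hκ : 0 < κ) (hAκ : 36 * (2 * A + 1) / (m : ℝ) ^ 2 < 3 - 1 / κ)
    (W : ℤ → WeierstrassCurve.Affine K) (hW : ∀ d, W d = E K 0 d) :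
    ∃ C : ℝ, ∀ d x₁ y₁ x₂ y₂ : ℤ, d ≠ 0 → y₁ ^ 2 = x₁ ^ 3 + d → y₂ ^ 2 = x₂ ^ 3 + d →
      |x₂| ≤ |x₁| → x₁ ≠ x₂ → |(x₁ : ℝ)| ≤ |(x₂ : ℝ)| ^ A →
      ∀ (h₁ : (W d).Nonsingular (x₁ : K) (y₁ : K)) (h₂ : (W d).Nonsingular (x₂ : K) (y₂ : K))
      (Q : (W d).Point) (k : ℕ), k ≠ 0 →
      k • ((WeierstrassCurve.Affine.Point.some (x₁ : K) (y₁ : K) h₁ : (W d).Point) -
        WeierstrassCurve.Affine.Point.some (x₂ : K) (y₂ : K) h₂) = k • (m • Q) →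
      |(x₂ : ℝ)| ≤ C * |(d : ℝ)| ^ κ := by
  have hA2 : 0 < 2 * A + 1 := by linarith
  have hm4 : (0 : ℝ) < (m : ℝ) ^ 2 := by
    have : (2 : ℝ) ≤ m := by exact_mod_cast hm
    positivity
  set η : ℝ := (3 - 1 / κ) / (2 * A + 1) with hη
  have hη1 : 36 / (m : ℝ) ^ 2 < η := by
    rw [hη, lt_div_iff₀ hA2]
    calc 36 / (m : ℝ) ^ 2 * (2 * A + 1) = 36 * (2 * A + 1) / (m : ℝ) ^ 2 := by ring
      _ < _ := hAκ
  obtain ⟨C, hC1, hC⟩ := divB K m hm η hη1 W hW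
  have hC0 : 0 < C := by linarith
  refine ⟨C ^ κ, ?_⟩
  intro d x₁ y₁ x₂ y₂ hd e₁ e₂ hle hne hA' h₁ h₂ Q k hk hP
  have h := hC d x₁ y₁ x₂ y₂ hd e₁ e₂ hle hne h₁ h₂ Q k hk hP
  have hd1 : (1 : ℝ) ≤ |(d : ℝ)| := by
    have : (1 : ℤ) ≤ |d| := Int.one_le_abs hd
    exact_mod_cast this
  have hd0 : (0 : ℝ) < |(d : ℝ)| := by linarith
  rcases eq_or_ne x₂ 0 with rfl | hx20
  · simp only [Int.cast_zero, abs_zero]
    positivity
  have hx21 : (1 : ℝ) ≤ |(x₂ : ℝ)| := by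
    have : (1 : ℤ) ≤ |x₂| := Int.one_le_abs hx20
    exact_mod_cast this
  set X : ℝ := |(x₂ : ℝ)| with hX
  have hX0 : 0 < X := by linarith
  have hη0 : 0 < η := lt_trans (by positivity) hη1
  have h1 : (|(x₁ : ℝ)| ^ 2 * X) ^ η ≤ X ^ (3 - 1 / κ) := by
    have h2 : |(x₁ : ℝ)| ^ 2 * X ≤ X ^ (2 * A + 1) := by
      have h3 : |(x₁ : ℝ)| ^ 2 ≤ (X ^ A) ^ 2 := pow_le_pow_left₀ (abs_nonneg _) hA' 2
      rw [Real.rpow_add hX0, Real.rpow_one]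
      refine mul_le_mul_of_nonneg_right (h3.trans (le_of_eq ?_)) hX0.le
      rw [← Real.rpow_natCast, ← Real.rpow_mul hX0.le]
      congr 1
      push_cast
      ring
    refine (Real.rpow_le_rpow (by positivity) h2 hη0.le).trans (le_of_eq ?_)
    rw [← Real.rpow_mul hX0.le]
    congr 1
    rw [hη]
    field_simp
  have h4 : X ^ (3 : ℝ) ≤ C * |(d : ℝ)| * X ^ (3 - 1 / κ) := by
    have e3 : X ^ (3 : ℝ) = X ^ 3 := by
      rw [← Real.rpow_natCast]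
      norm_num
    rw [e3]
    exact h.trans (mul_le_mul_of_nonneg_left h1 (by positivity))
  have h5 : X ^ (1 / κ) ≤ C * |(d : ℝ)| := by
    have h6 : X ^ (3 : ℝ) = X ^ (1 / κ) * X ^ (3 - 1 / κ) := by
      rw [← Real.rpow_add hX0]
      congr 1
      ring
    rw [h6] at h4
    exact le_of_mul_le_mul_right h4 (by positivity)
  calc X = (X ^ (1 / κ)) ^ κ := by
        rw [← Real.rpow_mul hX0.le, one_div, inv_mul_cancel₀ hκ.ne', Real.rpow_one]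
    _ ≤ (C * |(d : ℝ)|) ^ κ := Real.rpow_le_rpow (by positivity) h5 hκ.le
    _ = C ^ κ * |(d : ℝ)| ^ κ := Real.mul_rpow hC0.le hd0.le

end Pool.Agent.K3h44.HP
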