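import Mathlib
import Pool.Agent.K3h44.HP.DivB

/-!
# Strong repulsion of congruent integral points on Mordell curves

Two integral points `P₁`, `P₂` of the same Mordell curve `y ^ 2 = x ^ 3 + d` are called congruent
modulo `m` over the number field `K` if `P₁ - P₂` is divisible by `m` in the group of the
`K`-rational points modulo torsion. If both points are large, their difference is near the point at
infinity, its height is bounded by those of the two points, and it is `m` times a point over `K`;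
by Roth's theorem (uniformly in `d`) this is impossible if `m` is large. Hence
`|x₂| ^ 3 ≤ C |d| (|x₁| ^ 2 |x₂|) ^ (36 / m ^ 2 + ε)` if `|x₂| ≤ |x₁|`, `x₁ ≠ x₂`, and Hall's
inequality holds for the smaller one of two congruent points of comparable size.
-/

set_option autoImplicit false

namespace Pool.Agent.Results.MP_9d7cd1_nt.CongruentPoints

/-- The Mordell curve `y ^ 2 = x ^ 3 + d` over the field `K`, as a Weierstrass curve. -/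
def mordell (K : Type) [Field K] (d : ℤ) : WeierstrassCurve.Affine K := ⟨0, 0, 0, 0, (d : K)⟩

/-- The points `(x₁, y₁)` and `(x₂, y₂)` of `y ^ 2 = x ^ 3 + d` are congruent modulo `m` over `K`,
modulo torsion: `k ((x₁, y₁) - (x₂, y₂)) = k (m Q)` for some `k ≠ 0` and a point `Q` over `K`. -/
def Congruent (K : Type) [Field K] [DecidableEq K] (m : ℕ) (d x₁ y₁ x₂ y₂ : ℤ) : Prop :=
  ∃ (h₁ : (mordell K d).Nonsingular (x₁ : K) (y₁ : K))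
    (h₂ : (mordell K d).Nonsingular (x₂ : K) (y₂ : K)) (Q : (mordell K d).Point) (k : ℕ), k ≠ 0 ∧
    k • ((WeierstrassCurve.Affine.Point.some (x₁ : K) (y₁ : K) h₁ : (mordell K d).Point) -
      WeierstrassCurve.Affine.Point.some (x₂ : K) (y₂ : K) h₂) = k • (m • Q)

/-- Let `K` be a number field and `m ≥ 2`.
1. For `η > 36 / m ^ 2` there is a constant `C` such that all integral points `(x₁, y₁)`,
`(x₂, y₂)`, `|x₂| ≤ |x₁|`, `x₁ ≠ x₂`, of all Mordell curves `y ^ 2 = x ^ 3 + d`, `d ≠ 0`, which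
are congruent modulo `m` over `K` modulo torsion, satisfy
`|x₂| ^ 3 ≤ C |d| (|x₁| ^ 2 |x₂|) ^ η`.
2. If moreover `|x₁| ≤ |x₂| ^ A` and `36 (2 A + 1) / m ^ 2 < 3 - 1 / κ`, then
`|x₂| ≤ C |d| ^ κ` (Hall's inequality, if `κ = 2` and `m ^ 2 > 72 (2 A + 1) / 5`). -/
theorem result (K : Type) [Field K] [NumberField K] [DecidableEq K] (m : ℕ) (hm : 2 ≤ m) :
    (∀ η : ℝ, 36 / (m : ℝ) ^ 2 < η → ∃ C : ℝ, ∀ d x₁ y₁ x₂ y₂ : ℤ, d ≠ 0 →
      y₁ ^ 2 = x₁ ^ 3 + d → y₂ ^ 2 = x₂ ^ 3 + d → |x₂| ≤ |x₁| → x₁ ≠ x₂ →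
      Congruent K m d x₁ y₁ x₂ y₂ →
      |(x₂ : ℝ)| ^ 3 ≤ C * |(d : ℝ)| * (|(x₁ : ℝ)| ^ 2 * |(x₂ : ℝ)|) ^ η) ∧
    (∀ A κ : ℝ, 1 ≤ A → 0 < κ → 36 * (2 * A + 1) / (m : ℝ) ^ 2 < 3 - 1 / κ →
      ∃ C : ℝ, ∀ d x₁ y₁ x₂ y₂ : ℤ, d ≠ 0 →
      y₁ ^ 2 = x₁ ^ 3 + d → y₂ ^ 2 = x₂ ^ 3 + d → |x₂| ≤ |x₁| → x₁ ≠ x₂ →
      |(x₁ : ℝ)| ≤ |(x₂ : ℝ)| ^ A → Congruent K m d x₁ y₁ x₂ y₂ →
      |(x₂ : ℝ)| ≤ C * |(d : ℝ)| ^ κ) := by
  have hW : ∀ d, mordell K d = Pool.Agent.Y674.TR.E K 0 d := fun d => by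
    simp [mordell, Pool.Agent.Y674.TR.E]
  constructor
  · intro η hη
    obtain ⟨C, -, hC⟩ := Pool.Agent.K3h44.HP.divB K m hm η hη (mordell K) hW
    refine ⟨C, ?_⟩
    rintro d x₁ y₁ x₂ y₂ hd e₁ e₂ hle hne ⟨h₁, h₂, Q, k, hk, hP⟩
    exact hC d x₁ y₁ x₂ y₂ hd e₁ e₂ hle hne h₁ h₂ Q k hk hP
  · intro A κ hA hκ hAκ
    obtain ⟨C, hC⟩ := Pool.Agent.K3h44.HP.divB' K m hm A κ hA hκ hAκ (mordell K) hW
    refine ⟨C, ?_⟩
    rintro d x₁ y₁ x₂ y₂ hd e₁ e₂ hle hne hxA ⟨h₁, h₂, Q, k, hk, hP⟩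
    exact hC d x₁ y₁ x₂ y₂ hd e₁ e₂ hle hne hxA h₁ h₂ Q k hk hP

end Pool.Agent.Results.MP_9d7cd1_nt.CongruentPoints
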