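import Mathlib
import Pool.Agent.K3h44.HP.Core

/-!
Integral points which are divisible by `m` modulo torsion.
-/

set_option autoImplicit false

namespace Pool.Agent.K3h44.HP

open Polynomial NumberField Height Module
open Pool.Agent.Y674.TR (E)

theorem divA (K : Type) [Field K] [NumberField K] [DecidableEq K] (m : ℕ) (hm : 4 ≤ m)
    (κ : ℝ) (hκ : (m : ℝ) ^ 2 / (3 * ((m : ℝ) ^ 2 - 12)) < κ)
    (W : ℤ → WeierstrassCurve.Affine K) (hW : ∀ d, W d = E K 0 d) :
    ∃ C : ℝ, ∀ d x y : ℤ, d ≠ 0 → y ^ 2 = x ^ 3 + d →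
      ∀ (h : (W d).Nonsingular (x : K) (y : K)) (Q : (W d).Point) (k : ℕ), k ≠ 0 →
      k • (WeierstrassCurve.Affine.Point.some (x : K) (y : K) h : (W d).Point) = k • (m • Q) →
      |(x : ℝ)| ≤ C * |(d : ℝ)| ^ κ ∧ |(y : ℝ)| ≤ C * |(d : ℝ)| ^ (3 * κ / 2) := by
  obtain rfl : W = fun d => E K 0 d := funext hW
  obtain ⟨n, hn, htors⟩ := tors_exp K
  have hm16 : (16 : ℝ) ≤ (m : ℝ) ^ 2 := by
    have : (4 : ℝ) ≤ m := by exact_mod_cast hm
    nlinarith
  set N : ℝ := (m : ℝ) ^ 2 with hN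
  have hn12 : 0 < N - 12 := by linarith
  have hκ3 : 1 / 3 < κ := by
    refine lt_of_le_of_lt ?_ hκ
    rw [div_le_div_iff₀ (by norm_num) (by positivity)]
    linarith
  have hκ0 : 0 < κ := by linarith
  rw [div_lt_iff₀ (by positivity)] at hκ
  set ε : ℝ := (3 * κ * (N - 12) - N) / (18 * κ) with hε
  have hε0 : 0 < ε := by
    rw [hε]
    apply div_pos <;> nlinarith
  have hεκ : 18 * κ * ε = 3 * κ * (N - 12) - N := by
    rw [hε]
    field_simp
  obtain ⟨C, hC⟩ := core K m n (by omega) hn ε hε0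
  set C' : ℝ := Real.exp (κ * |C|) with hC'
  have hC'1 : 1 ≤ C' := by
    rw [hC']
    exact Real.one_le_exp (by positivity)
  refine ⟨C' ^ 2 + 1, ?_⟩
  intro d x y hd hxy h Q k hk hP
  have hd1 : (1 : ℝ) ≤ |(d : ℝ)| := by
    have : (1 : ℤ) ≤ |d| := Int.one_le_abs hd
    exact_mod_cast this
  have hd0 : (0 : ℝ) < |(d : ℝ)| := by linarith
  have hdκ : (1 : ℝ) ≤ |(d : ℝ)| ^ κ := Real.one_le_rpow hd1 hκ0.le
  have hx : |(x : ℝ)| ≤ C' * |(d : ℝ)| ^ κ := by
    rcases eq_or_ne x 0 with rfl | hx0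
    · simp only [Int.cast_zero, abs_zero]
      positivity
    have hx1 : (1 : ℝ) ≤ |(x : ℝ)| := by
      have : (1 : ℤ) ≤ |x| := Int.one_le_abs hx0
      exact_mod_cast this
    have hld : 0 ≤ Real.log |(d : ℝ)| := Real.log_nonneg hd1
    have hlx : 0 ≤ Real.log |(x : ℝ)| := Real.log_nonneg hx1
    have hkey : Real.log |(x : ℝ)| ≤ κ * Real.log |(d : ℝ)| + κ * |C| := by
      rcases le_or_gt (|(x : ℝ)| ^ 3) |(d : ℝ)| with h3 | h3
      · have h4 := Real.log_le_log (by positivity) h3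
        rw [Real.log_pow] at h4
        push_cast at h4
        have h5 : 1 / 3 * Real.log |(d : ℝ)| ≤ κ * Real.log |(d : ℝ)| :=
          mul_le_mul_of_nonneg_right hκ3.le hld
        have h6 : 0 ≤ κ * |C| := by positivity
        linarith
      · have hT : n • ((WeierstrassCurve.Affine.Point.some (x : K) (y : K) h : (E K 0 d).Point)
            - m • Q) = 0 := by
          apply htors d hd
          refine ⟨k, Nat.one_le_iff_ne_zero.2 hk, ?_⟩
          rw [nsmul_sub, hP, sub_self]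
        rw [nsmul_sub, sub_eq_zero] at hT
        have h1 := hC d x y h Q (x ^ 3) d hd (pow_ne_zero 3 hx0) hd (by push_cast; rfl) hT
        have h2 : max |((x ^ 3 : ℤ) : ℝ)| |(d : ℝ)| = |(x : ℝ)| ^ 3 := by
          push_cast
          rw [abs_pow]
          exact max_eq_left h3.le
        rw [h2] at h1
        push_cast at h1
        rw [abs_pow, Real.log_div (by positivity) (by positivity), Real.log_pow] at h1
        push_cast at h1
        set lx := Real.log |(x : ℝ)|
        set ld := Real.log |(d : ℝ)|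
        have hCa := le_abs_self C
        have hN0 : 0 < N := by linarith
        have h5 : 3 * lx - ld ≤ 6 * (2 + ε) / N * (3 * lx) + |C| := by linarith
        have h6 := mul_le_mul_of_nonneg_left h5 hN0.le
        have h7 : N * (6 * (2 + ε) / N * (3 * lx) + |C|) = 18 * (2 + ε) * lx + N * |C| := by
          field_simp
          ring
        rw [h7] at h6
        have h8 : (3 * N - 18 * (2 + ε)) * lx ≤ N * ld + N * |C| := by linarith
        have h17 : κ * (3 * N - 18 * (2 + ε)) = N := by linear_combination -hεκ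
        have h18 := mul_le_mul_of_nonneg_left h8 hκ0.le
        have h19 : N * lx ≤ N * (κ * ld + κ * |C|) := by
          calc N * lx = κ * ((3 * N - 18 * (2 + ε)) * lx) := by
                rw [← mul_assoc, h17]
            _ ≤ _ := h18
            _ = _ := by ring
        exact le_of_mul_le_mul_left h19 hN0
    have h20 := Real.exp_le_exp.2 hkey
    rw [Real.exp_log (by linarith), Real.exp_add] at h20
    rw [hC', Real.rpow_def_of_pos hd0, mul_comm (Real.log |(d : ℝ)|) κ]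
    linarith
  refine ⟨hx.trans ?_, ?_⟩
  · refine mul_le_mul_of_nonneg_right ?_ (by positivity)
    nlinarith
  · have h1 : |(y : ℝ)| ^ 2 ≤ ((C' ^ 2 + 1) * |(d : ℝ)| ^ (3 * κ / 2)) ^ 2 := by
      have e1 : (|(d : ℝ)| ^ (3 * κ / 2)) ^ 2 = |(d : ℝ)| ^ (3 * κ) := by
        rw [← Real.rpow_natCast, ← Real.rpow_mul hd0.le]
        congr 1
        push_cast
        ring
      have e2 : |(d : ℝ)| ^ (3 * κ) = (|(d : ℝ)| ^ κ) ^ 3 := by
        rw [← Real.rpow_natCast, ← Real.rpow_mul hd0.le]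
        congr 1
        push_cast
        ring
      have e3 : |(d : ℝ)| ≤ |(d : ℝ)| ^ (3 * κ) := by
        have : (1 : ℝ) ≤ 3 * κ := by linarith
        calc |(d : ℝ)| = |(d : ℝ)| ^ (1 : ℝ) := (Real.rpow_one _).symm
          _ ≤ _ := Real.rpow_le_rpow_of_exponent_le hd1 this
      have e4 : |(y : ℝ)| ^ 2 ≤ |(x : ℝ)| ^ 3 + |(d : ℝ)| := by
        rw [sq_abs]
        have : ((y : ℝ)) ^ 2 = (x : ℝ) ^ 3 + d := by exact_mod_cast hxy
        rw [this, ← abs_pow]
        exact add_le_add (le_abs_self _) (le_abs_self _)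
      have e5 : |(x : ℝ)| ^ 3 ≤ C' ^ 3 * |(d : ℝ)| ^ (3 * κ) := by
        rw [e2, ← mul_pow]
        exact pow_le_pow_left₀ (abs_nonneg _) hx 3
      rw [mul_pow, e1]
      have e6 : C' ^ 3 + 1 ≤ (C' ^ 2 + 1) ^ 2 := by
        nlinarith [pow_pos (show 0 < C' by linarith) 3, sq_nonneg (C' ^ 2 - C'),
          mul_nonneg (show 0 ≤ C' - 1 by linarith) (pow_nonneg (show 0 ≤ C' by linarith) 3)]
      calc |(y : ℝ)| ^ 2 ≤ C' ^ 3 * |(d : ℝ)| ^ (3 * κ) + |(d : ℝ)| ^ (3 * κ) := by linarith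
        _ = (C' ^ 3 + 1) * |(d : ℝ)| ^ (3 * κ) := by ring
        _ ≤ _ := mul_le_mul_of_nonneg_right e6 (by positivity)
    exact le_of_sq_le_sq h1 (by positivity)

end Pool.Agent.K3h44.HP
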