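import Mathlib
import Pool.Agent.K3h44.HP.Tors

/-!
Heights of values of rational functions, uniformly in the number field.
-/

set_option autoImplicit false

namespace Pool.Agent.K3h44.HP

open Polynomial NumberField Height Module

/-- clearing denominators -/
theorem clear1 (P : ℚ[X]) : ∃ b : ℤ, b ≠ 0 ∧ ∃ p : ℤ[X], p.map (Int.castRingHom ℚ) = C (b : ℚ) * P := by
  obtain ⟨b, hb1, hb⟩ := IsLocalization.integerNormalization_spec (S := ℚ) (nonZeroDivisors ℤ) P
  refine ⟨b, nonZeroDivisors.ne_zero hb1,
    IsLocalization.integerNormalization (nonZeroDivisors ℤ) P, ?_⟩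
  have h1 : (algebraMap ℤ ℚ) = Int.castRingHom ℚ := rfl
  rw [h1] at hb
  rw [hb]
  ext i
  simp

theorem clear4 (P : Fin 2 → Fin 2 → ℚ[X]) : ∃ b : ℤ, b ≠ 0 ∧ ∃ p : Fin 2 → Fin 2 → ℤ[X],
    ∀ i j, (p i j).map (Int.castRingHom ℚ) = C (b : ℚ) * P i j := by
  choose b hb p hp using fun i j => clear1 (P i j)
  refine ⟨∏ i, ∏ j, b i j, Finset.prod_ne_zero_iff.2 fun i _ => Finset.prod_ne_zero_iff.2
    fun j _ => hb i j, ?_⟩
  have h1 : ∀ i j, ∃ c : ℤ, ∏ i, ∏ j, b i j = c * b i j := by
    intro i j
    have h2 : b i j ∣ ∏ j, b i j := Finset.dvd_prod_of_mem _ (Finset.mem_univ j)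
    have h3 : (∏ j, b i j) ∣ ∏ i, ∏ j, b i j :=
      Finset.dvd_prod_of_mem (fun i => ∏ j, b i j) (Finset.mem_univ i)
    obtain ⟨c, hc⟩ := h2.trans h3
    exact ⟨c, by rw [hc, mul_comm]⟩
  choose c hc using h1
  refine ⟨fun i j => C (c i j) * p i j, fun i j => ?_⟩
  rw [Polynomial.map_mul, hp, map_C, ← mul_assoc, ← C_mul, hc i j]
  push_cast
  rfl

/-- the constant in the bound is uniform for integral polynomials -/
theorem bound_unif {ι σ : Type} [Finite ι] [Nonempty ι] (Q : ι → MvPolynomial σ ℤ) :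
    ∃ κ : ℝ, 1 ≤ κ ∧ ∀ (K : Type) [Field K] [NumberField K],
      mulHeightBound (fun i => (Q i).map (Int.castRingHom K)) ≤ κ ^ totalWeight K := by
  classical
  have := Fintype.ofFinite ι
  set S : ℝ := 1 + ∑ i, ∑ s ∈ (Q i).support, |((MvPolynomial.coeff s (Q i) : ℤ) : ℝ)| with hS
  have hS0 : ∀ i, ∑ s ∈ (Q i).support, |((MvPolynomial.coeff s (Q i) : ℤ) : ℝ)| ≤
      ∑ i, ∑ s ∈ (Q i).support, |((MvPolynomial.coeff s (Q i) : ℤ) : ℝ)| := fun i =>
    Finset.single_le_sum (f := fun i => ∑ s ∈ (Q i).support,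
      |((MvPolynomial.coeff s (Q i) : ℤ) : ℝ)|) (fun _ _ => by positivity) (Finset.mem_univ i)
  have hS1 : 1 ≤ S := by
    have : 0 ≤ ∑ i, ∑ s ∈ (Q i).support, |((MvPolynomial.coeff s (Q i) : ℤ) : ℝ)| := by positivity
    linarith
  refine ⟨S, hS1, ?_⟩
  intro K _ _
  rw [mulHeightBound_eq]
  have hnon : ∏ᶠ v : (AdmissibleAbsValues.nonarchAbsVal (K := K)), ⨆ j,
      max (⨆ s : ((Q j).map (Int.castRingHom K)).support,
        v.val (MvPolynomial.coeff s ((Q j).map (Int.castRingHom K)))) 1 = 1 := by
    refine finprod_eq_one_of_forall_eq_one fun v => ?_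
    have hle : ∀ a : ℤ, v.val (a : K) ≤ 1 := fun a =>
      (AdmissibleAbsValues.isNonarchimedean v.1 v.2).apply_intCast_le_one
    apply le_antisymm
    · refine ciSup_le fun j => max_le (Real.iSup_le (fun s => ?_) zero_le_one) le_rfl
      rw [MvPolynomial.coeff_map]
      exact hle _
    · obtain ⟨j0⟩ := ‹Nonempty ι›
      exact (le_max_right _ _).trans (le_ciSup (f := fun j =>
        max (⨆ s : ((Q j).map (Int.castRingHom K)).support,
        v.val (MvPolynomial.coeff s ((Q j).map (Int.castRingHom K)))) 1)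
        (Set.finite_range _).bddAbove j0)
  have harch : ((AdmissibleAbsValues.archAbsVal (K := K)).map fun v ↦ ⨆ j,
      (AddMonoidAlgebra.coeff <| (Q j).map (Int.castRingHom K)).sum (fun _ c ↦ v c)).prod ≤
      S ^ totalWeight K := by
    have h1 : S ^ totalWeight K =
        ((AdmissibleAbsValues.archAbsVal (K := K)).map fun _ => S).prod := by
      rw [Multiset.map_const', Multiset.prod_replicate]
      rfl
    rw [h1]
    refine Multiset.prod_map_le_prod_map₀ _ _ (fun v _ => ?_) (fun v hv => ?_)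
    · exact Real.iSup_nonneg fun j => Finsupp.sum_nonneg fun _ _ => v.nonneg _
    · have hv' : IsInfinitePlace v := mem_multisetInfinitePlace.1 hv
      have hint : ∀ a : ℤ, v (a : K) = |(a : ℝ)| := fun a => place_int (⟨v, hv'⟩ : InfinitePlace K) a
      refine ciSup_le fun j => ?_
      have h2 : (AddMonoidAlgebra.coeff <| (Q j).map (Int.castRingHom K)).sum (fun _ c ↦ v c) ≤
          ∑ s ∈ (Q j).support, |((MvPolynomial.coeff s (Q j) : ℤ) : ℝ)| := by
        rw [Finsupp.sum]
        have h3 : ∀ s, v (MvPolynomial.coeff s ((Q j).map (Int.castRingHom K))) =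
            |((MvPolynomial.coeff s (Q j) : ℤ) : ℝ)| := by
          intro s
          rw [MvPolynomial.coeff_map]
          exact hint _
        calc _ = ∑ s ∈ ((Q j).map (Int.castRingHom K)).support,
              |((MvPolynomial.coeff s (Q j) : ℤ) : ℝ)| := Finset.sum_congr rfl fun s _ => h3 s
          _ ≤ _ := Finset.sum_le_sum_of_subset_of_nonneg
              (MvPolynomial.support_map_subset _ _) fun _ _ _ => abs_nonneg _
      have h4 := hS0 j
      linarith
  rw [hnon, mul_one]
  exact harch

/-- the lower bound for the height of a value, uniformly in the number field -/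
theorem height_lower_unif {A B : ℤ[X]} {n : ℕ} (hA : A.Monic) (hdA : A.natDegree = n)
    (hdB : B.natDegree ≤ n)
    (hcop : IsCoprime (A.map (Int.castRingHom ℚ)) (B.map (Int.castRingHom ℚ))) :
    ∃ C : ℝ, 0 ≤ C ∧ ∀ (K : Type) [Field K] [NumberField K] (t : K),
      n * logHeight ![t, 1] ≤ logHeight ![aeval t A, aeval t B] + finrank ℚ K * C := by
  classical
  have hinj : Function.Injective (Int.castRingHom ℚ) := Int.cast_injective
  have hAQ : (A.map (Int.castRingHom ℚ)).natDegree = n := by
    rw [natDegree_map_eq_of_injective hinj, hdA]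
  have hBQ : (B.map (Int.castRingHom ℚ)).natDegree ≤ n := by
    rw [natDegree_map_eq_of_injective hinj]
    exact hdB
  obtain ⟨U0, V0, hU0, hV0, h0⟩ := bezout (hA.map _) hAQ hBQ hcop (X ^ (2 * n)) (by
    rw [natDegree_X_pow])
  obtain ⟨U1, V1, hU1, hV1, h1⟩ := bezout (hA.map _) hAQ hBQ hcop 1 (by simp)
  obtain ⟨b, hb, p, hp⟩ := clear4 (fun i j => !![U0, V0; U1, V1] i j)
  have hdeg : ∀ i j, (p i j).natDegree ≤ n := by
    intro i j
    have h2 : (p i j).natDegree ≤ (!![U0, V0; U1, V1] i j).natDegree := by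
      rw [← natDegree_map_eq_of_injective hinj, hp]
      exact natDegree_C_mul_le _ _
    refine h2.trans ?_
    fin_cases i <;> fin_cases j
    · exact hU0
    · exact hV0
    · exact hU1
    · exact hV1
  have hr0 : p 0 0 * A + p 0 1 * B = C b * X ^ (2 * n) := by
    apply Polynomial.map_injective _ hinj
    rw [Polynomial.map_add, Polynomial.map_mul, Polynomial.map_mul, Polynomial.map_mul, map_C,
      Polynomial.map_pow, map_X, hp, hp, ← h0]
    simp
    ring
  have hr1 : p 1 0 * A + p 1 1 * B = C b := by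
    apply Polynomial.map_injective _ hinj
    rw [Polynomial.map_add, Polynomial.map_mul, Polynomial.map_mul, map_C, hp, hp]
    change C ((b : ℤ) : ℚ) * U1 * A.map (Int.castRingHom ℚ) +
      C ((b : ℤ) : ℚ) * V1 * B.map (Int.castRingHom ℚ) = C ((b : ℤ) : ℚ)
    linear_combination (C ((b : ℤ) : ℚ)) * h1
  obtain ⟨κ, hκ1, hκ⟩ := bound_unif (ι := Fin 2 × Fin 2)
    (fun ij => (p ij.1 ij.2).homogenize n)
  refine ⟨Real.log 2 + Real.log κ, add_nonneg (Real.log_nonneg (by norm_num))
    (Real.log_nonneg hκ1), ?_⟩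
  intro K _ _ t
  have hbK : (b : K) ≠ 0 := Int.cast_ne_zero.2 hb
  have hhom : ∀ a : Fin 2 × Fin 2, (MvPolynomial.map (Int.castRingHom K)
      ((p a.1 a.2).homogenize n)).IsHomogeneous n := fun a =>
    (isHomogeneous_homogenize _).map _
  have hev : ∀ i j, MvPolynomial.eval ![t, 1] (MvPolynomial.map (Int.castRingHom K)
      ((p i j).homogenize n)) = aeval t (p i j) := by
    intro i j
    rw [← homogenize_map, eval_homogenize (natDegree_map_le.trans (hdeg i j)) _ (by simp)]
    simp only [Matrix.cons_val_zero, Matrix.cons_val_one, Matrix.cons_val_fin_one, div_one,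
      one_pow, mul_one]
    exact hevK t (p i j)
  have key := logHeight_eval_ge (M := n) (N := n) hhom
    (fun j => MvPolynomial.C (![aeval t A / (b : K), aeval t B / (b : K)] j)) (x := ![t, 1]) (by
      intro k
      fin_cases k
      · simp only [Fin.zero_eta, Fin.sum_univ_two, hev]
        have h4 := congrArg (aeval t) hr0
        rw [map_add, map_mul, map_mul, map_mul, aeval_C, map_pow, aeval_X] at h4
        simp only [MvPolynomial.eval_C, Matrix.cons_val_zero, Matrix.cons_val_one,
          Matrix.cons_val_fin_one]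
        rw [show n + n = 2 * n by ring]
        field_simp
        simpa using h4
      · simp only [Fin.mk_one, Fin.sum_univ_two, hev]
        have h4 := congrArg (aeval t) hr1
        rw [map_add, map_mul, map_mul, aeval_C] at h4
        simp only [MvPolynomial.eval_C, Matrix.cons_val_zero, Matrix.cons_val_one,
          Matrix.cons_val_fin_one, one_pow]
        field_simp
        simpa using h4)
  have e1 : logHeight (fun j : Fin 2 => MvPolynomial.eval ![t, 1]
      (MvPolynomial.C (![aeval t A / (b : K), aeval t B / (b : K)] j) :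
        MvPolynomial (Fin 2) K)) = logHeight ![aeval t A, aeval t B] := by
    rw [← logHeight_scale (a := aeval t A) (b := aeval t B) (inv_ne_zero hbK)]
    congr 1
    funext j
    fin_cases j
    · simp [div_eq_mul_inv]
    · simp [div_eq_mul_inv]
  rw [e1] at key
  have e2 : Real.log ((Nat.card (Fin 2) : ℝ) ^ totalWeight K *
      max (mulHeightBound fun a : Fin 2 × Fin 2 => MvPolynomial.map (Int.castRingHom K)
        ((p a.1 a.2).homogenize n)) 1) ≤ finrank ℚ K * (Real.log 2 + Real.log κ) := by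
    have e3 : max (mulHeightBound fun a : Fin 2 × Fin 2 => MvPolynomial.map (Int.castRingHom K)
        ((p a.1 a.2).homogenize n)) 1 ≤ κ ^ totalWeight K :=
      max_le (hκ K) (one_le_pow₀ hκ1)
    have e4 : (0 : ℝ) < max (mulHeightBound fun a : Fin 2 × Fin 2 =>
      MvPolynomial.map (Int.castRingHom K) ((p a.1 a.2).homogenize n)) 1 :=
      lt_max_of_lt_right one_pos
    have e5 := Real.log_le_log e4 e3
    rw [Nat.card_fin, Real.log_mul (by positivity) e4.ne', Real.log_pow]
    rw [Real.log_pow] at e5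
    rw [← totalWeight_eq_finrank]
    push_cast
    linarith
  linarith

end Pool.Agent.K3h44.HP
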