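import Mathlib
import Pool.Agent.K3h44.HP.Un1
import Pool.Agent.Helper259.HtExt

/-!
The characteristic polynomial of a number: integrality and size.
-/

set_option autoImplicit false

namespace Pool.Agent.K3h44.HP

open Polynomial NumberField Height Module

theorem mulHeight_scale {K : Type} [Field K] [NumberField K] {a b c : K} (hc : c ≠ 0) :
    mulHeight ![c * a, c * b] = mulHeight ![a, b] := by
  rw [← mulHeight_smul_eq_mulHeight ![a, b] hc]
  congr 1
  funext j
  fin_cases j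
  · simp
  · simp

theorem exists_intpoly (D : ℕ) : ∃ V : ℝ, 1 ≤ V ∧ ∀ (K : Type) [Field K] [NumberField K],
    ∀ (s : K) (e : Fin D ≃ (K →ₐ[ℚ] ℂ)), ∃ (y : ℕ → ℤ) (c : ℝ), 0 < c ∧
      (∀ k, ((y k : ℤ) : ℂ) = (c : ℂ) * (∏ i, (X - C (e i s))).coeff k) ∧
      c * ∏ i, max 1 ‖e i s‖ ≤ V * mulHeight ![s, 1] := by
  classical
  set W : Matrix (Fin (D + 1)) (Fin (D + 1)) ℤ :=
    Matrix.vandermonde (fun i : Fin (D + 1) => ((i : ℕ) : ℤ)) with hW
  have hdet : W.det ≠ 0 := by
    rw [hW, Matrix.det_vandermonde_ne_zero_iff]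
    intro i j h
    have h' : ((i : ℕ) : ℤ) = ((j : ℕ) : ℤ) := h
    have : (i : ℕ) = (j : ℕ) := by exact_mod_cast h'
    exact Fin.ext this
  obtain ⟨Δ, Ad, hΔ, hAd⟩ : ∃ (Δ : ℤ) (Ad : Fin (D + 1) → Fin (D + 1) → ℤ), Δ ≠ 0 ∧
      ∀ k l : Fin (D + 1), ∑ j : Fin (D + 1), Ad k j * ((j : ℕ) : ℤ) ^ (l : ℕ) =
        if k = l then Δ else 0 := by
    refine ⟨W.det, fun k j => W.adjugate k j, hdet, fun k l => ?_⟩
    have h13 := congrFun (congrFun (Matrix.adjugate_mul W) k) l
    rw [Matrix.mul_apply, Matrix.smul_apply, Matrix.one_apply] at h13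
    rw [show (∑ j : Fin (D + 1), W.adjugate k j * ((j : ℕ) : ℤ) ^ (l : ℕ)) =
      ∑ j, W.adjugate k j * W j l from rfl, h13]
    split_ifs <;> simp
  refine ⟨|(Δ : ℝ)|, by exact_mod_cast Int.one_le_abs hΔ, ?_⟩
  intro K _ _ s e
  have hD : finrank ℚ K = D := by
    have h1 := AlgHom.card ℚ K ℂ
    rw [← h1, ← Fintype.card_congr e, Fintype.card_fin]
  obtain ⟨n, hn0, -, hint⟩ := exists_nat_le_mulHeight₁ s
  have hnK : (n : K) ≠ 0 := by exact_mod_cast hn0
  have hnR : (0 : ℝ) < n := by exact_mod_cast Nat.pos_of_ne_zero hn0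
  let y0 : 𝓞 K := ⟨(n : K) * s, hint⟩
  have hy0 : (y0 : K) = (n : K) * s := rfl
  set u : Fin 2 → 𝓞 K := ![y0, (n : 𝓞 K)] with hu
  have hn𝓞 : (n : 𝓞 K) ≠ 0 := by exact_mod_cast hn0
  have hu0 : u ≠ 0 := by
    intro h
    have := congrFun h 1
    exact hn𝓞 this
  have huK : (fun j => (u j : K)) = ![(n : K) * s, (n : K) * 1] := by
    funext j
    fin_cases j
    · rfl
    · simp [hu]
  have h1 := Pool.Agent.R405.mulHeight_int u hu0
  rw [huK, mulHeight_scale hnK] at h1
  set I : Ideal (𝓞 K) := Ideal.span (Set.range u) with hI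
  have hI0 : 0 < Ideal.absNorm I := by
    have hne : I ≠ ⊥ := by
      intro h0
      rw [hI, Ideal.span_eq_bot] at h0
      apply hu0
      funext j
      exact h0 _ (Set.mem_range_self j)
    exact Nat.pos_of_ne_zero (by rwa [Ne, Ideal.absNorm_eq_zero_iff])
  have hIR : (0 : ℝ) < Ideal.absNorm I := by exact_mod_cast hI0
  -- the archimedean part
  have h2 : ∏ v : InfinitePlace K, (⨆ i, v (u i : K)) ^ v.mult =
      (n : ℝ) ^ D * ∏ i, max 1 ‖e i s‖ := by
    rw [Pool.Agent.Helper259.HtExt.prod_infinitePlace_pow_mult K (fun v => ⨆ i, v (u i : K))]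
    have h3 : ∀ φ : K →+* ℂ, (⨆ i, (InfinitePlace.mk φ) (u i : K)) =
        (n : ℝ) * max 1 ‖φ s‖ := by
      intro φ
      have h4 : (⨆ i, (InfinitePlace.mk φ) (u i : K)) =
          max ((InfinitePlace.mk φ) (u 0 : K)) ((InfinitePlace.mk φ) (u 1 : K)) := by
        apply le_antisymm
        · refine ciSup_le fun i => ?_
          fin_cases i
          · exact le_max_left _ _
          · exact le_max_right _ _
        · exact max_le (le_ciSup (f := fun i => (InfinitePlace.mk φ) (u i : K))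
            (Set.finite_range _).bddAbove 0)
            (le_ciSup (f := fun i => (InfinitePlace.mk φ) (u i : K))
            (Set.finite_range _).bddAbove 1)
      have e0 := congrFun huK 0
      have e1 := congrFun huK 1
      simp only [Matrix.cons_val_zero, Matrix.cons_val_one, Matrix.cons_val_fin_one] at e0 e1
      rw [h4, e0, e1, InfinitePlace.apply, InfinitePlace.apply, map_mul, map_mul, norm_mul,
        norm_mul, map_natCast, map_one, Complex.norm_natCast, norm_one,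
        ← mul_max_of_nonneg _ _ hnR.le, max_comm]
    rw [Finset.prod_congr rfl fun φ _ => h3 φ, Finset.prod_mul_distrib, Finset.prod_const,
      Finset.card_univ]
    have h5 : Fintype.card (K →+* ℂ) = D := by
      rw [← hD]
      exact Embeddings.card K ℂ
    rw [h5]
    congr 1
    refine Fintype.prod_equiv ((RingHom.equivRatAlgHom (R := K) (S := ℂ)).trans e.symm) _ _ ?_
    intro φ
    simp only [Equiv.trans_apply, Equiv.apply_symm_apply]
    rfl
  rw [h2] at h1
  set c1 : ℝ := (n : ℝ) ^ D / Ideal.absNorm I with hc1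
  have hc10 : 0 < c1 := by positivity
  have h6 : c1 * ∏ i, max 1 ‖e i s‖ = mulHeight ![s, 1] := by
    rw [hc1, div_mul_eq_mul_div, ← h1]
    field_simp
  set G : ℂ[X] := ∏ i, (X - C (e i s)) with hG
  have hGdeg : G.natDegree = D := by
    rw [hG, natDegree_prod_of_monic _ _ fun i _ => monic_X_sub_C _]
    simp
  -- integrality of the values
  have hval : ∀ j : ℤ, ∃ z : ℤ, (z : ℂ) = (c1 : ℂ) * G.eval (j : ℂ) := by
    intro j
    set x : 𝓞 K := (j : 𝓞 K) * (n : 𝓞 K) - y0 with hx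
    have hxI : x ∈ I := by
      refine I.sub_mem (I.mul_mem_left _ ?_) ?_
      · exact Ideal.subset_span ⟨1, rfl⟩
      · exact Ideal.subset_span ⟨0, rfl⟩
    obtain ⟨z, hz⟩ := Ideal.absNorm_dvd_norm_of_mem hxI
    refine ⟨z, ?_⟩
    have h7 : ((Algebra.norm ℤ x : ℤ) : ℚ) = Algebra.norm ℚ (x : K) := Algebra.coe_norm_int x
    have h8 := Algebra.norm_eq_prod_embeddings ℚ ℂ (x : K)
    rw [← h7, hz] at h8
    have hxK : (x : K) = (j : K) * n - n * s := by
      rw [hx]
      simp [hy0]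
    have h9 : ∏ σ : K →ₐ[ℚ] ℂ, σ (x : K) = (n : ℂ) ^ D * G.eval (j : ℂ) := by
      rw [hG, Polynomial.eval_prod, ← Fintype.prod_equiv e (fun i => e i (x : K)) _ (fun i => rfl), hxK]
      have h10 : ∀ i, e i ((j : K) * n - n * s) = (n : ℂ) * ((j : ℂ) - e i s) := by
        intro i
        rw [map_sub, map_mul, map_mul, map_natCast, map_intCast]
        ring
      rw [Finset.prod_congr rfl fun i _ => h10 i, Finset.prod_mul_distrib, Finset.prod_const,
        Finset.card_univ, Fintype.card_fin]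
      congr 1
      refine Finset.prod_congr rfl fun i _ => ?_
      simp
    rw [h9] at h8
    have h11 : ((Ideal.absNorm I : ℕ) : ℂ) * (z : ℂ) = (n : ℂ) ^ D * G.eval (j : ℂ) := by
      rw [← h8]
      simp
    have hIC : ((Ideal.absNorm I : ℕ) : ℂ) ≠ 0 := by
      exact_mod_cast hI0.ne'
    rw [hc1]
    push_cast
    field_simp
    linear_combination h11
  choose z hz using hval
  have hvand : ∀ j : Fin (D + 1), (z ((j : ℕ) : ℤ) : ℂ) =
      ∑ k : Fin (D + 1), ((j : ℕ) : ℂ) ^ (k : ℕ) * ((c1 : ℂ) * G.coeff k) := by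
    intro j
    rw [hz, eval_eq_sum_range, hGdeg, Finset.mul_sum, ← Fin.sum_univ_eq_sum_range
      (fun k => (c1 : ℂ) * (G.coeff k * (((j : ℕ) : ℤ) : ℂ) ^ k))]
    refine Finset.sum_congr rfl fun k _ => ?_
    push_cast
    ring
  have hadj : ∀ k : Fin (D + 1), ∑ j : Fin (D + 1), ((Ad k j : ℤ) : ℂ) *
      (z ((j : ℕ) : ℤ) : ℂ) = (Δ : ℂ) * ((c1 : ℂ) * G.coeff k) := by
    intro k
    have h12 : ∀ l : Fin (D + 1), ∑ j : Fin (D + 1), ((Ad k j : ℤ) : ℂ) *
        ((j : ℕ) : ℂ) ^ (l : ℕ) = if k = l then (Δ : ℂ) else 0 := by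
      intro l
      have h14 : ((∑ j : Fin (D + 1), Ad k j * ((j : ℕ) : ℤ) ^ (l : ℕ) : ℤ) : ℂ) =
          ((if k = l then Δ else 0 : ℤ) : ℂ) := by rw [hAd k l]
      push_cast at h14
      rw [h14]
    calc _ = ∑ j : Fin (D + 1), ∑ l : Fin (D + 1), ((Ad k j : ℤ) : ℂ) *
          (((j : ℕ) : ℂ) ^ (l : ℕ) * ((c1 : ℂ) * G.coeff l)) := by
          refine Finset.sum_congr rfl fun j _ => ?_
          rw [hvand, Finset.mul_sum]
      _ = ∑ l : Fin (D + 1), (∑ j : Fin (D + 1), ((Ad k j : ℤ) : ℂ) *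
          ((j : ℕ) : ℂ) ^ (l : ℕ)) * ((c1 : ℂ) * G.coeff l) := by
          rw [Finset.sum_comm]
          refine Finset.sum_congr rfl fun l _ => ?_
          rw [Finset.sum_mul]
          refine Finset.sum_congr rfl fun j _ => ?_
          ring
      _ = _ := by
          rw [Finset.sum_congr rfl fun l _ => by rw [h12 l]]
          simp
  refine ⟨fun k => if hk : k < D + 1 then Int.sign Δ *
    ∑ j : Fin (D + 1), Ad ⟨k, hk⟩ j * z ((j : ℕ) : ℤ) else 0,
    |(Δ : ℝ)| * c1, by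
      have : (0 : ℝ) < |(Δ : ℝ)| := abs_pos.2 (by exact_mod_cast hΔ)
      positivity, ?_, ?_⟩
  · intro k
    simp only
    split_ifs with hk
    · push_cast
      rw [hadj ⟨k, hk⟩]
      have h15 : ((Int.sign Δ : ℤ) : ℂ) * (Δ : ℂ) = ((|(Δ : ℝ)| : ℝ) : ℂ) := by
        have h16 : Int.sign Δ * Δ = |Δ| := Int.sign_mul_self_eq_abs _
        have h17 : ((|(Δ : ℝ)| : ℝ) : ℂ) = ((|Δ| : ℤ) : ℂ) := by
          rw [← Int.cast_abs]
          norm_cast
        rw [h17, ← h16]
        push_cast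
        rfl
      linear_combination ((c1 : ℂ) * G.coeff k) * h15
    · rw [coeff_eq_zero_of_natDegree_lt (by omega), mul_zero]
      simp
  · rw [mul_assoc, h6]

end Pool.Agent.K3h44.HP
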