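import Mathlib
import Pool.Agent.K3h44.HP.Roth
import Pool.Agent.K3h44.HP.Near

/-!
Roth's theorem over the rational numbers; coefficients of polynomials with close roots.
-/

set_option autoImplicit false

namespace Pool.Agent.K3h44.HP

open Polynomial NumberField Height Module

/-- **Roth's theorem** with a constant for all rational numbers -/
theorem rothQ (ψ : ℂ) (hψ : IsAlgebraic ℚ ψ) (ε : ℝ) (hε : 0 < ε) :
    ∃ C : ℝ, 0 ≤ C ∧ ∀ t : ℚ, (t : ℂ) ≠ ψ →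
      -Real.log ‖(t : ℂ) - ψ‖ ≤ (2 + ε) * logHeight ![t, 1] + C := by
  classical
  obtain ⟨B, hB, hBψ⟩ := (IsFractionRing.isAlgebraic_iff ℤ ℚ ℂ).2 hψ
  obtain ⟨T, C, hT, h⟩ := roth_arch ℚ B hB 1 le_rfl 1 le_rfl ε hε
  have hBQ : B.map (Int.castRingHom ℚ) ≠ 0 :=
    (Polynomial.map_ne_zero_iff (Int.cast_injective (α := ℚ))).2 hB
  set F : Finset ℚ := hT.toFinset ∪ (B.map (Int.castRingHom ℚ)).roots.toFinset with hF
  have hsum0 : 0 ≤ ∑ t ∈ F, |Real.log ‖(t : ℂ) - ψ‖| := Finset.sum_nonneg fun _ _ => abs_nonneg _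
  refine ⟨|C| + ∑ t ∈ F, |Real.log ‖(t : ℂ) - ψ‖|, by positivity, fun t ht => ?_⟩
  have hh : 0 ≤ (2 + ε) * logHeight ![t, 1] := by
    have := logHeight_nonneg ![t, 1]
    positivity
  have hC := abs_nonneg C
  have hpos : 0 < ‖(t : ℂ) - ψ‖ := norm_pos_iff.2 (sub_ne_zero.2 ht)
  by_cases htF : t ∈ F
  · have h1 : |Real.log ‖(t : ℂ) - ψ‖| ≤ ∑ t ∈ F, |Real.log ‖(t : ℂ) - ψ‖| :=
      Finset.single_le_sum (f := fun t : ℚ => |Real.log ‖(t : ℂ) - ψ‖|)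
        (fun _ _ => abs_nonneg _) htF
    have h2 := neg_le_abs (Real.log ‖(t : ℂ) - ψ‖)
    linarith
  rcases le_or_gt 1 ‖(t : ℂ) - ψ‖ with h1 | h1
  · have := Real.log_nonneg h1
    linarith
  rw [hF, Finset.mem_union, not_or] at htF
  have htT : t ∉ T := fun h2 => htF.1 (hT.mem_toFinset.2 h2)
  have hBt : aeval t B ≠ 0 := by
    intro h2
    apply htF.2
    rw [Multiset.mem_toFinset, mem_roots hBQ, IsRoot.def, eval_map]
    exact h2
  have h3 := h t htT hBt (‖(t : ℂ) - ψ‖⁻¹) ((one_le_inv₀ hpos).2 h1.le) (by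
    intro φ
    right
    refine ⟨ψ, hBψ, ?_⟩
    rw [eq_ratCast, pow_one, inv_mul_cancel₀ hpos.ne'])
  rw [finrank_self, Real.log_inv] at h3
  push_cast at h3
  have := le_abs_self C
  linarith

/-- the coefficients of a product -/
theorem coeff_bd {ι : Type} (S : Finset ι) (a : ι → ℂ) (R : ℝ) (hR : 0 ≤ R)
    (ha : ∀ i ∈ S, ‖a i‖ ≤ R) (k : ℕ) :
    ‖(∏ i ∈ S, (X - C (a i))).coeff k‖ ≤ (1 + R) ^ S.card := by
  classical
  induction S using Finset.induction_on generalizing k with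
  | empty =>
    rw [Finset.prod_empty, Finset.card_empty, pow_zero, coeff_one]
    split_ifs <;> simp
  | insert i S hi ih =>
    have ih' := ih fun j hj => ha j (Finset.mem_insert_of_mem hj)
    have hai := ha i (Finset.mem_insert_self _ _)
    rw [Finset.prod_insert hi, Finset.card_insert_of_notMem hi, sub_mul, coeff_sub, coeff_C_mul]
    have h1 : ‖(X * ∏ i ∈ S, (X - C (a i))).coeff k‖ ≤ (1 + R) ^ S.card := by
      cases k with
      | zero =>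
        rw [coeff_X_mul_zero, norm_zero]
        positivity
      | succ k =>
        rw [coeff_X_mul]
        exact ih' k
    have h2 : ‖a i * (∏ i ∈ S, (X - C (a i))).coeff k‖ ≤ R * (1 + R) ^ S.card := by
      rw [norm_mul]
      exact mul_le_mul hai (ih' k) (norm_nonneg _) hR
    calc _ ≤ _ := norm_sub_le _ _
      _ ≤ (1 + R) ^ S.card + R * (1 + R) ^ S.card := add_le_add h1 h2
      _ = _ := by ring

/-- the coefficients of two products with close roots -/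
theorem coeff_diff {ι : Type} (S : Finset ι) (a b : ι → ℂ) (R δ : ℝ) (hR : 0 ≤ R) (hδ : 0 ≤ δ)
    (ha : ∀ i ∈ S, ‖a i‖ ≤ R) (hb : ∀ i ∈ S, ‖b i‖ ≤ R) (hab : ∀ i ∈ S, ‖a i - b i‖ ≤ δ)
    (k : ℕ) :
    ‖(∏ i ∈ S, (X - C (a i))).coeff k - (∏ i ∈ S, (X - C (b i))).coeff k‖ ≤
      S.card * (1 + R) ^ S.card * δ := by
  classical
  induction S using Finset.induction_on generalizing k with
  | empty => simp
  | insert i S hi ih =>
    have ih' := ih (fun j hj => ha j (Finset.mem_insert_of_mem hj))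
      (fun j hj => hb j (Finset.mem_insert_of_mem hj))
      (fun j hj => hab j (Finset.mem_insert_of_mem hj))
    have hai := ha i (Finset.mem_insert_self _ _)
    have habi := hab i (Finset.mem_insert_self _ _)
    have hbS := coeff_bd S b R hR (fun j hj => hb j (Finset.mem_insert_of_mem hj)) k
    rw [Finset.prod_insert hi, Finset.prod_insert hi, Finset.card_insert_of_notMem hi, sub_mul,
      sub_mul, coeff_sub, coeff_sub, coeff_C_mul, coeff_C_mul]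
    set P := ∏ i ∈ S, (X - C (a i)) with hP
    set Q := ∏ i ∈ S, (X - C (b i)) with hQ
    have h1 : ‖(X * P).coeff k - (X * Q).coeff k‖ ≤ S.card * (1 + R) ^ S.card * δ := by
      cases k with
      | zero =>
        rw [coeff_X_mul_zero, coeff_X_mul_zero, sub_zero, norm_zero]
        positivity
      | succ k =>
        rw [coeff_X_mul, coeff_X_mul]
        exact ih' k
    have h2 : ‖a i * (P.coeff k - Q.coeff k)‖ ≤ R * (S.card * (1 + R) ^ S.card * δ) := by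
      rw [norm_mul]
      exact mul_le_mul hai (ih' k) (norm_nonneg _) hR
    have h3 : ‖(a i - b i) * Q.coeff k‖ ≤ δ * (1 + R) ^ S.card := by
      rw [norm_mul]
      exact mul_le_mul habi hbS (norm_nonneg _) hδ
    have e : (X * P).coeff k - a i * P.coeff k - ((X * Q).coeff k - b i * Q.coeff k) =
        ((X * P).coeff k - (X * Q).coeff k) - a i * (P.coeff k - Q.coeff k) -
          (a i - b i) * Q.coeff k := by ring
    rw [e]
    have h4 := norm_sub_le ((X * P).coeff k - (X * Q).coeff k - a i * (P.coeff k - Q.coeff k))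
      ((a i - b i) * Q.coeff k)
    have h5 := norm_sub_le ((X * P).coeff k - (X * Q).coeff k) (a i * (P.coeff k - Q.coeff k))
    have h6 : (1 + R) ^ S.card * δ ≤ (1 + R) ^ (S.card + 1) * δ := by
      refine mul_le_mul_of_nonneg_right ?_ hδ
      exact pow_le_pow_right₀ (by linarith) (by omega)
    have h7 : (S.card : ℝ) * (1 + R) ^ S.card * δ + R * (S.card * (1 + R) ^ S.card * δ) =
        S.card * (1 + R) ^ (S.card + 1) * δ := by ring
    push_cast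
    nlinarith

/-- large values, in the coordinate `1 / t` -/
theorem near_s {A B : ℂ[X]} (hdeg : A.natDegree ≤ B.natDegree + 1)
    (hdB : 1 ≤ B.natDegree) (hk : ∀ τ, B.rootMultiplicity τ ≤ 6) (hB0 : B.eval 0 ≠ 0) :
    ∃ C : ℝ, 1 ≤ C ∧ ∀ (t : ℂ) (M : ℝ), t ≠ 0 → C ≤ M → B.eval t ≠ 0 →
      M * ‖B.eval t‖ ≤ ‖A.eval t‖ →
      ∃ σ : ℂ, (σ = 0 ∨ B.eval σ⁻¹ = 0) ∧ M * ‖t⁻¹ - σ‖ ^ 6 ≤ C ∧ ‖t⁻¹‖ ≤ C ∧ ‖σ‖ ≤ C := by
  classical
  have hB : B ≠ 0 := by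
    rintro rfl
    simp at hB0
  obtain ⟨C₀, hC₀, h⟩ := near hdeg hdB hk
  set Kc : ℂ → ℝ := fun τ => C₀ * (2 / ‖τ‖) ^ 6 + C₀ * (2 / ‖τ‖ ^ 2) ^ 6 + 2 / ‖τ‖ + 1 / ‖τ‖ with hKc
  have hK0 : ∀ τ, 0 ≤ Kc τ := fun τ => by
    rw [hKc]
    positivity
  have hsum : ∀ τ ∈ B.roots.toFinset, Kc τ ≤ ∑ τ ∈ B.roots.toFinset, Kc τ := fun τ hτ =>
    Finset.single_le_sum (f := Kc) (fun _ _ => hK0 _) hτ
  have hsum0 : 0 ≤ ∑ τ ∈ B.roots.toFinset, Kc τ := Finset.sum_nonneg fun _ _ => hK0 _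
  refine ⟨C₀ + ∑ τ ∈ B.roots.toFinset, Kc τ, by linarith, fun t M ht hM hBt hMt => ?_⟩
  have hM1 : 1 ≤ M := by linarith
  have hM0 : 0 < M := by linarith
  have ht0 : 0 < ‖t‖ := norm_pos_iff.2 ht
  rcases h t M hM1 hBt hMt with h1 | ⟨τ, hτ, h1⟩
  · refine ⟨0, Or.inl rfl, ?_, ?_, by rw [norm_zero]; linarith⟩
    · rw [sub_zero, norm_inv]
      have h2 : M * ‖t‖⁻¹ ≤ C₀ := by
        rw [← div_eq_mul_inv, div_le_iff₀ ht0]
        exact h1
      have h3 : ‖t‖⁻¹ ≤ 1 := by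
        have : M * ‖t‖⁻¹ ≤ M * 1 := by linarith
        exact le_of_mul_le_mul_left this hM0
      have h4 : ‖t‖⁻¹ ^ 6 ≤ ‖t‖⁻¹ := pow_le_of_le_one (by positivity) h3 (by norm_num)
      have h5 := mul_le_mul_of_nonneg_left h4 hM0.le
      linarith
    · rw [norm_inv]
      have h2 : M * ‖t‖⁻¹ ≤ C₀ := by
        rw [← div_eq_mul_inv, div_le_iff₀ ht0]
        exact h1
      have : M * ‖t‖⁻¹ ≤ M * 1 := by linarith
      have := le_of_mul_le_mul_left this hM0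
      linarith
  · have hτ0 : τ ≠ 0 := by
      rintro rfl
      exact hB0 hτ
    have hτn : 0 < ‖τ‖ := norm_pos_iff.2 hτ0
    have hmem : τ ∈ B.roots.toFinset := Multiset.mem_toFinset.2 ((mem_roots hB).2 hτ)
    have hKτ := hsum τ hmem
    have hKe : Kc τ = C₀ * (2 / ‖τ‖) ^ 6 + C₀ * (2 / ‖τ‖ ^ 2) ^ 6 + 2 / ‖τ‖ + 1 / ‖τ‖ := rfl
    have p1 : 0 < C₀ * (2 / ‖τ‖) ^ 6 := by positivity
    have p2 : 0 < C₀ * (2 / ‖τ‖ ^ 2) ^ 6 := by positivity
    have p3 : 0 < 2 / ‖τ‖ := by positivity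
    have p4 : 0 < 1 / ‖τ‖ := by positivity
    have h2 : ‖t - τ‖ ≤ ‖τ‖ / 2 := by
      have h3 : ‖t - τ‖ ^ 6 ≤ (‖τ‖ / 2) ^ 6 := by
        have h4 : C₀ * (2 / ‖τ‖) ^ 6 * ‖t - τ‖ ^ 6 ≤ C₀ := by
          refine le_trans ?_ h1
          exact mul_le_mul_of_nonneg_right (by linarith) (by positivity)
        have h5 : (2 / ‖τ‖) ^ 6 * ‖t - τ‖ ^ 6 ≤ 1 := by
          have h6 : C₀ * ((2 / ‖τ‖) ^ 6 * ‖t - τ‖ ^ 6) ≤ C₀ * 1 := by linarith
          exact le_of_mul_le_mul_left h6 (by linarith)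
        have h7 : (‖τ‖ / 2) ^ 6 * ((2 / ‖τ‖) ^ 6 * ‖t - τ‖ ^ 6) ≤ (‖τ‖ / 2) ^ 6 * 1 :=
          mul_le_mul_of_nonneg_left h5 (by positivity)
        have h8 : (‖τ‖ / 2) ^ 6 * ((2 / ‖τ‖) ^ 6 * ‖t - τ‖ ^ 6) = ‖t - τ‖ ^ 6 := by
          field_simp
        linarith
      exact le_of_pow_le_pow_left₀ (by norm_num) (by positivity) h3
    have h9 : ‖τ‖ / 2 ≤ ‖t‖ := by
      have := norm_sub_norm_le τ (τ - t)
      rw [sub_sub_cancel, norm_sub_rev τ t] at this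
      linarith
    have h10 : ‖t⁻¹‖ ≤ 2 / ‖τ‖ := by
      rw [norm_inv, ← inv_div]
      exact inv_anti₀ (by positivity) h9
    refine ⟨τ⁻¹, Or.inr (by rw [inv_inv]; exact hτ), ?_, by linarith, ?_⟩
    · have h11 : t⁻¹ - τ⁻¹ = -((t - τ) * (t⁻¹ * τ⁻¹)) := by
        field_simp
        ring
      have h12 : ‖t⁻¹ - τ⁻¹‖ ≤ ‖t - τ‖ * (2 / ‖τ‖ ^ 2) := by
        rw [h11, norm_neg, norm_mul, norm_mul]
        refine mul_le_mul_of_nonneg_left ?_ (norm_nonneg _)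
        rw [norm_inv τ]
        calc ‖t⁻¹‖ * ‖τ‖⁻¹ ≤ 2 / ‖τ‖ * ‖τ‖⁻¹ := mul_le_mul_of_nonneg_right h10 (by positivity)
          _ = _ := by field_simp
      have h13 : ‖t⁻¹ - τ⁻¹‖ ^ 6 ≤ (‖t - τ‖ * (2 / ‖τ‖ ^ 2)) ^ 6 :=
        pow_le_pow_left₀ (norm_nonneg _) h12 6
      have h14 : M * ‖t⁻¹ - τ⁻¹‖ ^ 6 ≤ (2 / ‖τ‖ ^ 2) ^ 6 * C₀ := by
        calc M * ‖t⁻¹ - τ⁻¹‖ ^ 6 ≤ M * (‖t - τ‖ * (2 / ‖τ‖ ^ 2)) ^ 6 :=
              mul_le_mul_of_nonneg_left h13 hM0.le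
          _ = (2 / ‖τ‖ ^ 2) ^ 6 * (M * ‖t - τ‖ ^ 6) := by ring
          _ ≤ _ := mul_le_mul_of_nonneg_left h1 (by positivity)
      linarith
    · rw [norm_inv, ← one_div]
      linarith

end Pool.Agent.K3h44.HP
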