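import Mathlib
import Pool.Agent.K3h44.HP.Un2
import Pool.Agent.K3h44.HP.Un3
import Pool.Agent.K3h44.HP.Core

/-!
The torsion points of all the curves `y ^ 2 = x ^ 3 + d` over all number fields of a given degree.
-/

set_option autoImplicit false

namespace Pool.Agent.K3h44.HP

open Polynomial NumberField Height Module
open Pool.Agent.Y674.TR (ND MULP DEG COP Rep E)

theorem coeff_bd' {ι : Type} (S : Finset ι) (a : ι → ℂ) (k : ℕ) :
    ‖(∏ i ∈ S, (X - C (a i))).coeff k‖ ≤ ∏ i ∈ S, (1 + ‖a i‖) := by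
  classical
  induction S using Finset.induction_on generalizing k with
  | empty =>
    rw [Finset.prod_empty, Finset.prod_empty, coeff_one]
    split_ifs <;> simp
  | insert i S hi ih =>
    rw [Finset.prod_insert hi, Finset.prod_insert hi, sub_mul, coeff_sub, coeff_C_mul]
    have hp : 0 ≤ ∏ i ∈ S, (1 + ‖a i‖) := Finset.prod_nonneg fun _ _ => by positivity
    have h1 : ‖(X * ∏ i ∈ S, (X - C (a i))).coeff k‖ ≤ ∏ i ∈ S, (1 + ‖a i‖) := by
      cases k with
      | zero =>
        rw [coeff_X_mul_zero, norm_zero]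
        exact hp
      | succ k =>
        rw [coeff_X_mul]
        exact ih k
    have h2 : ‖a i * (∏ i ∈ S, (X - C (a i))).coeff k‖ ≤ ‖a i‖ * ∏ i ∈ S, (1 + ‖a i‖) := by
      rw [norm_mul]
      exact mul_le_mul_of_nonneg_left (ih k) (norm_nonneg _)
    calc _ ≤ _ := norm_sub_le _ _
      _ ≤ ∏ i ∈ S, (1 + ‖a i‖) + ‖a i‖ * ∏ i ∈ S, (1 + ‖a i‖) := add_le_add h1 h2
      _ = _ := by ring

/-- torsion points have bounded height, uniformly in the number field -/
theorem tors_ht_unif :
    ∃ C : ℝ, 0 ≤ C ∧ ∀ (K : Type) [Field K] [NumberField K] [DecidableEq K] (d : ℤ), d ≠ 0 →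
      ∀ T : (E K 0 d).Point, (∃ k : ℕ, 1 ≤ k ∧ k • T = 0) →
      logHeight ![tc T, 1] ≤ finrank ℚ K * C := by
  obtain ⟨A, B, hAm, hAd, hBd, hB0, hcop, hmult, hMR⟩ := exists_AB' 2 (by norm_num)
  obtain ⟨C, hC0, hC⟩ := height_lower_unif (n := 2 ^ 2) hAm hAd (by omega) hcop
  refine ⟨C / 3, by positivity, ?_⟩
  intro K _ _ _ d hd T hT
  obtain ⟨k, hk, hkT⟩ := hT
  have hdK : (d : K) ≠ 0 := Int.cast_ne_zero.2 hd
  have hDC : 0 ≤ (finrank ℚ K : ℝ) * C := by positivity
  -- one step
  have h0 : logHeight ![(0 : K), 1] = 0 := by simp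
  have hstep : ∀ P : (E K 0 d).Point, 4 * logHeight ![tc P, 1] ≤
      logHeight ![tc (2 • P), 1] + finrank ℚ K * C := by
    intro P
    rcases P with _ | ⟨u, s, hn⟩
    · have e1 : tc (WeierstrassCurve.Affine.Point.zero : (E K 0 d).Point) = 0 := rfl
      rw [e1, h0]
      have := logHeight_nonneg ![tc (2 • (WeierstrassCurve.Affine.Point.zero :
        (E K 0 d).Point)), 1]
      linarith
    · have h1 := hC K (u ^ 3 / (d : K))
      have e1 : tc (WeierstrassCurve.Affine.Point.some u s hn : (E K 0 d).Point) =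
        u ^ 3 / (d : K) := rfl
      rw [e1]
      rcases hMR K d u s hn hd with ⟨g1, g2⟩ | ⟨x, y, h', g1, g2, g3⟩
      · rw [g1]
        rw [g2] at h1
        have g4 : aeval (u ^ 3 / (d : K)) A ≠ 0 := by
          intro g5
          have hco : IsCoprime (A.map (Int.castRingHom K)) (B.map (Int.castRingHom K)) := by
            have := hcop.map (mapRingHom (algebraMap ℚ K))
            simp only [coe_mapRingHom, Polynomial.map_map] at this
            rwa [show (algebraMap ℚ K).comp (Int.castRingHom ℚ) = Int.castRingHom K from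
              RingHom.ext_int _ _] at this
          obtain ⟨a, b, hab⟩ := hco
          have := congrArg (eval (u ^ 3 / (d : K))) hab
          rw [eval_add, eval_mul, eval_mul, hevK, hevK, g5, g2] at this
          simp at this
        have e2 : logHeight ![aeval (u ^ 3 / (d : K)) A, 0] = 0 := by
          have h5 : logHeight ![aeval (u ^ 3 / (d : K)) A, 0] = logHeight ![(1 : K), 0] := by
            have := logHeight_scale (a := (1 : K)) (b := 0) g4
            simpa using this
          have h6 : logHeight ![(1 : K), 0] ≤ 0 := by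
            have h7 := Pool.Agent.R405.mulHeight_int (K := K) ![(1 : 𝓞 K), 0] (by
              intro h
              have := congrFun h 0
              simp at this)
            have h8 : (fun j => ((![(1 : 𝓞 K), 0] j : 𝓞 K) : K)) = ![(1 : K), 0] := by
              funext j
              fin_cases j <;> simp
            rw [h8] at h7
            have hsp : Ideal.span (Set.range ![(1 : 𝓞 K), 0]) = ⊤ := by
              rw [Ideal.eq_top_iff_one]
              exact Ideal.subset_span ⟨0, rfl⟩
            rw [hsp, Ideal.absNorm_top, Nat.cast_one, mul_one] at h7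
            rw [logHeight_eq_log_mulHeight, h7]
            refine Real.log_nonpos (Finset.prod_nonneg fun v _ => pow_nonneg
              (Real.iSup_nonneg fun i => apply_nonneg v _) _) ?_
            refine Finset.prod_le_one (fun v _ => pow_nonneg
              (Real.iSup_nonneg fun i => apply_nonneg v _) _) fun v _ => ?_
            refine pow_le_one₀ (Real.iSup_nonneg fun i => apply_nonneg v _) ?_
            refine ciSup_le fun i => ?_
            fin_cases i <;> simp
          have h9 := logHeight_nonneg ![(1 : K), 0]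
          rw [h5]
          linarith
        rw [e2] at h1
        have h10 := logHeight_nonneg ![tc (0 : (E K 0 d).Point), 1]
        push_cast at h1
        linarith
      · rw [g1]
        have e2 : tc (WeierstrassCurve.Affine.Point.some x y h' : (E K 0 d).Point) =
          x ^ 3 / (d : K) := rfl
        rw [e2]
        rw [g3] at h1
        have e3 : logHeight ![x ^ 3 / (d : K) * aeval (u ^ 3 / (d : K)) B,
            aeval (u ^ 3 / (d : K)) B] = logHeight ![x ^ 3 / (d : K), 1] := by
          have := logHeight_scale (a := x ^ 3 / (d : K)) (b := 1) g2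
          simpa using this
        rw [e3] at h1
        push_cast at h1
        linarith
  -- the orbit is finite
  have hfin : (Set.range fun j : ℕ => logHeight ![tc (2 ^ j • T), 1]).Finite := by
    refine Set.Finite.subset ((Finset.range k).finite_toSet.image
      (fun j : ℕ => logHeight ![tc (j • T), 1])) ?_
    rintro _ ⟨j, rfl⟩
    refine ⟨2 ^ j % k, ?_, ?_⟩
    · simp only [Finset.coe_range, Set.mem_Iio]
      exact Nat.mod_lt _ (by omega)
    · have : 2 ^ j • T = (2 ^ j % k) • T := by
        conv_lhs => rw [← Nat.mod_add_div (2 ^ j) k]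
        rw [add_nsmul, mul_nsmul, hkT, nsmul_zero, add_zero]
      simp only
      rw [this]
  obtain ⟨j, hj⟩ : ∃ j : ℕ, ∀ i : ℕ, logHeight ![tc (2 ^ i • T), 1] ≤
      logHeight ![tc (2 ^ j • T), 1] := by
    obtain ⟨_, ⟨j, rfl⟩, hmax⟩ := Set.exists_max_image _ id hfin ⟨_, ⟨0, rfl⟩⟩
    exact ⟨j, fun i => hmax _ ⟨i, rfl⟩⟩
  have h1 := hstep (2 ^ j • T)
  rw [← mul_nsmul', ← pow_succ'] at h1
  have h2 := hj (j + 1)
  have h3 := hj 0
  rw [pow_zero, one_nsmul] at h3
  linarith

/-- an equivalence with the embeddings -/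
theorem exists_equiv (K : Type) [Field K] [NumberField K] {D : ℕ} (hD : finrank ℚ K = D) :
    Nonempty (Fin D ≃ (K →ₐ[ℚ] ℂ)) := by
  have h1 := AlgHom.card ℚ K ℂ
  rw [hD] at h1
  exact ⟨(Fintype.equivFinOfCardEq h1).symm⟩

/-- **uniform torsion**: one exponent for all the curves `y ^ 2 = x ^ 3 + d` over all number
fields of degree `D` -/
theorem tors_unif (D : ℕ) :
    ∃ n : ℕ, 1 ≤ n ∧ ∀ (K : Type) [Field K] [NumberField K] [DecidableEq K], finrank ℚ K = D →
      ∀ (d : ℤ), d ≠ 0 → ∀ T : (E K 0 d).Point,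
      (∃ k : ℕ, 1 ≤ k ∧ k • T = 0) → n • T = 0 := by
  classical
  obtain ⟨κ, hκ0, hκ⟩ := tors_ht_unif
  obtain ⟨V, hV1, hV⟩ := exists_intpoly D
  choose! A B hAB using exists_AB'
  -- the vectors attached to a point
  set Att : (Fin (D + 1) → ℤ) → (K : Type) → [Field K] → [NumberField K] → K → Prop :=
    fun Y K _ _ t => ∃ (e : Fin D ≃ (K →ₐ[ℚ] ℂ)) (c : ℝ), 0 < c ∧
      ∀ k : Fin (D + 1), ((Y k : ℤ) : ℂ) = (c : ℂ) * (∏ i, (X - C (e i t))).coeff (k : ℕ)
    with hAtt
  set N : ℤ := ⌈2 ^ D * (V * Real.exp (D * κ))⌉ with hN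
  have hfin : (Set.Icc (fun _ : Fin (D + 1) => -N) (fun _ => N)).Finite := Set.finite_Icc _ _
  -- the order attached to a vector
  have hord : ∀ Y : Fin (D + 1) → ℤ, ∃ n : ℕ, 1 ≤ n ∧ ∀ (K : Type) [Field K] [NumberField K]
      [DecidableEq K] (d : ℤ), finrank ℚ K = D → d ≠ 0 → ∀ T : (E K 0 d).Point,
      (∃ k : ℕ, 1 ≤ k ∧ k • T = 0) → Att Y K (tc T) → n • T = 0 := by
    intro Y
    by_cases h : ∃ (K : Type) (_ : Field K) (_ : NumberField K) (_ : DecidableEq K) (d : ℤ)
        (T : (E K 0 d).Point) (k : ℕ), finrank ℚ K = D ∧ d ≠ 0 ∧ T ≠ 0 ∧ 1 ≤ k ∧ k • T = 0 ∧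
        Att Y K (tc T)
    · obtain ⟨K, _, _, _, d, T, k, hKD, hd, hT0, hk, hkT, hT⟩ := h
      refine ⟨k, hk, ?_⟩
      intro K' _ _ _ d' hKD' hd' T' hT' hT't
      obtain ⟨-, -, -, -, -, -, hMR⟩ := hAB k hk
      rcases T with _ | ⟨u, s, hn⟩
      · exact absurd rfl hT0
      have hB : aeval (u ^ 3 / (d : K)) (B k) = 0 := by
        rcases hMR K d u s hn hd with ⟨_, g2⟩ | ⟨x, y, h', g1, _, _⟩
        · exact g2
        · rw [hkT] at g1
          exact absurd g1.symm (WeierstrassCurve.Affine.Point.some_ne_zero h')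
      rcases T' with _ | ⟨u', s', hn'⟩
      · exact nsmul_zero k
      rcases hMR K' d' u' s' hn' hd' with ⟨g1, _⟩ | ⟨x, y, h', _, g2, _⟩
      · exact g1
      · exfalso
        apply g2
        obtain ⟨e, c, hc, hY⟩ := hT
        obtain ⟨e', c', hc', hY'⟩ := hT't
        have e1 : tc (WeierstrassCurve.Affine.Point.some u s hn : (E K 0 d).Point) =
          u ^ 3 / (d : K) := rfl
        have e2 : tc (WeierstrassCurve.Affine.Point.some u' s' hn' : (E K' 0 d').Point) =
          u' ^ 3 / (d' : K') := rfl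
        rw [e1] at hY
        rw [e2] at hY'
        set t : K := u ^ 3 / (d : K) with ht
        set t' : K' := u' ^ 3 / (d' : K') with ht'
        have hGdeg : ∀ a : Fin D → ℂ, (∏ i, (X - C (a i))).natDegree = D := by
          intro a
          rw [natDegree_prod_of_monic _ _ fun i _ => monic_X_sub_C _]
          simp
        have hGmon : ∀ a : Fin D → ℂ, (∏ i, (X - C (a i))).coeff D = 1 := by
          intro a
          have h1 : (∏ i, (X - C (a i))).Monic := monic_prod_of_monic _ _ fun i _ =>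
            monic_X_sub_C _
          have h2 := h1.coeff_natDegree
          rwa [hGdeg] at h2
        have hcc : (c : ℂ) = (c' : ℂ) := by
          have h1 := hY ⟨D, by omega⟩
          have h2 := hY' ⟨D, by omega⟩
          simp only at h1 h2
          rw [hGmon, mul_one] at h1 h2
          rw [← h1, ← h2]
        have hcne : (c : ℂ) ≠ 0 := by exact_mod_cast hc.ne'
        have hpol : (∏ i, (X - C (e i t))) = ∏ i, (X - C (e' i t')) := by
          ext k
          by_cases hk' : k < D + 1
          · have h1 := hY ⟨k, hk'⟩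
            have h2 := hY' ⟨k, hk'⟩
            simp only at h1 h2
            rw [← hcc] at h2
            exact mul_left_cancel₀ hcne (h1.symm.trans h2)
          · rw [coeff_eq_zero_of_natDegree_lt (by rw [hGdeg]; omega),
              coeff_eq_zero_of_natDegree_lt (by rw [hGdeg]; omega)]
        have hDpos : 0 < D := by
          rw [← hKD]
          exact finrank_pos
        have h3 : (∏ i, (X - C (e i t))).eval (e' ⟨0, hDpos⟩ t') = 0 := by
          rw [hpol, Polynomial.eval_prod]
          exact Finset.prod_eq_zero (i := (⟨0, hDpos⟩ : Fin D)) (Finset.mem_univ _) (by simp)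
        rw [Polynomial.eval_prod, Finset.prod_eq_zero_iff] at h3
        obtain ⟨i, -, h4⟩ := h3
        rw [eval_sub, eval_X, eval_C, sub_eq_zero] at h4
        have h5 : aeval (e' ⟨0, hDpos⟩ t') (B k) = e' ⟨0, hDpos⟩ (aeval t' (B k)) :=
          hφe (e' ⟨0, hDpos⟩ : K' →+* ℂ) t' (B k)
        have h6 : aeval (e i t) (B k) = e i (aeval t (B k)) := hφe (e i : K →+* ℂ) t (B k)
        rw [h4, h6, hB, map_zero] at h5
        exact (map_eq_zero _).1 h5.symm
    · refine ⟨1, le_rfl, ?_⟩
      intro K _ _ _ d hKD hd T ⟨k, hk, hkT⟩ hTt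
      by_contra hT
      rw [one_nsmul] at hT
      exact h ⟨K, inferInstance, inferInstance, inferInstance, d, T, k, hKD, hd, hT, hk, hkT, hTt⟩
  choose n hn1 hn using hord
  refine ⟨∏ Y ∈ hfin.toFinset, n Y, Nat.one_le_iff_ne_zero.2
    (Finset.prod_ne_zero_iff.2 fun Y _ => by have := hn1 Y; omega), ?_⟩
  intro K _ _ _ hKD d hd T hT
  obtain ⟨e⟩ := exists_equiv K hKD
  obtain ⟨y, c, hc, hy, hbd⟩ := hV K (tc T) e
  set Y : Fin (D + 1) → ℤ := fun k => y k with hY
  have hht := hκ K d hd T hT
  rw [hKD] at hht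
  have hmh : mulHeight ![tc T, 1] ≤ Real.exp (D * κ) := by
    rw [logHeight_eq_log_mulHeight] at hht
    have h1 : 0 < mulHeight ![tc T, 1] := by
      have := one_le_mulHeight ![tc T, 1]
      linarith
    exact (Real.log_le_iff_le_exp h1).1 hht
  have hmem : Y ∈ hfin.toFinset := by
    rw [hfin.mem_toFinset, Set.mem_Icc, Pi.le_def, Pi.le_def, ← forall_and]
    intro k
    rw [← abs_le]
    have h1 : ‖((y k : ℤ) : ℂ)‖ = ‖(c : ℂ) * (∏ i, (X - C (e i (tc T)))).coeff (k : ℕ)‖ := by
      rw [hy k]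
    rw [Complex.norm_intCast, norm_mul, Complex.norm_real, Real.norm_eq_abs, abs_of_pos hc] at h1
    have h2 := coeff_bd' (Finset.univ) (fun i => e i (tc T)) (k : ℕ)
    have h3 : ∏ i : Fin D, (1 + ‖e i (tc T)‖) ≤ ∏ i : Fin D, (2 * max 1 ‖e i (tc T)‖) := by
      refine Finset.prod_le_prod (fun i _ => by positivity) fun i _ => ?_
      have h4 := le_max_left 1 ‖e i (tc T)‖
      have h5 := le_max_right 1 ‖e i (tc T)‖
      linarith
    rw [Finset.prod_mul_distrib, Finset.prod_const, Finset.card_univ, Fintype.card_fin] at h3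
    have h6 : |((y k : ℤ) : ℝ)| ≤ 2 ^ D * (V * Real.exp (D * κ)) := by
      rw [h1]
      calc c * _ ≤ c * (2 ^ D * ∏ i : Fin D, max 1 ‖e i (tc T)‖) :=
            mul_le_mul_of_nonneg_left (h2.trans h3) hc.le
        _ = 2 ^ D * (c * ∏ i : Fin D, max 1 ‖e i (tc T)‖) := by ring
        _ ≤ 2 ^ D * (V * Real.exp (D * κ)) := by
            refine mul_le_mul_of_nonneg_left (hbd.trans ?_) (by positivity)
            exact mul_le_mul_of_nonneg_left hmh (by linarith)
    have h7 : ((|Y k| : ℤ) : ℝ) ≤ (N : ℝ) := by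
      rw [Int.cast_abs]
      exact h6.trans (Int.le_ceil _)
    exact_mod_cast h7
  obtain ⟨q, hq⟩ := Finset.dvd_prod_of_mem n hmem
  rw [hq, mul_nsmul, hn Y K d hKD hd T hT ⟨e, c, hc, fun k => hy k⟩, nsmul_zero]

end Pool.Agent.K3h44.HP
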