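import Mathlib
import Pool.Agent.K3h44.HP.Un4

/-!
The archimedean part, uniformly in all number fields of a given degree.
-/

set_option autoImplicit false

namespace Pool.Agent.K3h44.HP

open Polynomial NumberField Height Module
open Pool.Agent.Y674.TR (ND MULP DEG COP Rep E)
open Pool.Agent.Y903.TR (ev_map)

theorem isAlg_coeff {ι : Type} (S : Finset ι) (a : ι → ℂ) (ha : ∀ i, IsAlgebraic ℚ (a i)) (k : ℕ) :
    IsAlgebraic ℚ ((∏ i ∈ S, (X - C (a i))).coeff k) := by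
  classical
  induction S using Finset.induction_on generalizing k with
  | empty =>
    rw [Finset.prod_empty, coeff_one]
    split_ifs
    · exact isAlgebraic_one
    · exact isAlgebraic_zero
  | insert i S hi ih =>
    rw [Finset.prod_insert hi, sub_mul, coeff_sub, coeff_C_mul]
    refine IsAlgebraic.sub ?_ ((ha i).mul (ih k))
    cases k with
    | zero =>
      rw [coeff_X_mul_zero]
      exact isAlgebraic_zero
    | succ k =>
      rw [coeff_X_mul]
      exact ih k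

theorem prod_natDegree {D : ℕ} (a : Fin D → ℂ) : (∏ i, (X - C (a i))).natDegree = D := by
  rw [natDegree_prod_of_monic _ _ fun i _ => monic_X_sub_C _]
  simp

theorem prod_coeff {D : ℕ} (a : Fin D → ℂ) : (∏ i, (X - C (a i))).coeff D = 1 := by
  have h1 : (∏ i, (X - C (a i))).Monic := monic_prod_of_monic _ _ fun i _ =>
    monic_X_sub_C _
  have h2 := h1.coeff_natDegree
  rwa [prod_natDegree] at h2

/-- the archimedean part -/
theorem arch_unif (D : ℕ) {A B : ℤ[X]} (hdeg : A.natDegree ≤ B.natDegree + 1)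
    (hdB : 1 ≤ B.natDegree)
    (hk : ∀ τ : ℂ, (B.map (Int.castRingHom ℂ)).rootMultiplicity τ ≤ 6) (hB0 : B.eval 0 ≠ 0)
    (ε : ℝ) (hε : 0 < ε) :
    ∃ C : ℝ, 1 ≤ C ∧ ∀ (K : Type) [Field K] [NumberField K], finrank ℚ K = D →
      ∀ (t : K) (M : ℝ), t ≠ 0 → C ≤ M → aeval t B ≠ 0 →
      (∀ φ : K →+* ℂ, M * ‖φ (aeval t B)‖ ≤ ‖φ (aeval t A)‖) →
      1 / 6 * Real.log M ≤ (2 + ε) * logHeight ![t, 1] + C := by
  classical
  have hinj : Function.Injective (Int.castRingHom ℂ) := Int.cast_injective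
  have hBne : B ≠ 0 := by
    rintro rfl
    simp at hB0
  have hBC : B.map (Int.castRingHom ℂ) ≠ 0 := (Polynomial.map_ne_zero_iff hinj).2 hBne
  obtain ⟨C₀, hC₀, hnear⟩ := near_s (A := A.map (Int.castRingHom ℂ))
    (B := B.map (Int.castRingHom ℂ)) (by
      rw [natDegree_map_eq_of_injective hinj, natDegree_map_eq_of_injective hinj]
      exact hdeg) (by
      rw [natDegree_map_eq_of_injective hinj]
      exact hdB) hk (by
      intro h
      apply hB0
      have h1 : (B.map (Int.castRingHom ℂ)).eval ((0 : ℤ) : ℂ) = ((B.eval 0 : ℤ) : ℂ) := by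
        rw [eval_intCast_map]
        rfl
      rw [Int.cast_zero, h] at h1
      exact_mod_cast h1.symm)
  obtain ⟨V, hV1, hV⟩ := exists_intpoly D
  set TG : Finset ℂ := insert 0 ((B.map (Int.castRingHom ℂ)).roots.toFinset.image (·⁻¹)) with hTG
  have hTGa : ∀ σ : TG, IsAlgebraic ℚ (σ : ℂ) := by
    rintro ⟨σ, hσ⟩
    rw [hTG, Finset.mem_insert, Finset.mem_image] at hσ
    rcases hσ with hσ | ⟨τ, hτ, hσ⟩
    · simp only [hσ]
      exact isAlgebraic_zero
    · simp only [← hσ]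
      rw [Multiset.mem_toFinset, mem_roots hBC, IsRoot.def, eval_map] at hτ
      have h1 : IsAlgebraic ℤ τ := ⟨B, hBne, hτ⟩
      have h2 : IsAlgebraic ℚ τ := (IsFractionRing.isAlgebraic_iff ℤ ℚ ℂ).1 h1
      exact h2.inv
  choose CR hCR0 hCR using fun (hk : (Fin D → TG) × Fin (D + 1)) =>
    rothQ ((∏ i, (X - C ((hk.1 i : TG) : ℂ))).coeff (hk.2 : ℕ))
      (isAlg_coeff _ _ (fun i => hTGa _) _) ε hε
  set R : ℝ := ∑ hk, CR hk with hR
  have hR0 : 0 ≤ R := Finset.sum_nonneg fun _ _ => hCR0 _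
  have hRle : ∀ hk, CR hk ≤ R := fun hk =>
    Finset.single_le_sum (f := CR) (fun _ _ => hCR0 _) (Finset.mem_univ hk)
  set C₂ : ℝ := (D + 1) * (1 + C₀) ^ D with hC₂
  have hC₂1 : 1 ≤ C₂ := by
    have h1 : (1 : ℝ) ≤ (1 + C₀) ^ D := one_le_pow₀ (by linarith)
    have h2 : (1 : ℝ) ≤ (D : ℝ) + 1 := by
      have : (0 : ℝ) ≤ D := Nat.cast_nonneg D
      linarith
    rw [hC₂]
    nlinarith
  have hlV : 0 ≤ Real.log V := Real.log_nonneg hV1
  have hlC₀ : 0 ≤ Real.log C₀ := Real.log_nonneg hC₀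
  have hlC₂ : 0 ≤ Real.log C₂ := Real.log_nonneg hC₂1
  have hl1 : 0 ≤ Real.log (1 + C₀) := Real.log_nonneg (by linarith)
  refine ⟨C₀ + (2 + ε) * (Real.log V + D * Real.log (1 + C₀)) + R + Real.log C₂ +
    1 / 6 * Real.log C₀, ?_, ?_⟩
  · have : 0 ≤ (2 + ε) * (Real.log V + D * Real.log (1 + C₀)) := by positivity
    linarith
  intro K _ _ hKD t M ht hM hBt hφ
  have hpos : 0 ≤ (2 + ε) * (Real.log V + D * Real.log (1 + C₀)) := by positivity
  have hMC₀ : C₀ ≤ M := by linarith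
  have hM1 : 1 ≤ M := by linarith
  have hM0 : 0 < M := by linarith
  obtain ⟨e⟩ := exists_equiv K hKD
  have hDpos : 0 < D := by
    rw [← hKD]
    exact finrank_pos
  obtain ⟨y, c, hc, hy, hbd⟩ := hV K t⁻¹ e
  -- the targets
  have htar : ∀ i : Fin D, ∃ σ : TG, M * ‖e i t⁻¹ - σ‖ ^ 6 ≤ C₀ ∧ ‖e i t⁻¹‖ ≤ C₀ ∧
      ‖(σ : ℂ)‖ ≤ C₀ := by
    intro i
    have h1 := hnear (e i t) M ((_root_.map_ne_zero _).2 ht) hMC₀ (by
      rw [ev_map]
      have := hφe (e i : K →+* ℂ) t B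
      change aeval (e i t) B = e i (aeval t B) at this
      rw [this]
      exact (_root_.map_ne_zero _).2 hBt) (by
      have h2 := hφ (e i : K →+* ℂ)
      have h3 := hφe (e i : K →+* ℂ) t B
      have h4 := hφe (e i : K →+* ℂ) t A
      rw [← h3, ← h4] at h2
      rw [ev_map, ev_map]
      exact h2)
    obtain ⟨σ, hσ, h2, h3, h4⟩ := h1
    have hσm : σ ∈ TG := by
      rw [hTG, Finset.mem_insert, Finset.mem_image]
      rcases hσ with hσ | hσ
      · exact Or.inl hσ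
      · right
        exact ⟨σ⁻¹, Multiset.mem_toFinset.2 ((mem_roots hBC).2 hσ), inv_inv σ⟩
    refine ⟨⟨σ, hσm⟩, ?_, ?_, h4⟩
    · rw [map_inv₀]
      exact h2
    · rw [map_inv₀]
      exact h3
  choose g hg1 hg2 hg3 using htar
  set G : ℂ[X] := ∏ i, (X - C (e i t⁻¹)) with hG
  set G' : ℂ[X] := ∏ i, (X - C ((g i : TG) : ℂ)) with hG'
  have hyD : ((y D : ℤ) : ℂ) = (c : ℂ) := by
    rw [hy D, prod_coeff, mul_one]
  have hyDR : ((y D : ℤ) : ℝ) = c := by exact_mod_cast hyD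
  have hyD0 : y D ≠ 0 := by
    intro h
    rw [h, Int.cast_zero] at hyDR
    exact hc.ne hyDR
  have hcne : (c : ℂ) ≠ 0 := by exact_mod_cast hc.ne'
  have hq : ∀ k, (((y k : ℚ) / (y D : ℚ) : ℚ) : ℂ) = G.coeff k := by
    intro k
    push_cast
    rw [hy k, hyD, mul_div_cancel_left₀ _ hcne]
  -- a coefficient which is different
  obtain ⟨k, hk1⟩ : ∃ k : Fin (D + 1), G.coeff (k : ℕ) ≠ G'.coeff (k : ℕ) := by
    by_contra hcon
    push Not at hcon
    have hpol : G = G' := by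
      ext k
      by_cases hk' : k < D + 1
      · exact hcon ⟨k, hk'⟩
      · rw [coeff_eq_zero_of_natDegree_lt (by rw [hG, prod_natDegree]; omega),
          coeff_eq_zero_of_natDegree_lt (by rw [hG', prod_natDegree]; omega)]
    have h3 : G'.eval (e ⟨0, hDpos⟩ t⁻¹) = 0 := by
      rw [← hpol, hG, Polynomial.eval_prod]
      exact Finset.prod_eq_zero (i := (⟨0, hDpos⟩ : Fin D)) (Finset.mem_univ _) (by simp)
    rw [hG', Polynomial.eval_prod, Finset.prod_eq_zero_iff] at h3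
    obtain ⟨i, -, h4⟩ := h3
    rw [eval_sub, eval_X, eval_C, sub_eq_zero] at h4
    have h5 : ∀ z : ℂ, z ∈ TG → z = 0 ∨ ∃ a ∈ (B.map (Int.castRingHom ℂ)).roots.toFinset,
        a⁻¹ = z := by
      intro z hz
      rwa [hTG, Finset.mem_insert, Finset.mem_image] at hz
    replace h5 := h5 _ (g i).2
    rcases h5 with h5 | ⟨τ, hτ, h5⟩
    · rw [h5] at h4
      exact (_root_.map_ne_zero _).2 (inv_ne_zero ht) h4
    · rw [← h5, map_inv₀] at h4
      have h6 : e ⟨0, hDpos⟩ t = τ := inv_inj.1 h4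
      rw [Multiset.mem_toFinset, mem_roots hBC, IsRoot.def, ← h6, ev_map] at hτ
      have h7 := hφe (e ⟨0, hDpos⟩ : K →+* ℂ) t B
      change aeval (e ⟨0, hDpos⟩ t) B = e ⟨0, hDpos⟩ (aeval t B) at h7
      rw [h7] at hτ
      exact hBt ((map_eq_zero _).1 hτ)
  -- Roth
  have h1 := hCR (g, k) ((y k : ℚ) / (y D : ℚ)) (by rw [hq]; exact hk1)
  rw [hq] at h1
  simp only at h1
  change -Real.log ‖G.coeff (k : ℕ) - G'.coeff (k : ℕ)‖ ≤ _ at h1
  -- the distance
  set δ : ℝ := (C₀ / M) ^ ((1 : ℝ) / 6) with hδ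
  have hC₀M : 0 < C₀ / M := by positivity
  have hδ0 : 0 < δ := Real.rpow_pos_of_pos hC₀M _
  have hδ6 : δ ^ 6 = C₀ / M := by
    rw [hδ, ← Real.rpow_natCast, ← Real.rpow_mul hC₀M.le]
    norm_num
  have hdist : ∀ i ∈ (Finset.univ : Finset (Fin D)), ‖e i t⁻¹ - (g i : ℂ)‖ ≤ δ := by
    intro i _
    refine le_of_pow_le_pow_left₀ (n := 6) (by norm_num) hδ0.le ?_
    rw [hδ6, le_div_iff₀ hM0]
    have := hg1 i
    linarith
  have h2 := coeff_diff Finset.univ (fun i => e i t⁻¹) (fun i => ((g i : TG) : ℂ)) C₀ δ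
    (by linarith) hδ0.le (fun i _ => hg2 i) (fun i _ => hg3 i) hdist (k : ℕ)
  rw [Finset.card_univ, Fintype.card_fin] at h2
  change ‖G.coeff (k : ℕ) - G'.coeff (k : ℕ)‖ ≤ _ at h2
  have h3 : ‖G.coeff (k : ℕ) - G'.coeff (k : ℕ)‖ ≤ C₂ * δ := by
    refine h2.trans (mul_le_mul_of_nonneg_right ?_ hδ0.le)
    rw [hC₂]
    refine mul_le_mul_of_nonneg_right (by linarith) (by positivity)
  have h4 : 0 < ‖G.coeff (k : ℕ) - G'.coeff (k : ℕ)‖ := norm_pos_iff.2 (sub_ne_zero.2 hk1)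
  have h5 := Real.log_le_log h4 h3
  have hlδ : Real.log δ = 1 / 6 * (Real.log C₀ - Real.log M) := by
    rw [hδ, Real.log_rpow hC₀M, Real.log_div (by linarith) hM0.ne']
  rw [Real.log_mul (by linarith) hδ0.ne', hlδ] at h5
  -- the height
  have h6 : logHeight ![((y k : ℚ) / (y D : ℚ) : ℚ), 1] ≤
      Real.log (max |((y k : ℤ) : ℝ)| |((y D : ℤ) : ℝ)|) := by
    have h7 := height_int (K := ℚ) (y k) (y D) hyD0
    rw [finrank_self, Nat.cast_one, one_mul] at h7
    have h8 := logHeight_scale (a := ((y k : ℚ) / (y D : ℚ) : ℚ)) (b := 1)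
      (c := (y D : ℚ)) (Int.cast_ne_zero.2 hyD0)
    rw [div_mul_cancel₀ _ (Int.cast_ne_zero.2 hyD0 : (y D : ℚ) ≠ 0), one_mul] at h8
    rw [← h8]
    exact h7
  have hP : (1 : ℝ) ≤ ∏ i : Fin D, max 1 ‖e i t⁻¹‖ := by
    calc (1 : ℝ) = ∏ i : Fin D, 1 := by simp
      _ ≤ _ := Finset.prod_le_prod (fun _ _ => zero_le_one) fun i _ => le_max_left _ _
  have hcle : c ≤ V * mulHeight ![t⁻¹, 1] := by
    refine le_trans ?_ hbd
    exact le_mul_of_one_le_right hc.le hP
  have h9 : max |((y k : ℤ) : ℝ)| |((y D : ℤ) : ℝ)| ≤ c * (1 + C₀) ^ D := by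
    apply max_le
    · have h10 : ‖((y k : ℤ) : ℂ)‖ = ‖(c : ℂ) * G.coeff (k : ℕ)‖ := by rw [hy k]
      rw [Complex.norm_intCast, norm_mul, Complex.norm_real, Real.norm_eq_abs, abs_of_pos hc]
        at h10
      rw [h10]
      refine mul_le_mul_of_nonneg_left ?_ hc.le
      have := coeff_bd Finset.univ (fun i => e i t⁻¹) C₀ (by linarith) (fun i _ => hg2 i) (k : ℕ)
      rw [Finset.card_univ, Fintype.card_fin] at this
      exact this
    · rw [hyDR, abs_of_pos hc]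
      exact le_mul_of_one_le_right hc.le (one_le_pow₀ (by linarith))
  have h10 : 0 < max |((y k : ℤ) : ℝ)| |((y D : ℤ) : ℝ)| :=
    lt_max_of_lt_right (abs_pos.2 (Int.cast_ne_zero.2 hyD0))
  have h11 := Real.log_le_log h10 h9
  rw [Real.log_mul hc.ne' (by positivity), Real.log_pow] at h11
  have hmh : 0 < mulHeight ![t⁻¹, 1] := by
    have := one_le_mulHeight ![t⁻¹, 1]
    linarith
  have h12 := Real.log_le_log hc hcle
  rw [Real.log_mul (by linarith) hmh.ne', ← logHeight_eq_log_mulHeight] at h12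
  have h13 : logHeight ![t⁻¹, 1] = logHeight ![t, 1] := by
    rw [← logHeight₁_eq_logHeight, ← logHeight₁_eq_logHeight, logHeight₁_inv]
  rw [h13] at h12
  have h14 : logHeight ![((y k : ℚ) / (y D : ℚ) : ℚ), 1] ≤
      Real.log V + logHeight ![t, 1] + D * Real.log (1 + C₀) := by linarith
  have h15 := mul_le_mul_of_nonneg_left h14 (show 0 ≤ 2 + ε by linarith)
  have h16 := hRle (g, k)
  nlinarith

end Pool.Agent.K3h44.HP
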