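import Mathlib
import Pool.Agent.K3h44.HP.Un5

/-!
The main inequality, uniformly in all number fields of a given degree.
-/

set_option autoImplicit false

namespace Pool.Agent.K3h44.HP

open Polynomial NumberField Height Module
open Pool.Agent.Y674.TR (ND MULP DEG COP Rep E)
open Pool.Agent.Y903.TR (ev_map)

/-- a translation which makes the denominator non-zero at zero -/
theorem shift {A B : ℤ[X]} (hAm : A.Monic) (hB0 : B ≠ 0)
    (hcop : IsCoprime (A.map (Int.castRingHom ℚ)) (B.map (Int.castRingHom ℚ)))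
    (hmult : ∀ τ : ℂ, (B.map (Int.castRingHom ℂ)).rootMultiplicity τ ≤ 6) :
    ∃ (c : ℤ) (A1 B1 : ℤ[X]), A1.Monic ∧ A1.natDegree = A.natDegree ∧
      B1.natDegree = B.natDegree ∧
      IsCoprime (A1.map (Int.castRingHom ℚ)) (B1.map (Int.castRingHom ℚ)) ∧
      (∀ τ : ℂ, (B1.map (Int.castRingHom ℂ)).rootMultiplicity τ ≤ 6) ∧ B1.eval 0 ≠ 0 ∧
      B.eval c ≠ 0 ∧ ∀ (K : Type) [Field K] (t : K), aeval (t - c) A1 = aeval t A ∧
        aeval (t - c) B1 = aeval t B := by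
  obtain ⟨c, hc⟩ : ∃ c : ℤ, B.eval c ≠ 0 := by
    by_contra hcon
    push Not at hcon
    exact hB0 (Polynomial.funext fun r => by rw [hcon r, eval_zero])
  have hcomp : ∀ (F : Type) [Field F] (P : ℤ[X]), (P.comp (X + C c)).map (Int.castRingHom F) =
      (P.map (Int.castRingHom F)).comp (X + C (c : F)) := by
    intro F _ P
    rw [Polynomial.map_comp]
    simp
  have hval : ∀ (K : Type) [Field K] (t : K) (P : ℤ[X]), aeval (t - c) (P.comp (X + C c)) =
      aeval t P := by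
    intro K _ t P
    rw [aeval_comp]
    simp
  refine ⟨c, A.comp (X + C c), B.comp (X + C c), hAm.comp (monic_X_add_C c) (by
    rw [natDegree_X_add_C]
    norm_num), ?_, ?_,
    ?_, ?_, ?_, hc, fun K _ t => ⟨hval K t A, hval K t B⟩⟩
  · rw [natDegree_comp, natDegree_X_add_C, mul_one]
  · rw [natDegree_comp, natDegree_X_add_C, mul_one]
  · rw [hcomp, hcomp]
    have := hcop.map (compRingHom (X + C (c : ℚ)))
    simpa using this
  · intro τ
    rw [hcomp, rootMultiplicity_eq_rootMultiplicity, comp_assoc]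
    have e : (X + C (c : ℂ)).comp (X + C τ) = X + C (τ + c) := by
      simp
      ring
    rw [e, ← rootMultiplicity_eq_rootMultiplicity]
    exact hmult _
  · rw [eval_comp]
    simpa using hc

/-- **the core inequality**, uniformly in all number fields of degree `D` -/
theorem coreD (D m n : ℕ) (hm : 2 ≤ m) (hn : 1 ≤ n) (ε : ℝ) (hε : 0 < ε) :
    ∃ C : ℝ, ∀ (K : Type) [Field K] [NumberField K] [DecidableEq K], finrank ℚ K = D →
      ∀ (d : ℤ) (x y : K) (h : (E K 0 d).Nonsingular x y) (Q : (E K 0 d).Point)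
      (a b : ℤ), d ≠ 0 → a ≠ 0 → b ≠ 0 → x ^ 3 / (d : K) = (a : K) / (b : K) →
      n • (WeierstrassCurve.Affine.Point.some x y h : (E K 0 d).Point) = n • (m • Q) →
      Real.log (|(a : ℝ)| / |(b : ℝ)|) ≤
        6 * (2 + ε) * D / (m : ℝ) ^ 2 * Real.log (max |(a : ℝ)| |(b : ℝ)|) + C := by
  classical
  have hnm : 1 ≤ n * m := Nat.mul_pos hn (by omega)
  obtain ⟨A, B, hAm, hAd, hBd, hB0, hcop, hmult, hMR⟩ := exists_AB' (n * m) hnm
  obtain ⟨A', B', hAm', hAd', hBd', hB0', hcop', -, hMR'⟩ := exists_AB' n hn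
  obtain ⟨c, A1, B1, hA1m, hA1d, hB1d, hcop1, hmult1, hB10, hBc, hval⟩ :=
    shift hAm hB0 hcop hmult
  have hm4 : (4 : ℝ) ≤ (m : ℝ) ^ 2 := by
    have : (2 : ℝ) ≤ m := by exact_mod_cast hm
    nlinarith
  have hn2 : (1 : ℝ) ≤ (n : ℝ) ^ 2 := by
    have : (1 : ℝ) ≤ n := by exact_mod_cast hn
    nlinarith
  have hnm4 : 2 ^ 2 ≤ (n * m) ^ 2 := by
    have : 2 ≤ n * m := by nlinarith
    exact Nat.pow_le_pow_left this 2
  obtain ⟨C₀, hC₀, harch⟩ := arch_unif D (A := A1) (B := B1) (by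
      rw [hA1d, hB1d, hAd, hBd]
      omega) (by
      rw [hB1d, hBd]
      omega) hmult1 hB10 ε hε
  obtain ⟨C₁, hC₁0, hC₁⟩ := height_lower_unif (n := (n * m) ^ 2) hA1m (by rw [hA1d, hAd])
    (by
      rw [hB1d, hBd]
      omega) hcop1
  obtain ⟨C₃, hC₃, hlarge⟩ := large hn hAm' hAd' hBd' hB0'
  obtain ⟨SA, hSA1, hSA⟩ := hv_le A' (n ^ 2)
  obtain ⟨SB, hSB1, hSB⟩ := hv_le B' (n ^ 2)
  set CT : ℝ := C₀ + |((A.eval c : ℤ) : ℝ)| with hCT
  have hCT1 : 1 ≤ CT := by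
    rw [hCT]
    have := abs_nonneg ((A.eval c : ℤ) : ℝ)
    linarith
  set S : ℝ := SA + SB with hS
  have hS1 : 1 ≤ S := by linarith
  set CF : ℝ := Real.log (C₃ * CT) + Real.log C₃ +
    6 * ((2 + ε) / ((n : ℝ) ^ 2 * (m : ℝ) ^ 2) * (D * Real.log S + D * C₁) + C₀) with hCF
  have hlC₃ : 0 ≤ Real.log C₃ := Real.log_nonneg hC₃
  have hlCT : 0 ≤ Real.log (C₃ * CT) := Real.log_nonneg (by nlinarith)
  have hlS : 0 ≤ Real.log S := Real.log_nonneg hS1
  have hrest : 0 ≤ 6 * ((2 + ε) / ((n : ℝ) ^ 2 * (m : ℝ) ^ 2) *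
      (D * Real.log S + D * C₁) + C₀) := by positivity
  refine ⟨CF, ?_⟩
  intro K _ _ _ hKD d x y hns Q a b hd ha hb hab hQ
  have hdK : (d : K) ≠ 0 := Int.cast_ne_zero.2 hd
  have hb1 : (1 : ℝ) ≤ |(b : ℝ)| := by
    have : (1 : ℤ) ≤ |b| := Int.one_le_abs hb
    exact_mod_cast this
  have ha1 : (1 : ℝ) ≤ |(a : ℝ)| := by
    have : (1 : ℤ) ≤ |a| := Int.one_le_abs ha
    exact_mod_cast this
  have hD0 : (0 : ℝ) ≤ D := Nat.cast_nonneg D
  obtain ⟨φ₀⟩ : Nonempty (K →+* ℂ) := inferInstance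
  set H₀ : ℝ := max |(a : ℝ)| |(b : ℝ)| with hH₀
  have hH₀1 : 1 ≤ H₀ := ha1.trans (le_max_left _ _)
  have hlH : 0 ≤ Real.log H₀ := Real.log_nonneg hH₀1
  set M : ℝ := |(a : ℝ)| / |(b : ℝ)| with hM
  have hM0 : 0 < M := by rw [hM]; positivity
  have hMC : ∀ φ : K →+* ℂ, ‖φ (x ^ 3 / (d : K))‖ = M := by
    intro φ
    rw [hab, map_div₀, map_intCast, map_intCast, norm_div, Complex.norm_intCast,
      Complex.norm_intCast]
  -- small values
  have hsmall : M ≤ C₃ * CT → Real.log M ≤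
      6 * (2 + ε) * D / (m : ℝ) ^ 2 * Real.log H₀ + CF := by
    intro hMs
    have h1 : Real.log M ≤ Real.log (C₃ * CT) := Real.log_le_log hM0 hMs
    have h2 : 0 ≤ 6 * (2 + ε) * D / (m : ℝ) ^ 2 * Real.log H₀ := by positivity
    rw [hCF]
    linarith
  rcases le_or_gt M C₃ with hMs | hMl
  · exact hsmall (hMs.trans (le_mul_of_one_le_right (by linarith) hCT1))
  have htr := hlarge (φ₀ (x ^ 3 / (d : K))) (by rw [hMC]; exact hMl.le)
  -- n P is not zero
  rcases hMR' K d x y hns hd with ⟨g1, g2⟩ | ⟨x', y', h', g1, g2, g3⟩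
  · exfalso
    apply htr.1
    rw [hφe, g2, map_zero]
  set ρ : K := x' ^ 3 / (d : K) with hρ
  rw [← mul_nsmul'] at hQ
  rcases Q with _ | ⟨u, s, hu⟩
  · exfalso
    rw [g1] at hQ
    have h0 : (n * m) • (0 : (E K 0 d).Point) = 0 := nsmul_zero _
    exact WeierstrassCurve.Affine.Point.some_ne_zero h' (hQ.trans h0)
  rcases hMR K d u s hu hd with ⟨f1, f2⟩ | ⟨x'', y'', h'', f1, f2, f3⟩
  · exfalso
    rw [g1, f1] at hQ
    exact WeierstrassCurve.Affine.Point.some_ne_zero h' hQ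
  have hxx : x'' = x' := by
    rw [g1, f1] at hQ
    injection hQ with hx hy
    exact hx.symm
  subst hxx
  set t : K := u ^ 3 / (d : K) with ht
  -- the size of ρ
  have hρM : ∀ φ : K →+* ℂ, M ≤ C₃ * ‖φ ρ‖ := by
    intro φ
    have h1 := hlarge (φ (x ^ 3 / (d : K))) (by rw [hMC]; exact hMl.le)
    have h2 : 0 < ‖aeval (φ (x ^ 3 / (d : K))) B'‖ := norm_pos_iff.2 h1.1
    have h3 := h1.2
    rw [hMC, hφe φ _ A', g3, map_mul, norm_mul, ← hφe] at h3
    have h4 : M * ‖aeval (φ (x ^ 3 / (d : K))) B'‖ ≤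
        C₃ * ‖φ ρ‖ * ‖aeval (φ (x ^ 3 / (d : K))) B'‖ := by
      calc _ ≤ _ := h3
        _ = _ := by ring
    exact le_of_mul_le_mul_right h4 h2
  set M₁ : ℝ := M / C₃ with hM₁
  have hC₃0 : 0 < C₃ := by linarith
  have hM₁1 : 1 ≤ M₁ := by
    rw [hM₁, le_div_iff₀ hC₃0]
    linarith
  have hM₁ρ : ∀ φ : K →+* ℂ, M₁ ≤ ‖φ ρ‖ := by
    intro φ
    rw [hM₁, div_le_iff₀ hC₃0]
    have := hρM φ
    linarith
  by_cases htc : t = c
  · apply hsmall
    have e1 : aeval t A = ((A.eval c : ℤ) : K) := by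
      rw [htc, ← hevK, eval_intCast_map]
      rfl
    have e2 : aeval t B = ((B.eval c : ℤ) : K) := by
      rw [htc, ← hevK, eval_intCast_map]
      rfl
    have h1 : φ₀ ρ * ((B.eval c : ℤ) : ℂ) = ((A.eval c : ℤ) : ℂ) := by
      have := congrArg φ₀ f3
      rw [e1, e2, map_mul, map_intCast, map_intCast] at this
      exact this.symm
    have h2 := congrArg (fun z : ℂ => ‖z‖) h1
    simp only [norm_mul, Complex.norm_intCast] at h2
    have h3 : (1 : ℝ) ≤ |((B.eval c : ℤ) : ℝ)| := by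
      have : (1 : ℤ) ≤ |B.eval c| := Int.one_le_abs hBc
      exact_mod_cast this
    have h5 : ‖φ₀ ρ‖ ≤ CT := by
      rw [hCT, ← h2]
      have h6 : ‖φ₀ ρ‖ ≤ ‖φ₀ ρ‖ * |((B.eval c : ℤ) : ℝ)| :=
        le_mul_of_one_le_right (norm_nonneg _) h3
      linarith
    exact (hρM φ₀).trans (mul_le_mul_of_nonneg_left h5 hC₃0.le)
  · rcases lt_or_ge M₁ C₀ with hlt | hge
    · apply hsmall
      rw [hM₁, div_lt_iff₀ hC₃0] at hlt
      have h1 : C₀ ≤ CT := by
        rw [hCT]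
        have := abs_nonneg ((A.eval c : ℤ) : ℝ)
        linarith
      calc M ≤ C₃ * C₀ := by linarith
        _ ≤ _ := mul_le_mul_of_nonneg_left h1 hC₃0.le
    obtain ⟨v1, v2⟩ := hval K t
    have h1 := harch K hKD (t - c) M₁ (sub_ne_zero.2 htc) hge (by rw [v2]; exact f2) (by
      intro φ
      rw [v1, v2, f3, map_mul, norm_mul]
      exact mul_le_mul_of_nonneg_right (hM₁ρ φ) (norm_nonneg _))
    -- heights
    have h3 := hC₁ K (t - c)
    rw [v1, v2, hKD] at h3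
    have h4 : logHeight ![aeval t A, aeval t B] = logHeight ![ρ, 1] := by
      rw [f3]
      have := logHeight_scale (a := ρ) (b := 1) f2
      rw [one_mul] at this
      exact this
    have h5 : logHeight ![ρ, 1] =
        logHeight ![((hv A' (n ^ 2) a b : ℤ) : K), ((hv B' (n ^ 2) a b : ℤ) : K)] := by
      rw [hv_cast (by rw [hAd']) a hb, hv_cast (by rw [hBd']; omega) a hb, ← hab, g3]
      have hbK : (b : K) ≠ 0 := Int.cast_ne_zero.2 hb
      have := logHeight_scale (a := ρ) (b := 1) (mul_ne_zero g2 (pow_ne_zero (n ^ 2) hbK))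
      rw [one_mul, ← mul_assoc] at this
      exact this.symm
    have hb2 : hv B' (n ^ 2) a b ≠ 0 := by
      intro h0
      have h6 := hv_cast (F := K) (P := B') (N := n ^ 2) (by rw [hBd']; omega) a hb
      rw [h0, Int.cast_zero, ← hab] at h6
      have hbK : (b : K) ≠ 0 := Int.cast_ne_zero.2 hb
      exact mul_ne_zero g2 (pow_ne_zero (n ^ 2) hbK) h6.symm
    have h6 := height_int (K := K) (hv A' (n ^ 2) a b) (hv B' (n ^ 2) a b) hb2
    rw [hKD] at h6
    have h7 : max |((hv A' (n ^ 2) a b : ℤ) : ℝ)| |((hv B' (n ^ 2) a b : ℤ) : ℝ)| ≤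
        S * H₀ ^ (n ^ 2) := by
      have hp : 0 ≤ H₀ ^ (n ^ 2) := by positivity
      have e1 := hSA a b
      have e2 := hSB a b
      rw [← hH₀] at e1 e2
      apply max_le
      · nlinarith
      · nlinarith
    have h8 : 0 < max |((hv A' (n ^ 2) a b : ℤ) : ℝ)| |((hv B' (n ^ 2) a b : ℤ) : ℝ)| :=
      lt_max_of_lt_right (abs_pos.2 (Int.cast_ne_zero.2 hb2))
    have h9 := Real.log_le_log h8 h7
    rw [Real.log_mul (by positivity) (by positivity), Real.log_pow] at h9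
    push_cast at h9 h3 h1
    set H : ℝ := logHeight ![t - c, 1] with hH
    have h10 : ((n : ℝ) * m) ^ 2 * H ≤ D * (Real.log S + (n : ℝ) ^ 2 * Real.log H₀) + D * C₁ := by
      have e2 := mul_le_mul_of_nonneg_left h9 hD0
      rw [h4, h5] at h3
      linarith
    have hlM₁ : Real.log M₁ = Real.log M - Real.log C₃ := by
      rw [hM₁, Real.log_div hM0.ne' hC₃0.ne']
    have hn0 : (0 : ℝ) < (n : ℝ) ^ 2 := by linarith
    have hm0 : (0 : ℝ) < (m : ℝ) ^ 2 := by linarith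
    have h12 : H ≤ (D * (Real.log S + (n : ℝ) ^ 2 * Real.log H₀) + D * C₁) /
        ((n : ℝ) ^ 2 * (m : ℝ) ^ 2) := by
      rw [le_div_iff₀ (by positivity)]
      calc H * ((n : ℝ) ^ 2 * (m : ℝ) ^ 2) = ((n : ℝ) * m) ^ 2 * H := by ring
        _ ≤ _ := h10
    have h13 : 1 / 6 * Real.log M₁ ≤
        (2 + ε) * ((D * (Real.log S + (n : ℝ) ^ 2 * Real.log H₀) + D * C₁) /
        ((n : ℝ) ^ 2 * (m : ℝ) ^ 2)) + C₀ :=
      h1.trans (by
        have := mul_le_mul_of_nonneg_left h12 (show 0 ≤ 2 + ε by linarith)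
        linarith)
    have h16 : 6 * ((2 + ε) * ((D * (Real.log S + (n : ℝ) ^ 2 * Real.log H₀) + D * C₁) /
        ((n : ℝ) ^ 2 * (m : ℝ) ^ 2)) + C₀) =
        6 * (2 + ε) * D / (m : ℝ) ^ 2 * Real.log H₀ +
        6 * ((2 + ε) / ((n : ℝ) ^ 2 * (m : ℝ) ^ 2) * (D * Real.log S + D * C₁) + C₀) := by
      field_simp
      ring
    have h17 : Real.log M₁ ≤ 6 * ((2 + ε) * ((D * (Real.log S + (n : ℝ) ^ 2 * Real.log H₀) +
        D * C₁) / ((n : ℝ) ^ 2 * (m : ℝ) ^ 2)) + C₀) := by linarith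
    rw [h16, hlM₁] at h17
    rw [hCF]
    linarith

end Pool.Agent.K3h44.HP
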