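import Mathlib
import Pool.Agent.K3h44.HP.Un6
import Pool.Agent.K3h44.HP.DivB

/-!
Integral points which are divisible by `m` modulo torsion over some number field of bounded degree.
-/

set_option autoImplicit false

namespace Pool.Agent.K3h44.HP

open Polynomial NumberField Height Module
open Pool.Agent.Y674.TR (E)

/-- the core inequality for all number fields of degree at most `D` -/
theorem coreLe (D m : ℕ) (hm : 2 ≤ m) (ε : ℝ) (hε : 0 < ε) :
    ∃ C : ℝ, 0 ≤ C ∧ ∀ (K : Type) [Field K] [NumberField K] [DecidableEq K], finrank ℚ K ≤ D →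
      ∀ (d : ℤ) (x y : K) (h : (E K 0 d).Nonsingular x y) (Q : (E K 0 d).Point)
      (a b : ℤ) (k : ℕ), d ≠ 0 → a ≠ 0 → b ≠ 0 → x ^ 3 / (d : K) = (a : K) / (b : K) → k ≠ 0 →
      k • (WeierstrassCurve.Affine.Point.some x y h : (E K 0 d).Point) = k • (m • Q) →
      Real.log (|(a : ℝ)| / |(b : ℝ)|) ≤
        6 * (2 + ε) * D / (m : ℝ) ^ 2 * Real.log (max |(a : ℝ)| |(b : ℝ)|) + C := by
  classical
  choose n hn htors using tors_unif
  choose C hC using fun D' : ℕ => coreD D' m (n D') hm (hn D') ε hε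
  refine ⟨∑ D' ∈ Finset.range (D + 1), |C D'|, Finset.sum_nonneg fun _ _ => abs_nonneg _, ?_⟩
  intro K _ _ _ hKD d x y h Q a b k hd ha hb hab hk hP
  have hT : n (finrank ℚ K) • ((WeierstrassCurve.Affine.Point.some x y h : (E K 0 d).Point)
      - m • Q) = 0 := by
    apply htors _ K rfl d hd
    refine ⟨k, Nat.one_le_iff_ne_zero.2 hk, ?_⟩
    rw [nsmul_sub, hP, sub_self]
  rw [nsmul_sub, sub_eq_zero] at hT
  have h1 := hC (finrank ℚ K) K rfl d x y h Q a b hd ha hb hab hT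
  have h2 : |C (finrank ℚ K)| ≤ ∑ D' ∈ Finset.range (D + 1), |C D'| :=
    Finset.single_le_sum (f := fun D' => |C D'|) (fun _ _ => abs_nonneg _)
      (Finset.mem_range.2 (by omega))
  have h3 := le_abs_self (C (finrank ℚ K))
  have h4 : ((finrank ℚ K : ℕ) : ℝ) ≤ (D : ℝ) := by exact_mod_cast hKD
  have hlog : 0 ≤ Real.log (max |(a : ℝ)| |(b : ℝ)|) := by
    apply Real.log_nonneg
    refine le_max_of_le_left ?_
    have : (1 : ℤ) ≤ |a| := Int.one_le_abs ha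
    exact_mod_cast this
  have h5 : 6 * (2 + ε) * (finrank ℚ K : ℕ) / (m : ℝ) ^ 2 *
      Real.log (max |(a : ℝ)| |(b : ℝ)|) ≤
      6 * (2 + ε) * D / (m : ℝ) ^ 2 * Real.log (max |(a : ℝ)| |(b : ℝ)|) := by
    refine mul_le_mul_of_nonneg_right ?_ hlog
    refine div_le_div_of_nonneg_right ?_ (by positivity)
    exact mul_le_mul_of_nonneg_left h4 (by positivity)
  linarith

theorem divAD (D m : ℕ) (hD : 1 ≤ D) (hm : 12 * D < m ^ 2)
    (κ : ℝ) (hκ : (m : ℝ) ^ 2 / (3 * ((m : ℝ) ^ 2 - 12 * D)) < κ) :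
    ∃ C : ℝ, ∀ (K : Type) [Field K] [NumberField K] [DecidableEq K], finrank ℚ K ≤ D →
      ∀ d x y : ℤ, d ≠ 0 → y ^ 2 = x ^ 3 + d →
      ∀ (h : (E K 0 d).Nonsingular (x : K) (y : K)) (Q : (E K 0 d).Point) (k : ℕ), k ≠ 0 →
      k • (WeierstrassCurve.Affine.Point.some (x : K) (y : K) h : (E K 0 d).Point) = k • (m • Q) →
      |(x : ℝ)| ≤ C * |(d : ℝ)| ^ κ ∧ |(y : ℝ)| ≤ C * |(d : ℝ)| ^ (3 * κ / 2) := by
  have hm2 : 2 ≤ m := by
    by_contra hcon
    push Not at hcon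
    have : m ^ 2 ≤ 1 ^ 2 := Nat.pow_le_pow_left (by omega) 2
    omega
  have hDR : (1 : ℝ) ≤ D := by exact_mod_cast hD
  have hm16 : 12 * (D : ℝ) < (m : ℝ) ^ 2 := by exact_mod_cast hm
  set N : ℝ := (m : ℝ) ^ 2 with hN
  have hn12 : 0 < N - 12 * D := by linarith
  have hκ3 : 1 / 3 < κ := by
    refine lt_of_le_of_lt ?_ hκ
    rw [div_le_div_iff₀ (by norm_num) (by positivity)]
    linarith
  have hκ0 : 0 < κ := by linarith
  rw [div_lt_iff₀ (by positivity)] at hκ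
  set ε : ℝ := (3 * κ * (N - 12 * D) - N) / (18 * κ * D) with hε
  have hε0 : 0 < ε := by
    rw [hε]
    apply div_pos
    · linarith
    · positivity
  have hεκ : 18 * κ * ε * D = 3 * κ * (N - 12 * D) - N := by
    rw [hε]
    field_simp
  obtain ⟨C, hC0, hC⟩ := coreLe D m hm2 ε hε0
  set C' : ℝ := Real.exp (κ * |C|) with hC'
  have hC'1 : 1 ≤ C' := by
    rw [hC']
    exact Real.one_le_exp (by positivity)
  refine ⟨C' ^ 2 + 1, ?_⟩
  intro K _ _ _ hKD d x y hd hxy h Q k hk hP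
  have hd1 : (1 : ℝ) ≤ |(d : ℝ)| := by
    have : (1 : ℤ) ≤ |d| := Int.one_le_abs hd
    exact_mod_cast this
  have hd0 : (0 : ℝ) < |(d : ℝ)| := by linarith
  have hdκ : (1 : ℝ) ≤ |(d : ℝ)| ^ κ := Real.one_le_rpow hd1 hκ0.le
  have hx : |(x : ℝ)| ≤ C' * |(d : ℝ)| ^ κ := by
    rcases eq_or_ne x 0 with rfl | hx0
    · simp only [Int.cast_zero, abs_zero]
      positivity
    have hx1 : (1 : ℝ) ≤ |(x : ℝ)| := by
      have : (1 : ℤ) ≤ |x| := Int.one_le_abs hx0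
      exact_mod_cast this
    have hld : 0 ≤ Real.log |(d : ℝ)| := Real.log_nonneg hd1
    have hlx : 0 ≤ Real.log |(x : ℝ)| := Real.log_nonneg hx1
    have hkey : Real.log |(x : ℝ)| ≤ κ * Real.log |(d : ℝ)| + κ * |C| := by
      rcases le_or_gt (|(x : ℝ)| ^ 3) |(d : ℝ)| with h3 | h3
      · have h4 := Real.log_le_log (by positivity) h3
        rw [Real.log_pow] at h4
        push_cast at h4
        have h5 : 1 / 3 * Real.log |(d : ℝ)| ≤ κ * Real.log |(d : ℝ)| :=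
          mul_le_mul_of_nonneg_right hκ3.le hld
        have h6 : 0 ≤ κ * |C| := by positivity
        linarith
      · have h1 := hC K hKD d x y h Q (x ^ 3) d k hd (pow_ne_zero 3 hx0) hd (by push_cast; rfl)
          hk hP
        have h2 : max |((x ^ 3 : ℤ) : ℝ)| |(d : ℝ)| = |(x : ℝ)| ^ 3 := by
          push_cast
          rw [abs_pow]
          exact max_eq_left h3.le
        rw [h2] at h1
        push_cast at h1
        rw [abs_pow, Real.log_div (by positivity) (by positivity), Real.log_pow] at h1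
        push_cast at h1
        set lx := Real.log |(x : ℝ)|
        set ld := Real.log |(d : ℝ)|
        have hCa := le_abs_self C
        have hN0 : 0 < N := by linarith
        have h5 : 3 * lx - ld ≤ 6 * (2 + ε) * D / N * (3 * lx) + |C| := by linarith
        have h6 := mul_le_mul_of_nonneg_left h5 hN0.le
        have h7 : N * (6 * (2 + ε) * D / N * (3 * lx) + |C|) =
            18 * (2 + ε) * D * lx + N * |C| := by
          field_simp
          ring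
        rw [h7] at h6
        have h8 : (3 * N - 18 * (2 + ε) * D) * lx ≤ N * ld + N * |C| := by linarith
        have h17 : κ * (3 * N - 18 * (2 + ε) * D) = N := by linear_combination -hεκ
        have h18 := mul_le_mul_of_nonneg_left h8 hκ0.le
        have h19 : N * lx ≤ N * (κ * ld + κ * |C|) := by
          calc N * lx = κ * ((3 * N - 18 * (2 + ε) * D) * lx) := by
                rw [← mul_assoc, h17]
            _ ≤ _ := h18
            _ = _ := by ring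
        exact le_of_mul_le_mul_left h19 hN0
    have h20 := Real.exp_le_exp.2 hkey
    rw [Real.exp_log (by linarith), Real.exp_add] at h20
    rw [hC', Real.rpow_def_of_pos hd0, mul_comm (Real.log |(d : ℝ)|) κ]
    linarith
  refine ⟨hx.trans ?_, ?_⟩
  · refine mul_le_mul_of_nonneg_right ?_ (by positivity)
    nlinarith
  · have h1 : |(y : ℝ)| ^ 2 ≤ ((C' ^ 2 + 1) * |(d : ℝ)| ^ (3 * κ / 2)) ^ 2 := by
      have e1 : (|(d : ℝ)| ^ (3 * κ / 2)) ^ 2 = |(d : ℝ)| ^ (3 * κ) := by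
        rw [← Real.rpow_natCast, ← Real.rpow_mul hd0.le]
        congr 1
        push_cast
        ring
      have e2 : |(d : ℝ)| ^ (3 * κ) = (|(d : ℝ)| ^ κ) ^ 3 := by
        rw [← Real.rpow_natCast, ← Real.rpow_mul hd0.le]
        congr 1
        push_cast
        ring
      have e3 : |(d : ℝ)| ≤ |(d : ℝ)| ^ (3 * κ) := by
        have : (1 : ℝ) ≤ 3 * κ := by linarith
        calc |(d : ℝ)| = |(d : ℝ)| ^ (1 : ℝ) := (Real.rpow_one _).symm
          _ ≤ _ := Real.rpow_le_rpow_of_exponent_le hd1 this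
      have e4 : |(y : ℝ)| ^ 2 ≤ |(x : ℝ)| ^ 3 + |(d : ℝ)| := by
        rw [sq_abs]
        have : ((y : ℝ)) ^ 2 = (x : ℝ) ^ 3 + d := by exact_mod_cast hxy
        rw [this, ← abs_pow]
        exact add_le_add (le_abs_self _) (le_abs_self _)
      have e5 : |(x : ℝ)| ^ 3 ≤ C' ^ 3 * |(d : ℝ)| ^ (3 * κ) := by
        rw [e2, ← mul_pow]
        exact pow_le_pow_left₀ (abs_nonneg _) hx 3
      rw [mul_pow, e1]
      have e6 : C' ^ 3 + 1 ≤ (C' ^ 2 + 1) ^ 2 := by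
        nlinarith [pow_pos (show 0 < C' by linarith) 3, sq_nonneg (C' ^ 2 - C'),
          mul_nonneg (show 0 ≤ C' - 1 by linarith) (pow_nonneg (show 0 ≤ C' by linarith) 3)]
      calc |(y : ℝ)| ^ 2 ≤ C' ^ 3 * |(d : ℝ)| ^ (3 * κ) + |(d : ℝ)| ^ (3 * κ) := by linarith
        _ = (C' ^ 3 + 1) * |(d : ℝ)| ^ (3 * κ) := by ring
        _ ≤ _ := mul_le_mul_of_nonneg_right e6 (by positivity)
    exact le_of_sq_le_sq h1 (by positivity)

theorem divBD (D m : ℕ) (hD : 1 ≤ D) (hm : 2 ≤ m) (η : ℝ) (hη : 36 * D / (m : ℝ) ^ 2 < η) :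
    ∃ C : ℝ, 1 ≤ C ∧ ∀ (K : Type) [Field K] [NumberField K] [DecidableEq K], finrank ℚ K ≤ D →
      ∀ d x₁ y₁ x₂ y₂ : ℤ, d ≠ 0 → y₁ ^ 2 = x₁ ^ 3 + d → y₂ ^ 2 = x₂ ^ 3 + d →
      |x₂| ≤ |x₁| → x₁ ≠ x₂ →
      ∀ (h₁ : (E K 0 d).Nonsingular (x₁ : K) (y₁ : K))
      (h₂ : (E K 0 d).Nonsingular (x₂ : K) (y₂ : K)) (Q : (E K 0 d).Point) (k : ℕ), k ≠ 0 →
      k • ((WeierstrassCurve.Affine.Point.some (x₁ : K) (y₁ : K) h₁ : (E K 0 d).Point) -
        WeierstrassCurve.Affine.Point.some (x₂ : K) (y₂ : K) h₂) = k • (m • Q) →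
      |(x₂ : ℝ)| ^ 3 ≤ C * |(d : ℝ)| * (|(x₁ : ℝ)| ^ 2 * |(x₂ : ℝ)|) ^ η := by
  have hDR : (1 : ℝ) ≤ D := by exact_mod_cast hD
  have hm4 : (4 : ℝ) ≤ (m : ℝ) ^ 2 := by
    have : (2 : ℝ) ≤ m := by exact_mod_cast hm
    nlinarith
  set N : ℝ := (m : ℝ) ^ 2 with hN
  have hN0 : 0 < N := by linarith
  have hη0 : 0 < η := lt_trans (by positivity) hη
  rw [div_lt_iff₀ hN0] at hη
  set ε : ℝ := (η * N - 36 * D) / (18 * D) with hε
  have hε0 : 0 < ε := by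
    rw [hε]
    apply div_pos
    · linarith
    · positivity
  obtain ⟨C, hC0, hC⟩ := coreLe D m hm ε hε0
  set C' : ℝ := Real.exp (|C| + Real.log 1000 + 6 * (2 + ε) * D / N * Real.log 125) with hC'
  have hexp : 0 ≤ |C| + Real.log 1000 + 6 * (2 + ε) * D / N * Real.log 125 := by
    have h1 : 0 ≤ Real.log 1000 := Real.log_nonneg (by norm_num)
    have h2 : 0 ≤ Real.log 125 := Real.log_nonneg (by norm_num)
    positivity
  have hC'1 : 1 ≤ C' := by
    rw [hC']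
    exact Real.one_le_exp hexp
  refine ⟨C' + 16, by linarith, ?_⟩
  intro K _ _ _ hKD d x₁ y₁ x₂ y₂ hd e₁ e₂ hle hne h₁ h₂ Q k hk hP
  have hd1 : (1 : ℝ) ≤ |(d : ℝ)| := by
    have : (1 : ℤ) ≤ |d| := Int.one_le_abs hd
    exact_mod_cast this
  have hd0 : (0 : ℝ) < |(d : ℝ)| := by linarith
  rcases eq_or_ne x₂ 0 with rfl | hx20
  · simp only [Int.cast_zero, abs_zero, mul_zero]
    rw [Real.zero_rpow hη0.ne']
    norm_num
  have hx21 : (1 : ℝ) ≤ |(x₂ : ℝ)| := by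
    have : (1 : ℤ) ≤ |x₂| := Int.one_le_abs hx20
    exact_mod_cast this
  have hleR : |(x₂ : ℝ)| ≤ |(x₁ : ℝ)| := by exact_mod_cast hle
  have hx11 : (1 : ℝ) ≤ |(x₁ : ℝ)| := hx21.trans hleR
  have hbase : (1 : ℝ) ≤ |(x₁ : ℝ)| ^ 2 * |(x₂ : ℝ)| := by nlinarith
  have hpow : (1 : ℝ) ≤ (|(x₁ : ℝ)| ^ 2 * |(x₂ : ℝ)|) ^ η := Real.one_le_rpow hbase hη0.le
  rcases lt_or_ge (|x₂| ^ 3) (16 * |d|) with hsm | hlg
  · have h1 : |(x₂ : ℝ)| ^ 3 < 16 * |(d : ℝ)| := by exact_mod_cast hsm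
    calc |(x₂ : ℝ)| ^ 3 ≤ 16 * |(d : ℝ)| := h1.le
      _ ≤ (C' + 16) * |(d : ℝ)| := by nlinarith
      _ ≤ (C' + 16) * |(d : ℝ)| * (|(x₁ : ℝ)| ^ 2 * |(x₂ : ℝ)|) ^ η :=
          le_mul_of_one_le_right (by positivity) hpow
  · have hx2p : 0 < x₂ := pos_of_large e₂ hd hlg
    have hx1p : 0 < x₁ := pos_of_large e₁ hd (hlg.trans (pow_le_pow_left₀ (abs_nonneg _) hle 3))
    rw [abs_of_pos hx2p, abs_of_pos hx1p] at hle
    rw [abs_of_pos hx2p] at hlg
    have hx2R : (0 : ℝ) < x₂ := by exact_mod_cast hx2p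
    have hx1R : (0 : ℝ) < x₁ := by exact_mod_cast hx1p
    have hleR' : (x₂ : ℝ) ≤ x₁ := by exact_mod_cast hle
    have hlgR : 16 * |(d : ℝ)| ≤ (x₂ : ℝ) ^ 3 := by exact_mod_cast hlg
    have hsub : (0 : ℝ) < (x₁ : ℝ) - x₂ := by
      have : x₂ < x₁ := lt_of_le_of_ne hle (Ne.symm hne)
      have : (x₂ : ℝ) < x₁ := by exact_mod_cast this
      linarith
    obtain ⟨s1, s2⟩ := diff_size (x₁ := (x₁ : ℝ)) (x₂ := (x₂ : ℝ)) (y₁ := (y₁ : ℝ))
      (y₂ := (y₂ : ℝ)) (d := (d : ℝ)) (by exact_mod_cast e₁) (by exact_mod_cast e₂) hx2R hleR' hlgR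
    -- the integers
    set p : ℤ := (y₁ + y₂) ^ 2 - (x₁ + x₂) * (x₁ - x₂) ^ 2 with hp
    have hpR : (p : ℝ) = ((y₁ : ℝ) + y₂) ^ 2 - ((x₁ : ℝ) + x₂) * ((x₁ : ℝ) - x₂) ^ 2 := by
      rw [hp]
      push_cast
      ring
    rw [← hpR] at s1 s2
    have hppos : (0 : ℝ) < p := by
      have : 0 < (x₂ : ℝ) * ((x₁ : ℝ) - x₂) ^ 2 := by positivity
      linarith
    have hp0 : p ≠ 0 := by
      intro h
      rw [h] at hppos
      simp at hppos
    have hne' : x₁ - x₂ ≠ 0 := sub_ne_zero.2 hne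
    -- the difference
    have hneK : (x₁ : K) ≠ (x₂ : K) := by exact_mod_cast hne
    have hsubK : (x₁ : K) - x₂ ≠ 0 := sub_ne_zero.2 hneK
    have hadd : (WeierstrassCurve.Affine.Point.some (x₁ : K) (y₁ : K) h₁ : (E K 0 d).Point) -
        WeierstrassCurve.Affine.Point.some (x₂ : K) (y₂ : K) h₂ =
        WeierstrassCurve.Affine.Point.some (x₁ : K) (y₁ : K) h₁ +
        WeierstrassCurve.Affine.Point.some (x₂ : K) ((E K 0 d).negY (x₂ : K) (y₂ : K))
          ((WeierstrassCurve.Affine.nonsingular_neg _ _).2 h₂) := by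
      rw [sub_eq_add_neg, WeierstrassCurve.Affine.Point.neg_some]
    rw [hadd, WeierstrassCurve.Affine.Point.add_of_X_ne hneK] at hP
    set r : K := (E K 0 d).addX (x₁ : K) (x₂ : K) ((E K 0 d).slope (x₁ : K) (x₂ : K) (y₁ : K)
      ((E K 0 d).negY (x₂ : K) (y₂ : K))) with hr
    have hrp : r * ((x₁ : K) - x₂) ^ 2 = (p : K) := by
      rw [hr, WeierstrassCurve.Affine.slope_of_X_ne hneK, WeierstrassCurve.Affine.addX,
        WeierstrassCurve.Affine.negY, hp]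
      simp only [E]
      push_cast
      field_simp
      ring
    have hdK : (d : K) ≠ 0 := Int.cast_ne_zero.2 hd
    have h1 := hC K hKD d r _ _ Q (p ^ 3) (d * (x₁ - x₂) ^ 6) k hd (pow_ne_zero 3 hp0)
      (mul_ne_zero hd (pow_ne_zero 6 hne')) (by
        push_cast
        rw [← hrp]
        field_simp) hk hP
    -- sizes
    set x1 : ℝ := (x₁ : ℝ) with hx1
    set x2 : ℝ := (x₂ : ℝ) with hx2
    have ha : |((p ^ 3 : ℤ) : ℝ)| = (p : ℝ) ^ 3 := by
      push_cast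
      rw [abs_of_pos (by positivity)]
    have hb : |((d * (x₁ - x₂) ^ 6 : ℤ) : ℝ)| = |(d : ℝ)| * (x1 - x2) ^ 6 := by
      push_cast
      rw [abs_mul, abs_of_pos (show 0 < (x1 - x2) ^ 6 by positivity)]
    rw [ha, hb] at h1
    have hY : (1 : ℝ) ≤ x1 ^ 2 * x2 := by
      rw [abs_of_pos hx1R, abs_of_pos hx2R] at hbase
      exact hbase
    have hmax : max ((p : ℝ) ^ 3) (|(d : ℝ)| * (x1 - x2) ^ 6) ≤ 125 * (x1 ^ 2 * x2) ^ 3 := by
      apply max_le
      · calc (p : ℝ) ^ 3 ≤ (5 * (x1 ^ 2 * x2)) ^ 3 := pow_le_pow_left₀ hppos.le s2 3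
          _ = _ := by ring
      · have g1 : (x1 - x2) ^ 6 ≤ x1 ^ 6 := pow_le_pow_left₀ hsub.le (by linarith) 6
        have g2 : |(d : ℝ)| ≤ x2 ^ 3 := by linarith
        calc |(d : ℝ)| * (x1 - x2) ^ 6 ≤ x2 ^ 3 * x1 ^ 6 :=
              mul_le_mul g2 g1 (by positivity) (by positivity)
          _ = (x1 ^ 2 * x2) ^ 3 := by ring
          _ ≤ _ := by
              have : 0 ≤ (x1 ^ 2 * x2) ^ 3 := by positivity
              linarith
    have hratio : x2 ^ 3 / (1000 * |(d : ℝ)|) ≤ (p : ℝ) ^ 3 / (|(d : ℝ)| * (x1 - x2) ^ 6) := by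
      rw [div_le_div_iff₀ (by positivity) (by positivity)]
      have g3 : (x2 * (x1 - x2) ^ 2) ^ 3 ≤ (10 * (p : ℝ)) ^ 3 :=
        pow_le_pow_left₀ (by positivity) s1 3
      have g4 := mul_le_mul_of_nonneg_left g3 hd0.le
      calc x2 ^ 3 * (|(d : ℝ)| * (x1 - x2) ^ 6) = |(d : ℝ)| * (x2 * (x1 - x2) ^ 2) ^ 3 := by ring
        _ ≤ _ := g4
        _ = _ := by ring
    have l1 := Real.log_le_log (by positivity) hratio
    have hcoef : 0 ≤ 6 * (2 + ε) * D / N := by positivity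
    have l2 := Real.log_le_log (lt_max_of_lt_left (by positivity)) hmax
    rw [Real.log_mul (by norm_num) (by positivity), Real.log_pow] at l2
    rw [Real.log_div (by positivity) (by positivity), Real.log_mul (by norm_num) hd0.ne'] at l1
    have l3 := mul_le_mul_of_nonneg_left l2 hcoef
    have l4 := le_abs_self C
    have hηε : 6 * (2 + ε) * D / N * ((3 : ℕ) * Real.log (x1 ^ 2 * x2)) = η * Real.log (x1 ^ 2 * x2) := by
      rw [hε]
      push_cast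
      field_simp
      ring
    have l5 : Real.log (x2 ^ 3) ≤ (|C| + Real.log 1000 + 6 * (2 + ε) * D / N * Real.log 125) +
        Real.log |(d : ℝ)| + η * Real.log (x1 ^ 2 * x2) := by
      rw [← hηε]
      linarith
    have l6 := Real.exp_le_exp.2 l5
    rw [Real.exp_log (by positivity), Real.exp_add, Real.exp_add, Real.exp_log hd0, ← hC'] at l6
    rw [abs_of_pos hx1R, abs_of_pos hx2R, Real.rpow_def_of_pos (by positivity),
      mul_comm (Real.log _) η]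
    have g5 : 0 < |(d : ℝ)| * Real.exp (η * Real.log (x1 ^ 2 * x2)) := by positivity
    nlinarith

/-- Hall's inequality for the smaller one of two congruent points -/
theorem divBD' (D m : ℕ) (hD : 1 ≤ D) (hm : 2 ≤ m)
    (A κ : ℝ) (hA : 1 ≤ A) (hκ : 0 < κ)
    (hAκ : 36 * D * (2 * A + 1) / (m : ℝ) ^ 2 < 3 - 1 / κ) :
    ∃ C : ℝ, ∀ (K : Type) [Field K] [NumberField K] [DecidableEq K], finrank ℚ K ≤ D →
      ∀ d x₁ y₁ x₂ y₂ : ℤ, d ≠ 0 → y₁ ^ 2 = x₁ ^ 3 + d → y₂ ^ 2 = x₂ ^ 3 + d →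
      |x₂| ≤ |x₁| → x₁ ≠ x₂ → |(x₁ : ℝ)| ≤ |(x₂ : ℝ)| ^ A →
      ∀ (h₁ : (E K 0 d).Nonsingular (x₁ : K) (y₁ : K))
      (h₂ : (E K 0 d).Nonsingular (x₂ : K) (y₂ : K)) (Q : (E K 0 d).Point) (k : ℕ), k ≠ 0 →
      k • ((WeierstrassCurve.Affine.Point.some (x₁ : K) (y₁ : K) h₁ : (E K 0 d).Point) -
        WeierstrassCurve.Affine.Point.some (x₂ : K) (y₂ : K) h₂) = k • (m • Q) →
      |(x₂ : ℝ)| ≤ C * |(d : ℝ)| ^ κ := by
  have hA2 : 0 < 2 * A + 1 := by linarith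
  have hm4 : (0 : ℝ) < (m : ℝ) ^ 2 := by
    have : (2 : ℝ) ≤ m := by exact_mod_cast hm
    positivity
  set η : ℝ := (3 - 1 / κ) / (2 * A + 1) with hη
  have hη1 : 36 * D / (m : ℝ) ^ 2 < η := by
    rw [hη, lt_div_iff₀ hA2]
    calc 36 * D / (m : ℝ) ^ 2 * (2 * A + 1) = 36 * D * (2 * A + 1) / (m : ℝ) ^ 2 := by ring
      _ < _ := hAκ
  obtain ⟨C, hC1, hC⟩ := divBD D m hD hm η hη1
  have hC0 : 0 < C := by linarith
  refine ⟨C ^ κ, ?_⟩
  intro K _ _ _ hKD d x₁ y₁ x₂ y₂ hd e₁ e₂ hle hne hA' h₁ h₂ Q k hk hP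
  have h := hC K hKD d x₁ y₁ x₂ y₂ hd e₁ e₂ hle hne h₁ h₂ Q k hk hP
  have hd1 : (1 : ℝ) ≤ |(d : ℝ)| := by
    have : (1 : ℤ) ≤ |d| := Int.one_le_abs hd
    exact_mod_cast this
  have hd0 : (0 : ℝ) < |(d : ℝ)| := by linarith
  rcases eq_or_ne x₂ 0 with rfl | hx20
  · simp only [Int.cast_zero, abs_zero]
    positivity
  have hx21 : (1 : ℝ) ≤ |(x₂ : ℝ)| := by
    have : (1 : ℤ) ≤ |x₂| := Int.one_le_abs hx20
    exact_mod_cast this
  set X : ℝ := |(x₂ : ℝ)| with hX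
  have hX0 : 0 < X := by linarith
  have hη0 : 0 < η := lt_trans (by positivity) hη1
  have h1 : (|(x₁ : ℝ)| ^ 2 * X) ^ η ≤ X ^ (3 - 1 / κ) := by
    have h2 : |(x₁ : ℝ)| ^ 2 * X ≤ X ^ (2 * A + 1) := by
      have h3 : |(x₁ : ℝ)| ^ 2 ≤ (X ^ A) ^ 2 := pow_le_pow_left₀ (abs_nonneg _) hA' 2
      rw [Real.rpow_add hX0, Real.rpow_one]
      refine mul_le_mul_of_nonneg_right (h3.trans (le_of_eq ?_)) hX0.le
      rw [← Real.rpow_natCast, ← Real.rpow_mul hX0.le]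
      congr 1
      push_cast
      ring
    refine (Real.rpow_le_rpow (by positivity) h2 hη0.le).trans (le_of_eq ?_)
    rw [← Real.rpow_mul hX0.le]
    congr 1
    rw [hη]
    field_simp
  have h4 : X ^ (3 : ℝ) ≤ C * |(d : ℝ)| * X ^ (3 - 1 / κ) := by
    have e3 : X ^ (3 : ℝ) = X ^ 3 := by
      rw [← Real.rpow_natCast]
      norm_num
    rw [e3]
    exact h.trans (mul_le_mul_of_nonneg_left h1 (by positivity))
  have h5 : X ^ (1 / κ) ≤ C * |(d : ℝ)| := by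
    have h6 : X ^ (3 : ℝ) = X ^ (1 / κ) * X ^ (3 - 1 / κ) := by
      rw [← Real.rpow_add hX0]
      congr 1
      ring
    rw [h6] at h4
    exact le_of_mul_le_mul_right h4 (by positivity)
  calc X = (X ^ (1 / κ)) ^ κ := by
        rw [← Real.rpow_mul hX0.le, one_div, inv_mul_cancel₀ hκ.ne', Real.rpow_one]
    _ ≤ (C * |(d : ℝ)|) ^ κ := Real.rpow_le_rpow (by positivity) h5 hκ.le
    _ = C ^ κ * |(d : ℝ)| ^ κ := Real.mul_rpow hC0.le hd0.le

end Pool.Agent.K3h44.HP
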